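import Pool.Agent.Lib_MP_752436_rc.CritType
import Pool.Agent.Lib_MP_752436_nb.FromDisc
import Pool.Agent.Lib_MP_752436_nb.Field
import Pool.Agent.Lib_MP_752436_nb.LevelPush
import Pool.Agent.Lib_MP_752436_gt.Bilip

/-!
PIECE NORM: normalisation of the height: negative outside the disc, distinct critical values.
-/

open MeasureTheory Metric Set Filter
open scoped ContDiff Topology

namespace Pool.Agent.Lib_MP_752436_rc

open Pool.Agent.Lib_MP_752436_gt Pool.Agent.Lib_MP_752436_rb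

/-- `MaxAt` only depends on the derivative near the point. -/
theorem MaxAt.congr {t t' : E2 → ℝ} {q : E2} (h : MaxAt t q) {ρ : ℝ} (hρ : 0 < ρ)
    (he : ∀ z ∈ ball q ρ, fderiv ℝ t' z = fderiv ℝ t z) : MaxAt t' q := by
  obtain ⟨r, hr, hball⟩ := h
  refine ⟨min r ρ, lt_min hr hρ, fun z hz hzq => ?_⟩
  rw [he z (ball_subset_ball (min_le_right _ _) hz)]
  exact hball z (ball_subset_ball (min_le_left _ _) hz) hzq

/-- `SaddleAt` only depends on the derivative near the point. -/
theorem SaddleAt.congr {t t' : E2 → ℝ} {q : E2} (h : SaddleAt t q) {ρ : ℝ} (hρ : 0 < ρ)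
    (he : ∀ z ∈ ball q ρ, fderiv ℝ t' z = fderiv ℝ t z) : SaddleAt t' q := by
  obtain ⟨X, Y, u, v, r, hr, hθ⟩ := h
  refine ⟨X, Y, u, v, min r ρ, lt_min hr hρ, fun θ hθ' => ?_⟩
  have h1 := hθ θ hθ'
  refine ⟨h1.frame, fun z hz hzq hle => ?_, fun z hz hzq hle => ?_⟩
  · rw [he z (ball_subset_ball (min_le_right _ _) hz)]
    exact h1.vert z (ball_subset_ball (min_le_left _ _) hz) hzq hle
  · rw [he z (ball_subset_ball (min_le_right _ _) hz)]
    exact h1.horiz z (ball_subset_ball (min_le_left _ _) hz) hzq hle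

/-- The height of a slice disc is bi-Lipschitz on double points. -/
theorem norm_bilip {G : E2 → EuclideanSpace ℝ (Fin 4)} (hG : IsSliceDisc G) :
    ∃ c : ℝ, 0 < c ∧
      (∀ x ∈ closedBall (0 : E2) 1, ∀ y ∈ closedBall (0 : E2) 1, shadow G x = shadow G y →
        c * ‖x - y‖ ≤ |height G x - height G y|) ∧
      ∀ x ∈ closedBall (0 : E2) 1, ∀ u, fderiv ℝ (shadow G) x u = 0 →
        c * ‖u‖ ≤ |fderiv ℝ (height G) x u| := by
  obtain ⟨c, hc, h1, h2⟩ := exists_bilip hG
  have hvert : ∀ v : EuclideanSpace ℝ (Fin 4), v 0 = 0 → v 1 = 0 → v 2 = 0 → ‖v‖ = |v 3| := by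
    intro v h0 h1 h2
    rw [EuclideanSpace.norm_eq, Fin.sum_univ_four, h0, h1, h2]
    simp [Real.sqrt_sq_eq_abs]
  refine ⟨c, hc, fun x hx y hy hxy => ?_, fun x hx u hu => ?_⟩
  · refine (h1 x hx y hy).trans (le_of_eq ?_)
    have e0 := congrArg (fun v : EuclideanSpace ℝ (Fin 3) => v 0) hxy
    have e1 := congrArg (fun v : EuclideanSpace ℝ (Fin 3) => v 1) hxy
    have e2 := congrArg (fun v : EuclideanSpace ℝ (Fin 3) => v 2) hxy
    simp only [shadow] at e0 e1 e2
    rw [hvert (G x - G y) (by simpa [sub_eq_zero] using e0) (by simpa [sub_eq_zero] using e1)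
      (by simpa [sub_eq_zero] using e2)]
    rfl
  · refine (h2 x hx u).trans (le_of_eq ?_)
    have hdG : DifferentiableAt ℝ G x := (hG.smooth.differentiable (by simp)) x
    have hcoord : ∀ i : Fin 4, (fderiv ℝ G x u) i = fderiv ℝ (fun y => G y i) x u := by
      intro i
      have h1 : HasFDerivAt (fun y => G y i)
          ((EuclideanSpace.proj i : EuclideanSpace ℝ (Fin 4) →L[ℝ] ℝ).comp (fderiv ℝ G x)) x :=
        (EuclideanSpace.proj i : EuclideanSpace ℝ (Fin 4) →L[ℝ] ℝ).hasFDerivAt.comp x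
          hdG.hasFDerivAt
      rw [h1.fderiv]
      rfl
    have hsm : ContDiff ℝ ∞ (shadow G) := (Pool.Agent.Lib_MP_752436_nb.sdisc_of_sliceDisc hG).smf
    have hds : DifferentiableAt ℝ (shadow G) x := (hsm.differentiable (by simp)) x
    have hcoords : ∀ i : Fin 3,
        (fderiv ℝ (shadow G) x u) i = fderiv ℝ (fun y => shadow G y i) x u := by
      intro i
      have h1 : HasFDerivAt (fun y => shadow G y i)
          ((EuclideanSpace.proj i : EuclideanSpace ℝ (Fin 3) →L[ℝ] ℝ).comp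
            (fderiv ℝ (shadow G) x)) x :=
        (EuclideanSpace.proj i : EuclideanSpace ℝ (Fin 3) →L[ℝ] ℝ).hasFDerivAt.comp x
          hds.hasFDerivAt
      rw [h1.fderiv]
      rfl
    have e0 := hcoords 0
    have e1 := hcoords 1
    have e2 := hcoords 2
    rw [hu] at e0 e1 e2
    rw [hvert _ (by rw [hcoord]; exact e0.symm) (by rw [hcoord]; exact e1.symm)
      (by rw [hcoord]; exact e2.symm), hcoord]
    rfl

/-- Small numbers which make finitely many values distinct. -/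
theorem exists_distinct_values {C : Set E2} (hC : C.Finite) (v : E2 → ℝ) {ε : ℝ} (hε : 0 < ε) :
    ∃ c : E2 → ℝ, (∀ q, |c q| ≤ ε) ∧ InjOn (fun q => v q + c q) C := by
  classical
  induction C, hC using Set.Finite.induction_on with
  | empty => exact ⟨fun _ => 0, fun _ => by simpa using hε.le, by simp⟩
  | @insert q₀ C' hq₀ hC' ih =>
    obtain ⟨c, hc, hinj⟩ := ih
    have hfin : ((fun q => v q + c q - v q₀) '' C').Finite := hC'.image _
    have hinf : (Icc (-ε) ε).Infinite := Icc_infinite (by linarith)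
    obtain ⟨x, hx, hx'⟩ := hinf.exists_notMem_finite hfin
    refine ⟨Function.update c q₀ x, fun q => ?_, ?_⟩
    · by_cases h : q = q₀
      · rw [h, Function.update_self]
        exact abs_le.2 hx
      · rw [Function.update_of_ne h]
        exact hc q
    · have hne : ∀ q ∈ C', q ≠ q₀ := fun q hq h => hq₀ (h ▸ hq)
      intro a ha b hb hab
      simp only at hab
      rcases ha with rfl | ha <;> rcases hb with rfl | hb
      · rfl
      · exfalso
        rw [Function.update_self, Function.update_of_ne (hne b hb)] at hab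
        exact hx' ⟨b, hb, by simp only; linarith⟩
      · exfalso
        rw [Function.update_self, Function.update_of_ne (hne a ha)] at hab
        exact hx' ⟨a, ha, by simp only; linarith⟩
      · rw [Function.update_of_ne (hne a ha), Function.update_of_ne (hne b hb)] at hab
        exact hinj ha hb hab

/-- A common radius for finitely many points of an open set. -/
private theorem norm_radius (P : Finset E2) {W : Set E2} (hW : IsOpen W) (hP : ∀ p ∈ P, p ∈ W) :
    ∃ R : ℝ, 0 < R ∧ ∀ p ∈ P, closedBall p R ⊆ W := by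
  classical
  induction P using Finset.induction_on with
  | empty => exact ⟨1, one_pos, by simp⟩
  | insert q P hq ih =>
    obtain ⟨R, hR, hsub⟩ := ih (fun p hp => hP p (Finset.mem_insert_of_mem hp))
    obtain ⟨r, hr, hr2⟩ := Metric.isOpen_iff.1 hW q (hP q (Finset.mem_insert_self q P))
    refine ⟨min R (r / 2), lt_min hR (half_pos hr), ?_⟩
    intro p hp
    rcases Finset.mem_insert.1 hp with rfl | hp
    · intro x hx
      apply hr2
      rw [mem_closedBall] at hx
      rw [mem_ball]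
      have := min_le_right R (r / 2)
      linarith
    · exact (closedBall_subset_closedBall (min_le_left _ _)).trans (hsub p hp)

/-- A small function which is locally constant near the points of a finite set. -/
theorem norm_exists_shift {C : Set E2} (hC : C.Finite) (hCb : C ⊆ ball 0 1) (v : E2 → ℝ) :
    ∃ r > 0, (∀ q ∈ C, closedBall q r ⊆ ball 0 1) ∧ ∃ B : Set E2, IsCompact B ∧ B ⊆ ball 0 1 ∧
      ∀ κ > 0, ∃ s : E2 → ℝ, ContDiff ℝ ∞ s ∧ tsupport s ⊆ B ∧ (∀ z, |s z| ≤ κ) ∧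
        (∀ z, ‖fderiv ℝ s z‖ ≤ κ) ∧ (∀ q ∈ C, ∀ z ∈ ball q r, s z = s q) ∧
        InjOn (fun q => v q + s q) C := by
  classical
  -- a common radius
  obtain ⟨R, hR, hRb⟩ := norm_radius hC.toFinset isOpen_ball
    (fun q hq => hCb (hC.mem_toFinset.1 hq))
  obtain ⟨ρ, hρ, hρd⟩ : ∃ ρ > 0, ∀ a ∈ C, ∀ b ∈ C, a ≠ b → ρ ≤ dist a b := by
    by_cases h : C.Subsingleton
    · exact ⟨1, one_pos, fun a ha b hb hab => absurd (h ha hb) hab⟩
    · have hne : (C.offDiag).Nonempty := by
        rw [Set.not_subsingleton_iff] at h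
        obtain ⟨a, ha, b, hb, hab⟩ := h
        exact ⟨(a, b), ha, hb, hab⟩
      obtain ⟨p, hp, hmin⟩ := Set.exists_min_image C.offDiag (fun p => dist p.1 p.2)
        (hC.offDiag) hne
      exact ⟨dist p.1 p.2, dist_pos.2 hp.2.2, fun a ha b hb hab => hmin (a, b) ⟨ha, hb, hab⟩⟩
  set r := min (R / 4) (ρ / 4) with hr
  have hr0 : 0 < r := lt_min (by positivity) (by positivity)
  have hrR : 2 * r ≤ R := by
    have := min_le_left (R / 4) (ρ / 4)
    linarith
  have hrρ : 4 * r ≤ ρ := by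
    have := min_le_right (R / 4) (ρ / 4)
    linarith
  let η : ∀ q : E2, ContDiffBump q := fun q => ⟨r, 2 * r, hr0, by linarith⟩
  have hηd : ∀ q, ContDiff ℝ ∞ (η q : E2 → ℝ) := fun q => (η q).contDiff
  have hηb : ∀ q, ∃ K, ∀ z, ‖fderiv ℝ (η q : E2 → ℝ) z‖ ≤ K := fun q =>
    ((η q).hasCompactSupport.fderiv ℝ).exists_bound_of_continuous
      ((hηd q).continuous_fderiv (by simp))
  choose K hK using hηb
  set Kt : ℝ := ∑ q ∈ hC.toFinset, (|K q| + 1) with hKt
  have hKt0 : 0 ≤ Kt := Finset.sum_nonneg fun q _ => by positivity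
  refine ⟨r, hr0, fun q hq => (closedBall_subset_closedBall (by linarith)).trans
    (hRb q (hC.mem_toFinset.2 hq)), ⋃ q ∈ C, closedBall q (2 * r), ?_, ?_, fun κ hκ => ?_⟩
  · exact hC.isCompact_biUnion fun q _ => isCompact_closedBall _ _
  · refine iUnion₂_subset fun q hq => (closedBall_subset_closedBall hrR).trans
      (hRb q (hC.mem_toFinset.2 hq))
  obtain ⟨c, hc, hcinj⟩ := exists_distinct_values hC v (ε := κ / (Kt + 1)) (by positivity)
  set s : E2 → ℝ := fun z => ∑ q ∈ hC.toFinset, c q * η q z with hs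
  have hsd : ContDiff ℝ ∞ s := ContDiff.sum fun q _ => contDiff_const.mul (hηd q)
  have hcK : κ / (Kt + 1) * Kt ≤ κ := by
    rw [div_mul_eq_mul_div, div_le_iff₀ (by positivity)]
    nlinarith
  have hsq : ∀ q ∈ C, ∀ z ∈ ball q r, s z = c q := by
    intro q hq z hz
    have h1 : s z = ∑ q' ∈ hC.toFinset, if q' = q then c q else 0 := by
      refine Finset.sum_congr rfl fun q' hq' => ?_
      have hq'C := hC.mem_toFinset.1 hq'
      by_cases h : q' = q
      · rw [if_pos h, h, (η q).one_of_mem_closedBall (ball_subset_closedBall hz), mul_one]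
      · rw [if_neg h, (η q').zero_of_le_dist, mul_zero]
        show 2 * r ≤ dist z q'
        have h2 := hρd q' hq'C q hq h
        have h3 := dist_triangle q' z q
        have h4 := mem_ball.1 hz
        rw [dist_comm q' z] at h3
        linarith
    rw [h1, Finset.sum_ite_eq' hC.toFinset q, if_pos (hC.mem_toFinset.2 hq)]
  refine ⟨s, hsd, ?_, ?_, ?_, ?_, ?_⟩
  · refine closure_minimal ?_ (hC.isCompact_biUnion fun q _ => isCompact_closedBall _ _).isClosed
    intro z hz
    by_contra hcon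
    apply hz
    show ∑ q ∈ hC.toFinset, c q * η q z = 0
    refine Finset.sum_eq_zero fun q hq => ?_
    rw [(η q).zero_of_le_dist, mul_zero]
    show 2 * r ≤ dist z q
    by_contra h
    exact hcon (mem_iUnion₂.2 ⟨q, hC.mem_toFinset.1 hq, mem_closedBall.2 (not_le.1 h).le⟩)
  · intro z
    calc |s z| ≤ ∑ q ∈ hC.toFinset, |c q * η q z| := Finset.abs_sum_le_sum_abs _ _
      _ ≤ ∑ q ∈ hC.toFinset, κ / (Kt + 1) * (|K q| + 1) := by
        refine Finset.sum_le_sum fun q _ => ?_
        rw [abs_mul, abs_of_nonneg (η q).nonneg]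
        refine mul_le_mul (hc q) ((η q).le_one.trans ?_) (η q).nonneg (by positivity)
        linarith [abs_nonneg (K q)]
      _ = κ / (Kt + 1) * Kt := by rw [hKt, Finset.mul_sum]
      _ ≤ κ := hcK
  · intro z
    have h1 : fderiv ℝ s z = ∑ q ∈ hC.toFinset, c q • fderiv ℝ (η q : E2 → ℝ) z := by
      have h2 : HasFDerivAt s (∑ q ∈ hC.toFinset, c q • fderiv ℝ (η q : E2 → ℝ) z) z := by
        refine HasFDerivAt.fun_sum fun q _ => ?_
        exact (((hηd q).differentiable (by simp)) z).hasFDerivAt.const_mul (c q)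
      exact h2.fderiv
    rw [h1]
    calc ‖∑ q ∈ hC.toFinset, c q • fderiv ℝ (η q : E2 → ℝ) z‖
        ≤ ∑ q ∈ hC.toFinset, ‖c q • fderiv ℝ (η q : E2 → ℝ) z‖ := norm_sum_le _ _
      _ ≤ ∑ q ∈ hC.toFinset, κ / (Kt + 1) * (|K q| + 1) := by
        refine Finset.sum_le_sum fun q _ => ?_
        rw [norm_smul, Real.norm_eq_abs]
        refine mul_le_mul (hc q) ((hK q z).trans ?_) (norm_nonneg _) (by positivity)
        linarith [le_abs_self (K q)]
      _ = κ / (Kt + 1) * Kt := by rw [hKt, Finset.mul_sum]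
      _ ≤ κ := hcK
  · intro q hq z hz
    rw [hsq q hq z hz, hsq q hq q (mem_ball_self hr0)]
  · intro a ha b hb hab
    simp only at hab
    rw [hsq a ha a (mem_ball_self hr0), hsq b hb b (mem_ball_self hr0)] at hab
    exact hcinj ha hb hab

/-- The height may be changed outside the disc so that it is negative there. -/
theorem exists_negative_outside {t : E2 → ℝ} (ht : ContDiff ℝ ∞ t)
    (bd : ∀ x ∈ sphere (0 : E2) 1, t x = 0) (pos : ∀ x ∈ ball (0 : E2) 1, 0 < t x)
    (neat : ∀ x ∈ sphere (0 : E2) 1, fderiv ℝ t x ≠ 0) :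
    ∃ t₁ : E2 → ℝ, ContDiff ℝ ∞ t₁ ∧ (∃ ρ > 1, ∀ x ∈ ball (0 : E2) ρ, t₁ x = t x) ∧
      (∀ x, 1 < ‖x‖ → t₁ x < 0) ∧ ∃ R : ℝ, ∀ x, -1 < t₁ x → ‖x‖ ≤ R := by
  classical
  have hV : ∀ x : E2, ∃ u : E2, x ∈ sphere (0 : E2) 1 → 0 < fderiv ℝ t x u := by
    intro x
    by_cases hx : x ∈ sphere (0 : E2) 1
    · have h0 := neat x hx
      have h1 : ∃ u, fderiv ℝ t x u ≠ 0 := by
        by_contra hcon
        push Not at hcon
        exact h0 (ContinuousLinearMap.ext hcon)
      obtain ⟨u, hu⟩ := h1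
      rcases lt_or_gt_of_ne hu with h | h
      · exact ⟨-u, fun _ => by rw [map_neg]; linarith⟩
      · exact ⟨u, fun _ => h⟩
    · exact ⟨0, fun h => absurd h hx⟩
  choose V hV' using hV
  obtain ⟨η, hη, hneg⟩ := Pool.Agent.Lib_MP_752436_nb.exists_neg_outside (V := V) ht bd pos hV'
  let κ : ContDiffBump (0 : E2) := ⟨1 + η / 3, 1 + 2 * η / 3, by positivity, by linarith⟩
  have hκd : ContDiff ℝ ∞ (κ : E2 → ℝ) := κ.contDiff
  refine ⟨fun x => κ x * t x - (1 - κ x), ?_, ⟨1 + η / 3, by linarith, fun x hx => ?_⟩,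
    fun x hx => ?_, ⟨1 + 2 * η / 3, fun x hx => ?_⟩⟩
  · exact (hκd.mul ht).sub (contDiff_const.sub hκd)
  · have h1 : κ x = 1 := κ.one_of_mem_closedBall (ball_subset_closedBall hx)
    simp only [h1]
    ring
  · by_cases h : ‖x‖ < 1 + 2 * η / 3
    · have h1 : t x < 0 := hneg x hx (by linarith)
      have h2 : 0 ≤ κ x := κ.nonneg
      have h3 : κ x ≤ 1 := κ.le_one
      show κ x * t x - (1 - κ x) < 0
      rcases h2.eq_or_lt with h4 | h4
      · rw [← h4]
        norm_num
      · nlinarith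
    · have h1 : κ x = 0 := κ.zero_of_le_dist (by rw [dist_zero_right]; exact not_lt.1 h)
      simp only [h1]
      norm_num
  · by_contra h
    have h1 : κ x = 0 := κ.zero_of_le_dist (by rw [dist_zero_right]; exact (not_le.1 h).le)
    simp only [h1] at hx
    norm_num at hx

/-- PIECE NORM: the setting of this library for a Morse slice disc without births. -/
theorem exists_stg {G : E2 → EuclideanSpace ℝ (Fin 4)} (hG : MorseDisc G)
    (hb : births G = ∅) :
    ∃ t : E2 → ℝ, Stg (shadow G) t ∧ (∀ x, 0 < t x ↔ x ∈ ball (0 : E2) 1) ∧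
      (∀ x, t x = 0 ↔ x ∈ sphere (0 : E2) 1) := by
  have hS := Pool.Agent.Lib_MP_752436_nb.sdisc_of_sliceDisc hG.slice
  have hM := Pool.Agent.Lib_MP_752436_nb.morseNB_of_births hG hb
  obtain ⟨c, hc, hbil, hbil'⟩ := norm_bilip hG.slice
  set f := shadow G with hf
  set t₀ := height G with ht₀
  obtain ⟨t₁, ht₁, ⟨ρ, hρ, heq⟩, hneg, R, hR⟩ := exists_negative_outside hS.smt hS.bd hS.pos hM.neat
  have hballρ : closedBall (0 : E2) 1 ⊆ ball 0 ρ := closedBall_subset_ball hρ
  have hev : ∀ x ∈ closedBall (0 : E2) 1, t₁ =ᶠ[𝓝 x] t₀ := fun x hx => by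
    filter_upwards [isOpen_ball.mem_nhds (hballρ hx)] with y hy
    exact heq y hy
  have hd₁ : ∀ x ∈ closedBall (0 : E2) 1, fderiv ℝ t₁ x = fderiv ℝ t₀ x := fun x hx =>
    (hev x hx).fderiv_eq
  have hdd₁ : ∀ x ∈ closedBall (0 : E2) 1,
      fderiv ℝ (fderiv ℝ t₁) x = fderiv ℝ (fderiv ℝ t₀) x := fun x hx =>
    (hev x hx).fderiv.fderiv_eq
  have hv₁ : ∀ x ∈ closedBall (0 : E2) 1, t₁ x = t₀ x := fun x hx => heq x (hballρ hx)
  -- the critical points
  set C : Set E2 := {x | x ∈ closedBall (0 : E2) 1 ∧ fderiv ℝ t₀ x = 0} with hC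
  have hCfin : C.Finite := Pool.Agent.Lib_MP_752436_nb.finite_crit hS.smt hM
  have hsplit : ∀ x ∈ closedBall (0 : E2) 1, x ∈ ball (0 : E2) 1 ∨ x ∈ sphere (0 : E2) 1 := by
    intro x hx
    rcases (mem_closedBall.1 hx).lt_or_eq with h | h
    · exact Or.inl (mem_ball.2 h)
    · exact Or.inr (mem_sphere.2 h)
  have hCb : C ⊆ ball 0 1 := by
    intro x hx
    rcases hsplit x hx.1 with h | h
    · exact h
    · exact absurd hx.2 (hM.neat x h)
  obtain ⟨r, hr, hrC, B, hB, hBb, hshift⟩ := norm_exists_shift hCfin hCb t₁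
  -- lower bounds
  have hcont₁ : Continuous (fderiv ℝ t₁) := ht₁.continuous_fderiv (by simp)
  set D' : Set E2 := closedBall (0 : E2) 1 \ ⋃ q ∈ C, ball q r with hD'
  have hD'c : IsCompact D' := (isCompact_closedBall _ _).diff
    (isOpen_biUnion fun q _ => isOpen_ball)
  obtain ⟨m, hm, hmD⟩ : ∃ m > 0, ∀ x ∈ D', m ≤ ‖fderiv ℝ t₁ x‖ := by
    by_cases hne : D'.Nonempty
    · obtain ⟨x₀, hx₀, hmin⟩ := hD'c.exists_isMinOn hne hcont₁.norm.continuousOn
      refine ⟨‖fderiv ℝ t₁ x₀‖, ?_, fun x hx => hmin hx⟩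
      rw [gt_iff_lt, norm_pos_iff, hd₁ x₀ hx₀.1]
      intro h0
      exact hx₀.2 (mem_iUnion₂.2 ⟨x₀, ⟨hx₀.1, h0⟩, mem_ball_self hr⟩)
    · exact ⟨1, one_pos, fun x hx => absurd ⟨x, hx⟩ hne⟩
  obtain ⟨m', hm', hmB⟩ : ∃ m' > 0, ∀ x ∈ B, m' ≤ t₁ x := by
    by_cases hne : B.Nonempty
    · obtain ⟨x₀, hx₀, hmin⟩ := hB.exists_isMinOn hne ht₁.continuous.continuousOn
      refine ⟨t₁ x₀, ?_, fun x hx => hmin hx⟩
      rw [gt_iff_lt, hv₁ x₀ (ball_subset_closedBall (hBb hx₀))]
      exact hS.pos x₀ (hBb hx₀)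
    · exact ⟨1, one_pos, fun x hx => absurd ⟨x, hx⟩ hne⟩
  set κ := min (min (m / 2) (m' / 2)) (c / 2) with hκ
  have hκ0 : 0 < κ := lt_min (lt_min (by positivity) (by positivity)) (by positivity)
  have hκm : κ ≤ m / 2 := (min_le_left _ _).trans (min_le_left _ _)
  have hκm' : κ ≤ m' / 2 := (min_le_left _ _).trans (min_le_right _ _)
  have hκc : κ ≤ c / 2 := min_le_right _ _
  obtain ⟨s, hs, hsB, hsκ, hsd, hsC, hsinj⟩ := hshift κ hκ0
  have hs0 : ∀ x ∉ B, s =ᶠ[𝓝 x] 0 := fun x hx =>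
    notMem_tsupport_iff_eventuallyEq.1 fun h => hx (hsB h)
  set t : E2 → ℝ := fun x => t₁ x + s x with htdef
  have htsm : ContDiff ℝ ∞ t := ht₁.add hs
  have htd : ∀ x, fderiv ℝ t x = fderiv ℝ t₁ x + fderiv ℝ s x := fun x =>
    fderiv_fun_add ((ht₁.differentiable (by simp)) x) ((hs.differentiable (by simp)) x)
  have ht0 : ∀ x ∉ B, t x = t₁ x := fun x hx => by
    simp only [htdef, (hs0 x hx).self_of_nhds, Pi.zero_apply, add_zero]
  have hsphB : ∀ x ∈ sphere (0 : E2) 1, x ∉ B := fun x hx hxB => by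
    have h1 := mem_ball.1 (hBb hxB)
    have h2 := mem_sphere.1 hx
    linarith
  have houtB : ∀ x : E2, 1 < ‖x‖ → x ∉ B := fun x hx hxB => by
    have h1 := mem_ball_zero_iff.1 (hBb hxB)
    linarith
  have hpos : ∀ x ∈ ball (0 : E2) 1, 0 < t x := by
    intro x hx
    by_cases hxB : x ∈ B
    · have h1 := hmB x hxB
      have h2 := (abs_le.1 (hsκ x)).1
      show 0 < t₁ x + s x
      linarith
    · rw [ht0 x hxB, hv₁ x (ball_subset_closedBall hx)]
      exact hS.pos x hx
  have hbd : ∀ x ∈ sphere (0 : E2) 1, t x = 0 := by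
    intro x hx
    rw [ht0 x (hsphB x hx), hv₁ x (sphere_subset_closedBall hx)]
    exact hS.bd x hx
  have hout : ∀ x : E2, 1 < ‖x‖ → t x < 0 := by
    intro x hx
    rw [ht0 x (houtB x hx)]
    exact hneg x hx
  have htri : ∀ x : E2, x ∈ ball (0 : E2) 1 ∨ x ∈ sphere (0 : E2) 1 ∨ 1 < ‖x‖ := by
    intro x
    rcases lt_trichotomy ‖x‖ 1 with h | h | h
    · exact Or.inl (mem_ball_zero_iff.2 h)
    · exact Or.inr (Or.inl (mem_sphere_zero_iff_norm.2 h))
    · exact Or.inr (Or.inr h)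
  have hset : ∀ x, 0 ≤ t x ↔ x ∈ closedBall (0 : E2) 1 := by
    intro x
    rcases htri x with h | h | h
    · exact ⟨fun _ => ball_subset_closedBall h, fun _ => (hpos x h).le⟩
    · exact ⟨fun _ => sphere_subset_closedBall h, fun _ => (hbd x h).ge⟩
    · refine ⟨fun h1 => absurd (hout x h) (not_lt.2 h1), fun h1 => ?_⟩
      have := mem_closedBall_zero_iff.1 h1
      linarith
  have hset0 : ∀ x, t x = 0 ↔ x ∈ sphere (0 : E2) 1 := by
    intro x
    rcases htri x with h | h | h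
    · refine ⟨fun h1 => absurd h1 (hpos x h).ne', fun h1 => ?_⟩
      have h2 := mem_sphere.1 h1
      have h3 := mem_ball.1 h
      linarith
    · exact ⟨fun _ => h, fun _ => hbd x h⟩
    · refine ⟨fun h1 => absurd h1 (hout x h).ne, fun h1 => ?_⟩
      have := mem_sphere_zero_iff_norm.1 h1
      linarith
  have hlip : ∀ x y, |s x - s y| ≤ κ * ‖x - y‖ := by
    intro x y
    have := Convex.norm_image_sub_le_of_norm_fderiv_le (f := s) (𝕜 := ℝ) (s := univ)
      (C := κ) (x := y) (y := x) (fun z _ => (hs.differentiable (by simp)) z) (fun z _ => hsd z)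
      convex_univ (mem_univ _) (mem_univ _)
    rwa [Real.norm_eq_abs] at this
  -- critical points of `t`
  have hcrit : ∀ x, 0 < t x → fderiv ℝ t x = 0 → x ∈ C := by
    intro x hx h0
    have hxD : x ∈ closedBall (0 : E2) 1 := (hset x).1 hx.le
    rw [htd] at h0
    by_cases hxU : x ∈ ⋃ q ∈ C, ball q r
    · obtain ⟨q, hq, hxq⟩ := mem_iUnion₂.1 hxU
      have h1 : fderiv ℝ s x = 0 := by
        have h2 : s =ᶠ[𝓝 x] fun _ => s q := by
          filter_upwards [isOpen_ball.mem_nhds hxq] with y hy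
          exact hsC q hq y hy
        rw [h2.fderiv_eq]
        simp
      rw [h1, add_zero, hd₁ x hxD] at h0
      exact ⟨hxD, h0⟩
    · exfalso
      have h1 := hmD x ⟨hxD, hxU⟩
      have h2 := hsd x
      have h3 : fderiv ℝ t₁ x = -(fderiv ℝ s x) := eq_neg_of_add_eq_zero_left h0
      rw [h3, norm_neg] at h1
      linarith
  refine ⟨t, ⟨hS.smf, htsm, ⟨-1 / 2, by norm_num, ?_⟩, ?_, ?_, ?_, ?_, ?_⟩, ?_, ?_⟩
  · refine (isCompact_closedBall (0 : E2) (max R 1)).of_isClosed_subset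
      (isClosed_le continuous_const htsm.continuous) ?_
    intro x hx
    rw [mem_closedBall_zero_iff]
    have hx' : -1 / 2 ≤ t x := hx
    by_cases h1 : 1 < ‖x‖
    · rw [ht0 x (houtB x h1)] at hx'
      exact (hR x (by linarith)).trans (le_max_left _ _)
    · exact (not_lt.1 h1).trans (le_max_right _ _)
  · intro x y hx hy hfxy htxy
    have hxD := (hset x).1 hx
    have hyD := (hset y).1 hy
    have h1 := hbil x hxD y hyD hfxy
    have h2 : t₁ x - t₁ y = -(s x - s y) := by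
      have : t₁ x + s x = t₁ y + s y := htxy
      linarith
    rw [hv₁ x hxD, hv₁ y hyD] at h2
    rw [h2, abs_neg] at h1
    have h3 := h1.trans (hlip x y)
    have h4 : κ * ‖x - y‖ ≤ c / 2 * ‖x - y‖ := by gcongr
    have h5 : ‖x - y‖ = 0 := by
      have := norm_nonneg (x - y)
      nlinarith
    exact sub_eq_zero.1 (norm_eq_zero.1 h5)
  · intro x hx u hu hu'
    have hxD := (hset x).1 hx
    have h1 := hbil' x hxD u hu
    rw [htd, add_apply, hd₁ x hxD] at hu'
    have h2 : fderiv ℝ t₀ x u = -(fderiv ℝ s x u) := by linarith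
    rw [h2, abs_neg] at h1
    have h3 : |fderiv ℝ s x u| ≤ κ * ‖u‖ := by
      have := (fderiv ℝ s x).le_opNorm u
      rw [Real.norm_eq_abs] at this
      exact this.trans (mul_le_mul_of_nonneg_right (hsd x) (norm_nonneg u))
    have h4 : κ * ‖u‖ ≤ c / 2 * ‖u‖ := by gcongr
    have h5 : ‖u‖ = 0 := by
      have := norm_nonneg u
      nlinarith
    exact norm_eq_zero.1 h5
  · intro x hx
    have hxs := (hset0 x).1 hx
    have h1 : fderiv ℝ s x = 0 := by
      rw [(hs0 x (hsphB x hxs)).fderiv_eq]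
      simp
    rw [htd, h1, add_zero, hd₁ x (sphere_subset_closedBall hxs)]
    exact hM.neat x hxs
  · intro x hx h0
    have hxC := hcrit x hx h0
    have hxb := hCb hxC
    have h1 : ∀ z ∈ ball x r, fderiv ℝ t z = fderiv ℝ t₁ z := by
      intro z hz
      have h2 : s =ᶠ[𝓝 z] fun _ => s x := by
        filter_upwards [isOpen_ball.mem_nhds hz] with y hy
        exact hsC x hxC y hy
      rw [htd, h2.fderiv_eq]
      simp
    have h2 : MaxAt t₁ x ∨ SaddleAt t₁ x := by
      refine crittype ht₁ (by rw [hd₁ x hxC.1]; exact hxC.2) ?_ ?_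
      · rw [hdd₁ x hxC.1]
        exact hM.morse x hxb hxC.2
      · rw [hdd₁ x hxC.1]
        exact hM.noMin x hxb hxC.2
    rcases h2 with h2 | h2
    · exact Or.inl (h2.congr hr h1)
    · exact Or.inr (h2.congr hr h1)
  · intro x y hx hy hx0 hy0 hxy
    exact hsinj (hcrit x hx hx0) (hcrit y hy hy0) hxy
  · intro x
    refine ⟨fun h => ?_, hpos x⟩
    rcases htri x with h1 | h1 | h1
    · exact h1
    · exact absurd (hbd x h1) h.ne'
    · exact absurd (hout x h1) (not_lt.2 h.le)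
  · exact hset0

end Pool.Agent.Lib_MP_752436_rc
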