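import Pool.Agent.Lib_MP_752436_rc.Saddle

/-!
Passing a saddle `q` of the height.
-/

open MeasureTheory Metric Set
open scoped ContDiff Topology

namespace Pool.Agent.Lib_MP_752436_rc

open Pool.Agent.Lib_MP_752436_gt Pool.Agent.Lib_MP_752436_rb

theorem good_of_saddle {f : E2 → E3} {t : E2 → ℝ} (S : Stg f t) {q : E2} (hq : 0 < t q)
    (hq' : fderiv ℝ t q = 0) (hsad : SaddleAt t q) :
    ∃ δ > 0, ∀ b ∈ Ioo (t q) (t q + δ), ∀ a ∈ Ioo (t q - δ) (t q), Good f t b → Good f t a := by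
  obtain ⟨δ, hδ, h⟩ := good_of_saddle' S hq hq' hsad
  exact ⟨δ, hδ, fun b hb a ha hg => h a b ha.1 ha.2 hb.1 hb.2 hg⟩

end Pool.Agent.Lib_MP_752436_rc
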