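import Pool.Agent.Lib_MP_752436_rc.MaxStep
import Pool.Agent.Lib_MP_752436_rc.SaddleStep
import Pool.Agent.Lib_MP_752436_rc.Norm

/-!
The boundary knot of a Morse slice disc without interior local minima is a ribbon knot.
-/

open MeasureTheory Metric Set
open scoped ContDiff Topology

namespace Pool.Agent.Lib_MP_752436_rc

open Pool.Agent.Lib_MP_752436_gt Pool.Agent.Lib_MP_752436_rb

theorem good_of_crit {f : E2 → E3} {t : E2 → ℝ} (S : Stg f t) {q : E2} (hq : 0 < t q)
    (hq' : fderiv ℝ t q = 0) :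
    ∃ δ > 0, ∀ b ∈ Ioo (t q) (t q + δ), ∀ a ∈ Ioo (t q - δ) (t q), Good f t b → Good f t a := by
  rcases S.crit q hq hq' with h | h
  · exact good_of_max S hq hq' h
  · exact good_of_saddle S hq hq' h

/-- Regular levels for the height itself. -/
theorem good_of_slab {f : E2 → E3} {t : E2 → ℝ} (S : Stg f t) {a b : ℝ} (ha : 0 ≤ a)
    (hab : a ≤ b) (hreg : ∀ x, a ≤ t x → t x ≤ b → fderiv ℝ t x ≠ 0) (h : Good f t b) :
    Good f t a := by
  obtain ⟨c, hc, hK⟩ := S.compact
  refine good_of_regular S.smoothf S.smootht hab (hc.trans_le ha) hK hreg ?_ ?_ h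
  · intro x y hx1 _ hxy hf
    exact S.inj x y (ha.trans hx1) (ha.trans (hxy ▸ hx1)) hf hxy
  · intro x hx1 _
    exact S.imm x (ha.trans hx1)

/-- Near a level without critical points there are no critical points. -/
theorem exists_regular_nhd {t : E2 → ℝ} (ht : ContDiff ℝ ∞ t) {c c₀ : ℝ} (hc : c₀ < c)
    (hK : IsCompact {x | c₀ ≤ t x}) (hreg : ∀ x, t x = c → fderiv ℝ t x ≠ 0) :
    ∃ δ > 0, ∀ x, |t x - c| < δ → fderiv ℝ t x ≠ 0 := by
  have hA : IsCompact {x | c₀ ≤ t x ∧ fderiv ℝ t x = 0} :=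
    hK.inter_right (isClosed_eq (ht.continuous_fderiv (by simp)) continuous_const)
  have hB : IsCompact (t '' {x | c₀ ≤ t x ∧ fderiv ℝ t x = 0}) := hA.image ht.continuous
  have hc' : c ∉ t '' {x | c₀ ≤ t x ∧ fderiv ℝ t x = 0} := by
    rintro ⟨x, ⟨-, hx⟩, hxc⟩
    exact hreg x hxc hx
  obtain ⟨δ, hδ, hδs⟩ := Metric.isOpen_iff.1 hB.isClosed.isOpen_compl c hc'
  refine ⟨min δ (c - c₀), lt_min hδ (by linarith), fun x hx h0 => ?_⟩
  have h1 := abs_lt.1 (hx.trans_le (min_le_right _ _))
  refine hδs (?_ : t x ∈ ball c δ) ⟨x, ⟨by linarith, h0⟩, rfl⟩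
  rw [mem_ball, Real.dist_eq]
  exact hx.trans_le (min_le_left _ _)

theorem good_zero {f : E2 → E3} {t : E2 → ℝ} (S : Stg f t) : Good f t 0 := by
  obtain ⟨c₀, hc₀, hK⟩ := S.compact
  have htc := S.smootht.continuous
  -- a bound
  obtain ⟨T, hT0, hT⟩ : ∃ T : ℝ, 0 ≤ T ∧ ∀ x, t x < T := by
    obtain ⟨B, hB⟩ := (hK.image htc).bddAbove
    refine ⟨max B 0 + 1, by positivity, fun x => ?_⟩
    have h1 := le_max_left B 0
    have h2 := le_max_right B 0
    by_cases hx : c₀ ≤ t x
    · have := hB ⟨x, hx, rfl⟩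
      linarith
    · push Not at hx
      linarith
  have key : ∀ c' ∈ Icc (0 : ℝ) T, (∀ x, t x = c' → fderiv ℝ t x ≠ 0) → Good f t c' := by
    refine chain_down (P := fun c => ∀ c' ∈ Icc c T, (∀ x, t x = c' → fderiv ℝ t x ≠ 0) →
      Good f t c') hT0 ?_ ?_
    · intro c hc
      by_cases hcr : ∀ x, t x = c → fderiv ℝ t x ≠ 0
      · obtain ⟨δ, hδ, hreg⟩ := exists_regular_nhd S.smootht (c := c) (c₀ := c₀)
          (by linarith [hc.1]) hK hcr
        refine ⟨δ, hδ, fun c₁ hc₁ c₂ hc₂ h1 h2 h12 hP c' hc' hr => ?_⟩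
        rcases le_total c₂ c' with h | h
        · exact hP c' ⟨h, hc'.2⟩ hr
        have h1' := abs_lt.1 h1
        have h2' := abs_lt.1 h2
        refine good_of_slab S (hc₁.1.trans hc'.1) h ?_ (hP c₂ ⟨le_rfl, hc₂.2⟩ fun x hx => ?_)
        · intro x hx1 hx2
          refine hreg x ?_
          rw [abs_lt]
          constructor <;> linarith [hc'.1]
        · refine hreg x ?_
          rw [hx]
          exact h2
      · push Not at hcr
        obtain ⟨q, hqc, hq'⟩ := hcr
        have hq0 : 0 < t q := by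
          rcases hc.1.eq_or_lt with h | h
          · exact absurd hq' (S.reg q (by rw [hqc, ← h]))
          · rw [hqc]
            exact h
        obtain ⟨δ₁, hδ₁, hcrit⟩ := good_of_crit S hq0 hq'
        obtain ⟨δ₂, hδ₂, -, hslab⟩ := exists_slab S hq0 hq'
        rw [hqc] at hcrit hslab
        have hcT : c < T := by
          rw [← hqc]
          exact hT q
        refine ⟨min δ₁ δ₂, lt_min hδ₁ hδ₂, fun c₁ hc₁ c₂ hc₂ h1 h2 h12 hP c' hc' hr => ?_⟩
        have hmin1 := min_le_left δ₁ δ₂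
        have hmin2 := min_le_right δ₁ δ₂
        have h1' := abs_lt.1 h1
        have h2' := abs_lt.1 h2
        -- levels near `c` other than `c` are regular
        have hnear : ∀ d, |d - c| < min δ₁ δ₂ → d ≠ c → ∀ x, t x = d → fderiv ℝ t x ≠ 0 := by
          intro d hd hdc x hx
          refine hslab x ?_ ?_
          · rw [hx]
            exact (hd.trans_le hmin2).le
          · rintro rfl
            exact hdc (hx.symm.trans hqc)
        have hcc' : c' ≠ c := by
          rintro rfl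
          exact hr q hqc hq'
        rcases le_total c₂ c' with h | h
        · exact hP c' ⟨h, hc'.2⟩ hr
        have hc'1 := hc'.1
        -- slabs which do not contain the level `c`
        have hsl : ∀ d, c' ≤ d → |d - c| < min δ₁ δ₂ → (c < c' ∨ d < c) → Good f t d →
            Good f t c' := by
          intro d hcd hd hside hg
          refine good_of_slab S (hc₁.1.trans hc'.1) hcd ?_ hg
          intro x hx1 hx2
          have hd' := abs_lt.1 hd
          refine hnear (t x) ?_ ?_ x rfl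
          · rw [abs_lt]
            constructor <;> linarith
          · rintro h0
            rcases hside with h3 | h3 <;> linarith
        rcases lt_or_gt_of_ne hcc' with h3 | h3
        · -- `c' < c`
          rcases lt_or_ge c₂ c with h4 | h4
          · refine hsl c₂ h h2 (Or.inr h4) (hP c₂ ⟨le_rfl, hc₂.2⟩ (hnear c₂ h2 h4.ne))
          · obtain ⟨b, hbc, hb2, hbT, hbδ⟩ : ∃ b, c < b ∧ c₂ ≤ b ∧ b ≤ T ∧ b < c + min δ₁ δ₂ := by
              rcases h4.eq_or_lt with h5 | h5
              · obtain ⟨b, hb1, hb2⟩ := exists_between (show c < min T (c + min δ₁ δ₂) from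
                  lt_min hcT (by linarith [lt_min hδ₁ hδ₂]))
                exact ⟨b, hb1, by rw [← h5]; exact hb1.le, (hb2.trans_le (min_le_left _ _)).le,
                  hb2.trans_le (min_le_right _ _)⟩
              · exact ⟨c₂, h5, le_rfl, hc₂.2, by linarith⟩
            have hgb : Good f t b := hP b ⟨hb2, hbT⟩ (hnear b (by
              rw [abs_lt]
              constructor <;> linarith) hbc.ne')
            exact hcrit b ⟨hbc, by linarith⟩ c' ⟨by linarith, h3⟩ hgb
        · -- `c < c'`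
          exact hsl c₂ h h2 (Or.inl h3) (hP c₂ ⟨le_rfl, hc₂.2⟩ (hnear c₂ h2 (by linarith)))
    · intro c' hc' _
      have : c' = T := le_antisymm hc'.2 hc'.1
      rw [this]
      exact good_of_empty S.smoothf hT
  exact key 0 ⟨le_rfl, hT0⟩ S.reg

theorem ribbon_of_good {f : E2 → E3} {t : E2 → ℝ} (hball : ∀ x, 0 < t x ↔ x ∈ ball (0 : E2) 1)
    (hsphere : ∀ x, t x = 0 ↔ x ∈ sphere (0 : E2) 1) (h : Good f t 0) :
    IsRibbonKnot (f '' sphere 0 1) := by
  obtain ⟨ι, hι, α, β, g, hg, hgf⟩ := h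
  obtain ⟨n, ⟨en⟩⟩ := Finite.exists_equiv_fin ι
  have hcl : ∀ x ∈ closedBall (0 : E2) 1, 0 ≤ t x := by
    intro x hx
    rcases (mem_closedBall_zero_iff.1 hx).lt_or_eq with h | h
    · exact ((hball x).2 (mem_ball_zero_iff.2 h)).le
    · exact ((hsphere x).2 (mem_sphere_zero_iff_norm.2 h)).ge
  refine ⟨g, ⟨hg.smooth, fun x hx => hg.immersion x (hcl x hx), n, fun i => α (en.symm i),
    fun i => β (en.symm i), ?_, ?_, ?_⟩, ?_⟩
  · intro i
    have h := hg.pair (en.symm i)
    exact ⟨h.arcα, h.arcβ, fun s hs => (hball _).1 (h.inside s hs),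
      fun s hs => (hball _).1 (h.proper s hs), (hsphere _).1 h.left, (hsphere _).1 h.right,
      h.disjoint, h.same⟩
  · intro i j hij
    exact hg.disj _ _ fun h => hij (en.symm.injective h)
  · intro x hx y hy hxy hgxy
    obtain ⟨i, s, hs, h⟩ := hg.double x y (hcl x hx) (hcl y hy) hxy hgxy
    exact ⟨en i, s, hs, by simpa using h⟩
  · exact image_congr fun x hx => hgf x ((hsphere x).2 hx)

theorem isRibbonKnot_of_noBirths {G : E2 → EuclideanSpace ℝ (Fin 4)} (hG : MorseDisc G)
    (hb : births G = ∅) : IsRibbonKnot (boundaryKnot G) := by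
  obtain ⟨t, S, h1, h2⟩ := exists_stg hG hb
  exact ribbon_of_good h1 h2 (good_zero S)

end Pool.Agent.Lib_MP_752436_rc
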