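import Pool.Agent.Lib_MP_752436_rc.Defs

/-!
PIECE BASIC: changes of coordinates in the source and in the target.
-/

open MeasureTheory Metric Set
open scoped ContDiff Topology

namespace Pool.Agent.Lib_MP_752436_rc

open Pool.Agent.Lib_MP_752436_gt Pool.Agent.Lib_MP_752436_rb

section
variable {E : Type*} [NormedAddCommGroup E] [NormedSpace ℝ E]

theorem DiffeoPair.symm {Φ Φ' : E → E} (h : DiffeoPair Φ Φ') : DiffeoPair Φ' Φ :=
  ⟨h.smooth', h.smooth, h.right, h.left⟩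

theorem DiffeoPair.comp {Φ Φ' Θ Θ' : E → E} (h : DiffeoPair Φ Φ') (k : DiffeoPair Θ Θ') :
    DiffeoPair (fun x => Θ (Φ x)) (fun x => Φ' (Θ' x)) :=
  ⟨k.smooth.comp h.smooth, h.smooth'.comp k.smooth', fun x => by simp only [k.left, h.left],
    fun x => by simp only [h.right, k.right]⟩

theorem DiffeoPair.fderiv_fderiv {Φ Φ' : E → E} (h : DiffeoPair Φ Φ') (x u : E) :
    fderiv ℝ Φ' (Φ x) (fderiv ℝ Φ x u) = u := by
  have h1 : HasFDerivAt Φ (fderiv ℝ Φ x) x :=
    ((h.smooth.differentiable (by simp)) x).hasFDerivAt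
  have h2 : HasFDerivAt Φ' (fderiv ℝ Φ' (Φ x)) (Φ x) :=
    ((h.smooth'.differentiable (by simp)) (Φ x)).hasFDerivAt
  have h3 := h2.comp x h1
  have h4 : Φ' ∘ Φ = id := by
    funext y
    exact h.left y
  rw [h4] at h3
  have h5 := h3.unique (hasFDerivAt_id x)
  have h6 := congrArg (fun L : E →L[ℝ] E => L u) h5
  simpa using h6

theorem DiffeoPair.injective_fderiv {Φ Φ' : E → E} (h : DiffeoPair Φ Φ') (x : E) :
    Function.Injective (fderiv ℝ Φ x) := by
  intro u w huw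
  rw [← h.fderiv_fderiv x u, ← h.fderiv_fderiv x w, huw]

theorem DiffeoPair.bijective_fderiv {Φ Φ' : E → E} (h : DiffeoPair Φ Φ') (x : E) :
    Function.Bijective (fderiv ℝ Φ x) := by
  refine ⟨h.injective_fderiv x, fun u => ?_⟩
  have h1 := h.symm.fderiv_fderiv (Φ x) u
  rw [h.left] at h1
  exact ⟨_, h1⟩

/-- The end of an isotopy is a diffeomorphism. -/
theorem exists_diffeoPair_of_isotopy {W : Set E} {Ψ : ℝ → E → E} (h : IsIsotopy W Ψ) {s : ℝ}
    (hs : s ∈ Icc (0 : ℝ) 1) : ∃ Φ : E → E, DiffeoPair (Ψ s) Φ := by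
  obtain ⟨Φ, h1, h2, h3⟩ := h.inverse s hs
  refine ⟨Φ, ?_, h1, h2, h3⟩
  exact h.smooth.comp (contDiff_const.prodMk contDiff_id : ContDiff ℝ ∞ fun x : E => (s, x))

end

/-- Composition with a diffeomorphism of the target. -/
theorem RPair.comp_left {g : E2 → E3} {e : E2 → ℝ} {c : ℝ} {α β : ℝ → E2}
    (h : RPair g e c α β) (Φ : E3 → E3) : RPair (fun x => Φ (g x)) e c α β :=
  ⟨h.arcα, h.arcβ, h.inside, h.proper, h.left, h.right, h.disjoint, fun s hs => by
    rw [h.same s hs]⟩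

/-- Composition with a diffeomorphism of the target. -/
theorem RData.comp_left {g : E2 → E3} {e : E2 → ℝ} {c : ℝ} {ι : Type} {α β : ι → ℝ → E2}
    (h : RData g e c α β) {Φ Φ' : E3 → E3} (hΦ : DiffeoPair Φ Φ') :
    RData (fun x => Φ (g x)) e c α β := by
  have hinj : Function.Injective Φ := fun x y hxy => by
    rw [← hΦ.left x, ← hΦ.left y, hxy]
  refine ⟨hΦ.smooth.comp h.smooth, ?_, fun i => (h.pair i).comp_left Φ, ?_, ?_⟩
  · intro x hx
    have h1 : HasFDerivAt (fun x => Φ (g x)) ((fderiv ℝ Φ (g x)).comp (fderiv ℝ g x)) x :=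
      ((hΦ.smooth.differentiable (by simp)) (g x)).hasFDerivAt.comp x
        ((h.smooth.differentiable (by simp)) x).hasFDerivAt
    rw [h1.fderiv]
    exact (hΦ.injective_fderiv (g x)).comp (h.immersion x hx)
  · intro i j hij
    rw [Set.disjoint_left]
    rintro _ ⟨s, hs, rfl⟩ ⟨s', hs', h1⟩
    exact Set.disjoint_left.1 (h.disj i j hij) ⟨s, hs, rfl⟩ ⟨s', hs', hinj h1⟩
  · intro x y hx hy hxy hg
    exact h.double x y hx hy hxy (hinj hg)

/-- A diffeomorphism maps arcs to arcs. -/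
theorem isArc_comp {ψ φ : E2 → E2} (hψ : DiffeoPair ψ φ) {α : ℝ → E2} (h : IsArc α) :
    IsArc (fun s => ψ (α s)) := by
  refine ⟨hψ.smooth.comp h.smooth, ?_, ?_⟩
  · intro s hs h0
    have h1 : HasDerivAt α (deriv α s) s := ((h.smooth.differentiable (by simp)) s).hasDerivAt
    have h2 : HasDerivAt (fun s => ψ (α s)) (fderiv ℝ ψ (α s) (deriv α s)) s :=
      ((hψ.smooth.differentiable (by simp)) (α s)).hasFDerivAt.comp_hasDerivAt s h1
    rw [h2.deriv] at h0
    apply h.regular s hs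
    apply hψ.injective_fderiv (α s)
    rw [h0, map_zero]
  · intro s hs s' hs' hss
    apply h.inj hs hs'
    have h1 := congrArg φ hss
    simpa only [hψ.left] using h1

/-- Composition with a diffeomorphism of the source which maps `{c ≤ e}` to `{c' ≤ e'}`. -/
theorem RPair.comp_right {g : E2 → E3} {e e' : E2 → ℝ} {c c' : ℝ} {α β : ℝ → E2}
    (h : RPair g e c α β) {ψ φ : E2 → E2} (hψ : DiffeoPair ψ φ)
    (hlt : ∀ x, c' < e' (ψ x) ↔ c < e x) (heq : ∀ x, e' (ψ x) = c' ↔ e x = c) :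
    RPair (fun x => g (φ x)) e' c' (fun s => ψ (α s)) (fun s => ψ (β s)) := by
  refine ⟨isArc_comp hψ h.arcα, isArc_comp hψ h.arcβ, fun s hs => (hlt _).2 (h.inside s hs),
    fun s hs => (hlt _).2 (h.proper s hs), (heq _).2 h.left, (heq _).2 h.right, ?_, ?_⟩
  · rw [Set.disjoint_left]
    rintro _ ⟨s, hs, rfl⟩ ⟨s', hs', h1⟩
    have h2 : β s' = α s := by
      have h3 := congrArg φ h1
      simpa only [hψ.left] using h3
    exact Set.disjoint_left.1 h.disjoint ⟨s, hs, rfl⟩ ⟨s', hs', h2⟩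
  · intro s hs
    simp only [hψ.left]
    exact h.same s hs

/-- Composition with a diffeomorphism of the source which maps `{c ≤ e}` to `{c' ≤ e'}`. -/
theorem RData.comp_right {g : E2 → E3} {e e' : E2 → ℝ} {c c' : ℝ} {ι : Type}
    {α β : ι → ℝ → E2} (h : RData g e c α β) {ψ φ : E2 → E2} (hψ : DiffeoPair ψ φ)
    (hlt : ∀ x, c' < e' (ψ x) ↔ c < e x) (heq : ∀ x, e' (ψ x) = c' ↔ e x = c) :
    RData (fun x => g (φ x)) e' c' (fun i s => ψ (α i s)) (fun i s => ψ (β i s)) := by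
  have hle : ∀ x, c' ≤ e' x → c ≤ e (φ x) := by
    intro x hx
    rcases hx.lt_or_eq with h1 | h1
    · exact ((hlt (φ x)).1 (by rwa [hψ.right])).le
    · exact ((heq (φ x)).1 (by rw [hψ.right]; exact h1.symm)).ge
  refine ⟨h.smooth.comp hψ.smooth', ?_, fun i => (h.pair i).comp_right hψ hlt heq, ?_, ?_⟩
  · intro x hx
    have h1 : HasFDerivAt (fun x => g (φ x)) ((fderiv ℝ g (φ x)).comp (fderiv ℝ φ x)) x :=
      ((h.smooth.differentiable (by simp)) (φ x)).hasFDerivAt.comp x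
        ((hψ.smooth'.differentiable (by simp)) x).hasFDerivAt
    rw [h1.fderiv]
    exact (h.immersion _ (hle x hx)).comp (hψ.symm.injective_fderiv x)
  · intro i j hij
    rw [Set.disjoint_left]
    rintro _ ⟨s, hs, rfl⟩ ⟨s', hs', h1⟩
    simp only [Function.comp_apply, hψ.left] at h1
    exact Set.disjoint_left.1 (h.disj i j hij)
      ⟨s, hs, by simp only [Function.comp_apply]⟩ ⟨s', hs', h1⟩
  · intro x y hx hy hxy hg
    obtain ⟨i, s, hs, h1⟩ := h.double (φ x) (φ y) (hle x hx) (hle y hy)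
      (fun h2 => hxy (by rw [← hψ.right x, ← hψ.right y, h2])) hg
    refine ⟨i, s, hs, ?_⟩
    rcases h1 with ⟨h1, h2⟩ | ⟨h1, h2⟩
    · left
      rw [← h1, ← h2, hψ.right, hψ.right]
      exact ⟨rfl, rfl⟩
    · right
      rw [← h1, ← h2, hψ.right, hψ.right]
      exact ⟨rfl, rfl⟩

theorem diffeoPair_id {E : Type*} [NormedAddCommGroup E] [NormedSpace ℝ E] :
    DiffeoPair (fun x : E => x) (fun x => x) :=
  ⟨contDiff_id, contDiff_id, fun _ => rfl, fun _ => rfl⟩

theorem RData.congr_region {g : E2 → E3} {e e' : E2 → ℝ} {c c' : ℝ} {ι : Type}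
    {α β : ι → ℝ → E2} (h : RData g e c α β)
    (hlt : ∀ x, c' < e' x ↔ c < e x) (heq : ∀ x, e' x = c' ↔ e x = c) :
    RData g e' c' α β :=
  h.comp_right diffeoPair_id hlt heq

/-- The property `Good` depends only on the sets `{c < e}`, `{e = c}`. -/
theorem Good.congr {f : E2 → E3} {e e' : E2 → ℝ} {c c' : ℝ} (h : Good f e c)
    (hlt : ∀ x, c' < e' x ↔ c < e x) (heq : ∀ x, e' x = c' ↔ e x = c) : Good f e' c' := by
  obtain ⟨ι, hι, α, β, g, h1, h2⟩ := h
  exact ⟨ι, hι, α, β, g, h1.congr_region hlt heq, fun x hx => h2 x ((heq x).1 hx)⟩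

/-- Above the maximum there is nothing to do. -/
theorem good_of_empty {f : E2 → E3} (hf : ContDiff ℝ ∞ f) {e : E2 → ℝ} {c : ℝ}
    (h : ∀ x, e x < c) : Good f e c := by
  refine ⟨Empty, inferInstance, fun i => i.elim, fun i => i.elim, f, ⟨hf, ?_, ?_, ?_, ?_⟩,
    fun _ _ => rfl⟩
  · intro x hx
    exact absurd (h x) (not_lt.2 hx)
  · intro i
    exact i.elim
  · intro i
    exact i.elim
  · intro x y hx
    exact absurd (h x) (not_lt.2 hx)

end Pool.Agent.Lib_MP_752436_rc
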