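import Pool.Agent.Lib_MP_752436_rc.IsoLevel
import Pool.Agent.Lib_MP_752436_rc.Basic

/-!
PIECE CHAIN: real induction downwards, and the step through regular levels.
-/

open MeasureTheory Metric Set
open scoped ContDiff Topology

namespace Pool.Agent.Lib_MP_752436_rc

open Pool.Agent.Lib_MP_752436_gt Pool.Agent.Lib_MP_752436_rb

/-- Real induction downwards. -/
theorem chain_down {P : ℝ → Prop} {a b : ℝ} (hab : a ≤ b)
    (h : ∀ c ∈ Icc a b, ∃ δ > 0, ∀ c₁ ∈ Icc a b, ∀ c₂ ∈ Icc a b, |c₁ - c| < δ → |c₂ - c| < δ →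
      c₁ ≤ c₂ → P c₂ → P c₁) (hb : P b) : P a := by
  set S : Set ℝ := {c | c ∈ Icc a b ∧ P c} with hS
  have hSne : S.Nonempty := ⟨b, ⟨hab, le_rfl⟩, hb⟩
  have hSb : BddBelow S := ⟨a, fun c hc => hc.1.1⟩
  set c := sInf S with hc
  have hac : a ≤ c := le_csInf hSne fun x hx => hx.1.1
  have hcb : c ≤ b := csInf_le hSb ⟨⟨hab, le_rfl⟩, hb⟩
  obtain ⟨δ, hδ, hstep⟩ := h c ⟨hac, hcb⟩
  obtain ⟨c₂, hc₂, hlt⟩ := exists_lt_of_csInf_lt hSne (show sInf S < c + δ by linarith)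
  have hcc₂ : c ≤ c₂ := csInf_le hSb hc₂
  have h1 : max a (c - δ / 2) ≤ c := max_le hac (by linarith)
  have hP : P (max a (c - δ / 2)) := by
    refine hstep _ ⟨le_max_left _ _, h1.trans hcb⟩ c₂ hc₂.1 ?_ ?_ (h1.trans hcc₂) hc₂.2
    · have h2 : c - δ / 2 ≤ max a (c - δ / 2) := le_max_right _ _
      rw [abs_lt]
      constructor <;> linarith
    · rw [abs_lt]
      constructor <;> linarith
  have h3 : c ≤ max a (c - δ / 2) := csInf_le hSb ⟨⟨le_max_left _ _, h1.trans hcb⟩, hP⟩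
  rcases le_total a (c - δ / 2) with h4 | h4
  · rw [max_eq_right h4] at h3
    linarith
  · rwa [max_eq_left h4] at hP

/-- The gradient of a function on the plane. -/
theorem exists_gradient {e : E2 → ℝ} (he : ContDiff ℝ ∞ e) :
    ∃ V : E2 → E2, ContDiff ℝ ∞ V ∧ ∀ z, fderiv ℝ e z ≠ 0 → 0 < fderiv ℝ e z (V z) := by
  have hd : ∀ v : E2, ContDiff ℝ ∞ (fun z => fderiv ℝ e z v) := fun v =>
    (he.fderiv_right (m := ∞) le_rfl).clm_apply contDiff_const
  refine ⟨fun z => ∑ i : Fin 2, fderiv ℝ e z (EuclideanSpace.single i 1) •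
    EuclideanSpace.single i (1 : ℝ), ?_, fun z hz => ?_⟩
  · exact ContDiff.sum fun i _ => (hd _).smul contDiff_const
  · rw [map_sum]
    have h1 : ∀ i : Fin 2, fderiv ℝ e z (fderiv ℝ e z (EuclideanSpace.single i (1 : ℝ)) •
        EuclideanSpace.single i (1 : ℝ)) = fderiv ℝ e z (EuclideanSpace.single i (1 : ℝ)) ^ 2 := by
      intro i
      rw [map_smul, smul_eq_mul]
      ring
    rw [Finset.sum_congr rfl fun i _ => h1 i]
    refine lt_of_le_of_ne (Finset.sum_nonneg fun i _ => sq_nonneg _) fun h0 => hz ?_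
    have h2 := (Finset.sum_eq_zero_iff_of_nonneg fun i _ => sq_nonneg _).1 h0.symm
    ext v
    have hv : v = ∑ i : Fin 2, v i • EuclideanSpace.single i (1 : ℝ) := by
      ext j
      fin_cases j <;> simp [Fin.sum_univ_two]
    rw [hv, map_sum]
    simp only [map_smul, _root_.zero_apply]
    refine Finset.sum_eq_zero fun i _ => ?_
    have := h2 i (Finset.mem_univ i)
    rw [sq_eq_zero_iff] at this
    rw [this, smul_zero]

/-- The step through regular levels. -/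
theorem good_of_regular {f : E2 → E3} {e : E2 → ℝ} (hf : ContDiff ℝ ∞ f) (he : ContDiff ℝ ∞ e)
    {a b a' : ℝ} (hab : a ≤ b) (ha : a' < a) (hK : IsCompact {x | a' ≤ e x})
    (hreg : ∀ x, a ≤ e x → e x ≤ b → fderiv ℝ e x ≠ 0)
    (hinj : ∀ x y, a ≤ e x → e x ≤ b → e x = e y → f x = f y → x = y)
    (himm : ∀ x, a ≤ e x → e x ≤ b → ∀ u, fderiv ℝ f x u = 0 → fderiv ℝ e x u = 0 → u = 0)
    (h : Good f e b) : Good f e a := by
  have hK' : IsCompact {x | a ≤ e x} := by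
    refine hK.of_isClosed_subset (isClosed_le continuous_const he.continuous) fun x hx => ?_
    exact ha.le.trans hx
  obtain ⟨V, hV, hV1⟩ := exists_gradient he
  obtain ⟨ψ, ψ', Φ, hψ, hψ', hl, hr, hi1, hi2, hΦ, hΦ1⟩ := iso_level hf he hV hab hK'
    (fun z h1 h2 => hV1 z (hreg z h1 h2))
    (fun z w h1 h2 h3 h4 => (hinj z w h1 h2 h3.symm h4.symm).symm)
    himm
  obtain ⟨Φ', hΦ'⟩ := exists_diffeoPair_of_isotopy hΦ (s := 1) ⟨zero_le_one, le_rfl⟩
  obtain ⟨ι, hι, α, β, g, hg, hgf⟩ := h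
  have hψψ : DiffeoPair ψ ψ' := ⟨hψ, hψ', hl, hr⟩
  have hle : ∀ x, a ≤ e (ψ x) ↔ b ≤ e x := by
    intro x
    have : ψ x ∈ {z | a ≤ e z} ↔ x ∈ {z | b ≤ e z} := by
      rw [← hi1]
      constructor
      · rintro ⟨y, hy, hxy⟩
        have : y = x := by rw [← hl y, hxy, hl]
        rw [← this]
        exact hy
      · intro hx
        exact ⟨x, hx, rfl⟩
    exact this
  have heq : ∀ x, e (ψ x) = a ↔ e x = b := by
    intro x
    have : ψ x ∈ {z | e z = a} ↔ x ∈ {z | e z = b} := by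
      rw [← hi2]
      constructor
      · rintro ⟨y, hy, hxy⟩
        have : y = x := by rw [← hl y, hxy, hl]
        rw [← this]
        exact hy
      · intro hx
        exact ⟨x, hx, rfl⟩
    exact this
  have hlt : ∀ x, a < e (ψ x) ↔ b < e x := by
    intro x
    rw [lt_iff_le_and_ne, lt_iff_le_and_ne, hle x]
    constructor
    · rintro ⟨h1, h2⟩
      exact ⟨h1, fun h3 => h2 ((heq x).2 h3.symm).symm⟩
    · rintro ⟨h1, h2⟩
      exact ⟨h1, fun h3 => h2 ((heq x).1 h3.symm).symm⟩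
  refine ⟨ι, hι, _, _, fun x => Φ 1 (g (ψ' x)),
    (hg.comp_left hΦ').comp_right (e' := e) (c' := a) hψψ hlt heq, fun x hx => ?_⟩
  have hx' : e (ψ' x) = b := by
    rw [← heq (ψ' x), hr x]
    exact hx
  show Φ 1 (g (ψ' x)) = f x
  rw [hgf _ hx', hΦ1 _ hx', hr x]

end Pool.Agent.Lib_MP_752436_rc
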