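import Pool.Agent.Lib_MP_752436_rc.SaCore

/-!
The geometry of the height `ew`.

Put `x = X (z - q)`, `y = Y (z - q)`. Directional derivatives (`X u = 1`, `Y u = 0`, ...):
`fderiv ℝ e z u = fderiv ℝ t z u + M * (deriv ψ (x / w) / w) * ψ (y / (2 * y₀))` and
`fderiv ℝ e z v = fderiv ℝ t z v + M * ψ (x / w) * (deriv ψ (y / (2 * y₀)) / (2 * y₀))`.
-/

open MeasureTheory Metric Set
open scoped ContDiff Topology

namespace Pool.Agent.Lib_MP_752436_rc

variable {t : E2 → ℝ} {q : E2} {a b : ℝ} {X Y : E2 →L[ℝ] ℝ} {u v : E2} {y₀ τ₁ τ₂ : ℝ}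
  {ψ : ℝ → ℝ}

theorem contDiff_ew (ht : ContDiff ℝ ∞ t) (hψ : IsBumpFn ψ) (M w : ℝ) :
    ContDiff ℝ ∞ (ew t ψ X Y q M y₀ w) := by
  have hX : ContDiff ℝ ∞ fun z => X (z - q) / w :=
    (X.contDiff.comp (contDiff_id.sub contDiff_const)).div_const w
  have hY : ContDiff ℝ ∞ fun z => Y (z - q) / (2 * y₀) :=
    (Y.contDiff.comp (contDiff_id.sub contDiff_const)).div_const _
  exact ht.add (contDiff_const.mul ((hψ.smooth.comp hX).mul (hψ.smooth.comp hY)))

theorem le_ew (hψ : IsBumpFn ψ) {M : ℝ} (hM : 0 ≤ M) (w : ℝ) (z : E2) :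
    t z ≤ ew t ψ X Y q M y₀ w z := by
  have h1 := mul_nonneg hM (mul_nonneg (hψ.nonneg (X (z - q) / w))
    (hψ.nonneg (Y (z - q) / (2 * y₀))))
  unfold ew
  linarith

/-- Where `ew` differs from `t`. -/
theorem ew_support (hψ : IsBumpFn ψ) (hy : 0 < y₀) {M w : ℝ} (hw : 0 < w) {z : E2}
    (hz : ew t ψ X Y q M y₀ w z ≠ t z) : |X (z - q)| < w ∧ |Y (z - q)| < 2 * y₀ := by
  constructor
  · by_contra hcon
    apply hz
    have h1 : 1 ≤ |X (z - q) / w| := by
      rw [abs_div, abs_of_pos hw, le_div_iff₀ hw]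
      linarith [not_lt.1 hcon]
    unfold ew
    rw [hψ.zero _ h1, zero_mul, mul_zero, add_zero]
  · by_contra hcon
    apply hz
    have hy2 : (0 : ℝ) < 2 * y₀ := by linarith
    have h1 : 1 ≤ |Y (z - q) / (2 * y₀)| := by
      rw [abs_div, abs_of_pos hy2, le_div_iff₀ hy2]
      linarith [not_lt.1 hcon]
    unfold ew
    rw [hψ.zero _ h1, mul_zero, mul_zero, add_zero]

private lemma ew_half (hy : 0 < y₀) {y : ℝ} (hz : |y| ≤ y₀) : |y / (2 * y₀)| ≤ 1 / 2 := by
  have hy2 : (0 : ℝ) < 2 * y₀ := by linarith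
  rw [abs_div, abs_of_pos hy2, div_le_iff₀ hy2]
  linarith

/-- In the middle of the box. -/
theorem ew_middle (hψ : IsBumpFn ψ) (hy : 0 < y₀) {M w : ℝ} {z : E2}
    (hz : |Y (z - q)| ≤ y₀) : ew t ψ X Y q M y₀ w z = t z + M * ψ (X (z - q) / w) := by
  unfold ew
  rw [hψ.one _ (ew_half hy hz), mul_one]

/-- The derivative of `ew`. -/
theorem fderiv_ew_apply (ht : ContDiff ℝ ∞ t) (hψ : IsBumpFn ψ) (M w : ℝ) (z η : E2) :
    fderiv ℝ (ew t ψ X Y q M y₀ w) z η = fderiv ℝ t z η +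
      M * (deriv ψ (X (z - q) / w) * (X η / w) * ψ (Y (z - q) / (2 * y₀)) +
        ψ (X (z - q) / w) * (deriv ψ (Y (z - q) / (2 * y₀)) * (Y η / (2 * y₀)))) := by
  have hψd : ∀ x, HasDerivAt ψ (deriv ψ x) x := fun x =>
    ((hψ.smooth.differentiable (by simp)) x).hasDerivAt
  have hlin : ∀ (Z : E2 →L[ℝ] ℝ) (c : ℝ),
      HasDerivAt (fun s : ℝ => Z (z + s • η - q) / c) (Z η / c) 0 := by
    intro Z c
    have h2 : HasDerivAt (fun s : ℝ => z + s • η - q) η 0 := by
      simpa using (((hasDerivAt_id (0 : ℝ)).smul_const η).const_add z).sub_const q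
    exact (Z.hasFDerivAt.comp_hasDerivAt (0 : ℝ) h2).div_const c
  have h0 : z + (0 : ℝ) • η = z := by simp
  have hcomp : ∀ (Z : E2 →L[ℝ] ℝ) (c : ℝ),
      HasDerivAt (fun s : ℝ => ψ (Z (z + s • η - q) / c)) (deriv ψ (Z (z - q) / c) * (Z η / c)) 0 := by
    intro Z c
    have h3 := hψd (Z (z + (0 : ℝ) • η - q) / c)
    have h4 := h3.comp (0 : ℝ) (hlin Z c)
    rw [h0] at h4
    exact h4
  have ht' : HasDerivAt (fun s : ℝ => t (z + s • η)) (fderiv ℝ t z η) 0 := by
    have h1 : HasFDerivAt t (fderiv ℝ t (z + (0 : ℝ) • η)) (z + (0 : ℝ) • η) :=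
      ((ht.differentiable (by simp)) _).hasFDerivAt
    have h2 : HasDerivAt (fun s : ℝ => z + s • η) η 0 := by
      simpa using ((hasDerivAt_id (0 : ℝ)).smul_const η).const_add z
    have h3 := h1.comp_hasDerivAt (0 : ℝ) h2
    rw [h0] at h3
    exact h3
  have hmul := (hcomp X w).mul (hcomp Y (2 * y₀))
  have hsum := ht'.add (hmul.const_mul M)
  rw [h0] at hsum
  have he : HasDerivAt (fun s : ℝ => ew t ψ X Y q M y₀ w (z + s • η))
      (fderiv ℝ (ew t ψ X Y q M y₀ w) z η) 0 := by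
    have h1 : HasFDerivAt (ew t ψ X Y q M y₀ w)
        (fderiv ℝ (ew t ψ X Y q M y₀ w) (z + (0 : ℝ) • η)) (z + (0 : ℝ) • η) :=
      (((contDiff_ew ht hψ M w).differentiable (by simp)) _).hasFDerivAt
    have h2 : HasDerivAt (fun s : ℝ => z + s • η) η 0 := by
      simpa using ((hasDerivAt_id (0 : ℝ)).smul_const η).const_add z
    have h3 := h1.comp_hasDerivAt (0 : ℝ) h2
    rw [h0] at h3
    exact h3
  exact he.unique hsum

theorem SadBox.exists_ew (h : SadBox t q a b X Y u v y₀ τ₁ τ₂) (hψ : IsBumpFn ψ) {M : ℝ}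
    (hM : b < t q + M) : ∃ w₀ > 0, w₀ ≤ y₀ ∧ ∀ w, 0 < w → w < w₀ →
      (∀ z, ew t ψ X Y q M y₀ w z ≠ t z → a < t z) ∧
      ∀ z, |X (z - q)| ≤ 2 * y₀ → |Y (z - q)| ≤ 2 * y₀ → ew t ψ X Y q M y₀ w z ≤ b →
        fderiv ℝ (ew t ψ X Y q M y₀ w) z ≠ 0 := by
  obtain ⟨w₀, hw₀, hw₀y, hstrip⟩ := h.exists_strip_subset (V := univ) isOpen_univ
    fun τ _ => mem_univ _
  have hMpos : 0 < M := by linarith [h.hb]
  have hy := h.hy₀
  refine ⟨w₀, hw₀, hw₀y, fun w hw hww => ⟨fun z hz => ?_, fun z hx hyy hzb h0 => ?_⟩⟩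
  · have h1 := ew_support hψ hy hw hz
    exact (hstrip z (by linarith [h1.1]) h1.2.le).1
  · have hzq : z ≠ q := by
      rintro rfl
      have h1 : ew t ψ X Y z M y₀ w z = t z + M := by
        unfold ew
        rw [sub_self, map_zero, map_zero, zero_div, zero_div, hψ.one 0 (by norm_num), mul_one,
          mul_one]
      linarith
    have hu := fderiv_ew_apply (X := X) (Y := Y) (q := q) (y₀ := y₀) h.smooth hψ M w z u
    have hv := fderiv_ew_apply (X := X) (Y := Y) (q := q) (y₀ := y₀) h.smooth hψ M w z v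
    rw [h0, h.frame.Xu, h.frame.Yu] at hu
    rw [h0, h.frame.Xv, h.frame.Yv] at hv
    simp only [zero_apply, zero_div, mul_zero, add_zero, zero_mul,
      zero_add] at hu hv
    rcases le_total |Y (z - q)| |X (z - q)| with hle | hle
    · have h1 := h.horiz z hx hyy hzq hle
      have h2 := hψ.anti (X (z - q) / w)
      have h3 := hψ.nonneg (Y (z - q) / (2 * y₀))
      have h4 : X (z - q) * fderiv ℝ t z u = -(M * ψ (Y (z - q) / (2 * y₀)) *
          (X (z - q) / w * deriv ψ (X (z - q) / w))) := by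
        have h5 : fderiv ℝ t z u = -(M * (deriv ψ (X (z - q) / w) * (1 / w) *
          ψ (Y (z - q) / (2 * y₀)))) := by linarith
        rw [h5]
        ring
      have h6 : M * ψ (Y (z - q) / (2 * y₀)) * (X (z - q) / w * deriv ψ (X (z - q) / w)) ≤ 0 :=
        mul_nonpos_of_nonneg_of_nonpos (mul_nonneg hMpos.le h3) h2
      linarith
    · have h1 := h.vert z hx hyy hzq hle
      have h2 : ψ (X (z - q) / w) * deriv ψ (Y (z - q) / (2 * y₀)) = 0 := by
        by_cases hxw : w ≤ |X (z - q)|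
        · have h3 : 1 ≤ |X (z - q) / w| := by
            rw [abs_div, abs_of_pos hw, le_div_iff₀ hw]
            linarith
          rw [hψ.zero _ h3, zero_mul]
        · by_cases hyw : |Y (z - q)| ≤ y₀
          · have h3 : IsLocalMax ψ (Y (z - q) / (2 * y₀)) := by
              refine Filter.Eventually.of_forall fun s => ?_
              show ψ s ≤ ψ (Y (z - q) / (2 * y₀))
              rw [hψ.one _ (ew_half hy hyw)]
              exact hψ.le_one s
            rw [h3.deriv_eq_zero, mul_zero]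
          · exfalso
            rw [not_le] at hxw hyw
            have h4 := (hstrip z (by linarith) hyy).2
              ((le_ew (X := X) (Y := Y) (q := q) (y₀ := y₀) hψ hMpos.le w z).trans hzb)
            linarith [h4.2]
      have h5 : fderiv ℝ t z v = 0 := by
        have h6 : M * (ψ (X (z - q) / w) * (deriv ψ (Y (z - q) / (2 * y₀)) * (1 / (2 * y₀)))) =
            M * (1 / (2 * y₀)) * (ψ (X (z - q) / w) * deriv ψ (Y (z - q) / (2 * y₀))) := by ring
        rw [h6, h2, mul_zero, add_zero] at hv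
        exact hv.symm
      rw [h5, mul_zero] at h1
      exact lt_irrefl _ h1

end Pool.Agent.Lib_MP_752436_rc
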