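import Pool.Agent.Lib_MP_752436_rc.Defs

/-!
PIECE SA-INTERVAL: the part of a double curve inside a thin strip is an interval.

Let `κ > 0` be smaller than `1`, `(b - T 0) / (2 * M)` and `(T 0 + M - b) / (2 * M)`, let `C` be a
bound for `|deriv T|` on `[-1, 1]` (`C > 0`) and let `η` be given by `IsBumpFn.strict κ`. Let
`w₀ < 1` be so small that `|T l - T 0| ≤ κ * M` for `|l| ≤ w₀` and `C * w₀ < M * η`. Let
`0 < w < w₀`, `h l = T l + M * ψ (l / w)`, `|l| ≤ w`.
If `h l = b` then `M * ψ (l / w) = b - T l ∈ [κ M, (1 - κ) M]`, so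
`(l / w) * deriv ψ (l / w) ≤ -η` and `l * deriv h l = l * deriv T l + M * (l / w) * deriv ψ (l / w)
≤ w * C - M * η < 0`. Also `h 0 = T 0 + M > b` and `h (± w) = T (± w) < b`.
On `[0, w]`: let `l₂` be the first point with `h l₂ ≤ b` (so `h l₂ = b`); if `h l ≥ b` for some
`l > l₂`, then, since `deriv h l₂ < 0`, `h` has a value `< b` in `(l₂, l)`, and the first `l' > ` that
point with `h l' = b` has `deriv h l' ≥ 0`, contradiction. So `b < h` on `[0, l₂)` and `h < b` on
`(l₂, w]`. In the same way on `[-w, 0]`, or apply the statement to `T (-l)` and `ψ (-x)`.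
-/

open MeasureTheory Metric Set
open scoped ContDiff Topology

namespace Pool.Agent.Lib_MP_752436_rc

/-- The exit lemma: a function which starts above `b`, ends below `b`, and is strictly decreasing
where it equals `b`, exits once. -/
private theorem exists_exit {E : ℝ → ℝ} (hE : Differentiable ℝ E) {b lam : ℝ} (hl : 0 < lam)
    (h0 : b < E 0) (h1 : E lam < b) (hd : ∀ l ∈ Ioo 0 lam, E l = b → deriv E l < 0) :
    ∃ r ∈ Ioo 0 lam, E r = b ∧ (∀ l ∈ Ico 0 r, b < E l) ∧ ∀ l ∈ Ioc r lam, E l < b := by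
  set A : Set ℝ := Icc 0 lam ∩ {l | E l ≤ b} with hA
  have hAc : IsCompact A := isCompact_Icc.inter_right (isClosed_le hE.continuous continuous_const)
  have hAne : A.Nonempty := ⟨lam, ⟨hl.le, le_rfl⟩, h1.le⟩
  obtain ⟨r, hrA, hrmin⟩ := hAc.exists_isLeast hAne
  have hr0 : 0 < r := by
    refine lt_of_le_of_ne hrA.1.1 fun h => ?_
    have h2 : E r ≤ b := hrA.2
    rw [← h] at h2
    linarith
  have hbefore : ∀ l ∈ Ico 0 r, b < E l := by
    intro l hlr
    by_contra hcon
    rw [not_lt] at hcon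
    have := hrmin ⟨⟨hlr.1, hlr.2.le.trans hrA.1.2⟩, hcon⟩
    exact absurd hlr.2 (not_lt.2 this)
  have hrb : E r = b := by
    refine le_antisymm hrA.2 ?_
    have hcl : r ∈ closure (Ico 0 r) := by
      rw [closure_Ico hr0.ne]
      exact ⟨hr0.le, le_rfl⟩
    have hsub : closure (Ico 0 r) ⊆ {l | b ≤ E l} :=
      closure_minimal (fun l hl' => (hbefore l hl').le)
        (isClosed_le continuous_const hE.continuous)
    exact hsub hcl
  have hrlam : r < lam := by
    refine lt_of_le_of_ne hrA.1.2 fun h => ?_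
    rw [h] at hrb
    linarith
  -- after `r` the function stays `≤ b`
  have hafter : ∀ ⦃l⦄, l ∈ Icc r lam → E l ≤ b := by
    refine image_le_of_deriv_right_lt_deriv_boundary (f := E) (f' := deriv E) (a := r) (b := lam)
      hE.continuous.continuousOn (fun x _ => (hE x).hasDerivAt.hasDerivWithinAt)
      (B := fun _ => b) (B' := fun _ => 0) hrb.le (fun x => hasDerivAt_const x b) ?_
    intro x hx hxb
    exact hd x ⟨hr0.trans_le hx.1, hx.2⟩ hxb
  refine ⟨r, ⟨hr0, hrlam⟩, hrb, hbefore, fun l hlr => ?_⟩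
  refine lt_of_le_of_ne (hafter ⟨hlr.1.le, hlr.2⟩) fun h => ?_
  have hllam : l < lam := by
    refine lt_of_le_of_ne hlr.2 fun h' => ?_
    rw [h'] at h
    linarith
  -- a local maximum of `E` on the left of `l`
  have hmax : IsLocalMax E l := by
    have : Ioo r lam ∈ 𝓝 l := isOpen_Ioo.mem_nhds ⟨hlr.1, hllam⟩
    filter_upwards [this] with y hy
    rw [h]
    exact hafter ⟨hy.1.le, hy.2.le⟩
  have := hd l ⟨hr0.trans hlr.1, hllam⟩ h
  rw [hmax.deriv_eq_zero] at this
  exact lt_irrefl _ this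

/-- One side of the crossing interval. -/
private theorem exists_exit_bump {T ψ : ℝ → ℝ} (hT : ContDiff ℝ ∞ T) {b M lam : ℝ} (hψ : IsBumpFn ψ)
    (h1 : T 0 < b) (h2 : b < T 0 + M) (hlam : 0 < lam) (hTb : ∀ l ∈ Icc 0 lam, T l < b) :
    ∃ w₀ > 0, ∀ w, 0 < w → w < w₀ → w < lam ∧ ∃ r ∈ Ioo 0 w, T r + M * ψ (r / w) = b ∧
      (∀ l ∈ Ico 0 r, b < T l + M * ψ (l / w)) ∧ ∀ l ∈ Ioc r lam, T l + M * ψ (l / w) < b := by
  have hM : 0 < M := by linarith
  set s₀ : ℝ := (b - T 0) / M with hs₀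
  have hs1 : 0 < s₀ := div_pos (by linarith) hM
  have hs2 : s₀ < 1 := by
    rw [hs₀, div_lt_one hM]
    linarith
  set κ : ℝ := min s₀ (1 - s₀) / 2 with hκ
  have hκ0 : 0 < κ := by
    have := sub_pos.2 hs2
    positivity
  have hκ1 : κ < s₀ := by
    have := min_le_left s₀ (1 - s₀)
    rw [hκ]
    linarith
  have hκ2 : κ < 1 - s₀ := by
    have := min_le_right s₀ (1 - s₀)
    have := sub_pos.2 hs2
    rw [hκ]
    linarith
  obtain ⟨η, hη, hstrict⟩ := hψ.strict κ hκ0
  have hcont : ContinuousAt (fun l => (b - T l) / M) 0 :=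
    ((continuous_const.sub hT.continuous).div_const M).continuousAt
  have hev : ∀ᶠ l in 𝓝 (0 : ℝ), κ < (b - T l) / M ∧ (b - T l) / M < 1 - κ :=
    (continuousAt_const.eventually_lt hcont (by exact hκ1)).and
      (hcont.eventually_lt continuousAt_const (by
        have : s₀ < 1 - κ := by linarith
        exact this))
  obtain ⟨l₁, hl₁, hball⟩ := Metric.eventually_nhds_iff.1 hev
  obtain ⟨C, hC⟩ := (isCompact_Icc (a := (0 : ℝ)) (b := lam)).exists_bound_of_continuousOn
    (f := deriv T) ((hT.continuous_deriv (by simp)).continuousOn)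
  have hC0 : 0 ≤ C := (norm_nonneg _).trans (hC 0 ⟨le_rfl, hlam.le⟩)
  refine ⟨min (min l₁ lam) (M * η / (C + 1)), by positivity, fun w hw hw0 => ?_⟩
  have hw1 : w < l₁ := hw0.trans_le ((min_le_left _ _).trans (min_le_left _ _))
  have hw2 : w < lam := hw0.trans_le ((min_le_left _ _).trans (min_le_right _ _))
  have hw3 : w < M * η / (C + 1) := hw0.trans_le (min_le_right _ _)
  have hdiff : Differentiable ℝ (fun l => T l + M * ψ (l / w)) := by
    intro l
    exact ((hT.differentiable (by simp)) l).add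
      ((((hψ.smooth.differentiable (by simp)) _).comp l
        ((differentiableAt_id).div_const w)).const_mul M)
  have g0 : b < T 0 + M * ψ (0 / w) := by
    rw [zero_div, hψ.one 0 (by rw [abs_zero]; norm_num), mul_one]
    exact h2
  have g1 : T w + M * ψ (w / w) < b := by
    rw [div_self hw.ne', hψ.zero 1 (by rw [abs_one]), mul_zero, add_zero]
    exact hTb w ⟨hw.le, hw2.le⟩
  have g2 : ∀ l ∈ Ioo 0 w, T l + M * ψ (l / w) = b →
      deriv (fun l => T l + M * ψ (l / w)) l < 0 := by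
    intro l hl hlb'
    have e1 : ψ (l / w) = (b - T l) / M := by
      rw [eq_div_iff hM.ne']
      linarith
    have hl1 : dist l 0 < l₁ := by
      rw [Real.dist_eq, sub_zero, abs_of_pos hl.1]
      linarith [hl.2]
    obtain ⟨h3, h4⟩ := hball hl1
    have h5 := hstrict (l / w) (by rw [e1]; exact h3.le) (by rw [e1]; exact h4.le)
    have hd1 : HasDerivAt T (deriv T l) l := ((hT.differentiable (by simp)) l).hasDerivAt
    have hd2 : HasDerivAt (fun l => ψ (l / w)) (deriv ψ (l / w) * (1 / w)) l := by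
      have a1 : HasDerivAt ψ (deriv ψ (l / w)) (l / w) :=
        ((hψ.smooth.differentiable (by simp)) _).hasDerivAt
      exact a1.comp l ((hasDerivAt_id l).div_const w)
    have hd3 : HasDerivAt (fun l => T l + M * ψ (l / w))
        (deriv T l + M * (deriv ψ (l / w) * (1 / w))) l := hd1.add (hd2.const_mul M)
    rw [hd3.deriv]
    have h6 : |deriv T l| ≤ C := hC l ⟨hl.1.le, hl.2.le.trans hw2.le⟩
    have h7 : l * (deriv T l + M * (deriv ψ (l / w) * (1 / w)))
        = l * deriv T l + M * (l / w * deriv ψ (l / w)) := by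
      field_simp
    have h8 : l * deriv T l ≤ w * C := by
      calc l * deriv T l ≤ l * |deriv T l| := mul_le_mul_of_nonneg_left (le_abs_self _) hl.1.le
        _ ≤ w * C := mul_le_mul hl.2.le h6 (abs_nonneg _) hw.le
    have h9 : w * C < M * η := by
      rw [lt_div_iff₀ (by positivity)] at hw3
      nlinarith
    have h10 : M * (l / w * deriv ψ (l / w)) ≤ M * (-η) := mul_le_mul_of_nonneg_left h5 hM.le
    have h11 : l * (deriv T l + M * (deriv ψ (l / w) * (1 / w))) < 0 := by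
      rw [h7]
      linarith
    by_contra hcon
    rw [not_lt] at hcon
    have := mul_nonneg hl.1.le hcon
    linarith
  obtain ⟨r, hr, hrb, hr1, hr2⟩ := exists_exit (E := fun l => T l + M * ψ (l / w)) hdiff
    (b := b) (lam := w) hw g0 g1 g2
  refine ⟨hw2, r, hr, hrb, hr1, fun l hl => ?_⟩
  rcases le_total l w with h | h
  · exact hr2 l ⟨hl.1, h⟩
  · rw [hψ.zero (l / w) (by
      rw [abs_div, abs_of_pos hw, le_div_iff₀ hw, one_mul]
      exact h.trans (le_abs_self l)), mul_zero, add_zero]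
    exact hTb l ⟨hw.le.trans h, hl.2⟩

/-- Both sides: the set where the ridge along a crossing curve reaches the level `b` is an
interval. -/
private theorem exists_interval_aux {T ψ : ℝ → ℝ} (hT : ContDiff ℝ ∞ T) {b M lam : ℝ} (hψ : IsBumpFn ψ)
    (h1 : T 0 < b) (h2 : b < T 0 + M) (hlam : 0 < lam) (hTb : ∀ l, |l| ≤ lam → T l < b) :
    ∃ w₀ > 0, ∀ w, 0 < w → w < w₀ → w < lam ∧ ∃ l₁ l₂, -w < l₁ ∧ l₁ < 0 ∧ 0 < l₂ ∧ l₂ < w ∧
      T l₁ + M * ψ (l₁ / w) = b ∧ T l₂ + M * ψ (l₂ / w) = b ∧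
      (∀ l ∈ Ioo l₁ l₂, b < T l + M * ψ (l / w)) ∧
      ∀ l, |l| ≤ lam → l ∉ Icc l₁ l₂ → T l + M * ψ (l / w) < b := by
  have hψ' : IsBumpFn (fun x => ψ (-x)) := by
    refine ⟨hψ.smooth.comp contDiff_neg, fun x hx => hψ.one _ (by rwa [abs_neg]),
      fun x hx => hψ.zero _ (by rwa [abs_neg]), fun x => hψ.nonneg _, fun x => hψ.le_one _, ?_, ?_⟩
    · intro x
      rw [deriv_comp_neg]
      have := hψ.anti (-x)
      linarith
    · intro κ hκ
      obtain ⟨η, hη, h⟩ := hψ.strict κ hκ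
      refine ⟨η, hη, fun x h1 h2 => ?_⟩
      rw [deriv_comp_neg]
      have := h (-x) h1 h2
      linarith
  obtain ⟨wa, hwa, ha⟩ := exists_exit_bump hT hψ h1 h2 hlam
    (fun l hl => hTb l (by rw [abs_of_nonneg hl.1]; exact hl.2))
  obtain ⟨wb, hwb, hb⟩ := exists_exit_bump (T := fun l => T (-l)) (hT.comp contDiff_neg) hψ'
    (b := b) (M := M) (lam := lam) (by simpa using h1) (by simpa using h2) hlam
    (fun l hl => hTb (-l) (by rw [abs_neg, abs_of_nonneg hl.1]; exact hl.2))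
  refine ⟨min wa wb, by positivity, fun w hw hw0 => ?_⟩
  obtain ⟨h3, r, hr, hrb, hr1, hr2⟩ := ha w hw (hw0.trans_le (min_le_left _ _))
  obtain ⟨-, s, hs, hsb, hs1, hs2⟩ := hb w hw (hw0.trans_le (min_le_right _ _))
  simp only [← neg_div] at hsb hs1 hs2
  refine ⟨h3, -s, r, by linarith [hs.2], by linarith [hs.1], hr.1, hr.2, hsb, hrb, ?_, ?_⟩
  · intro l hl
    rcases le_total 0 l with h | h
    · exact hr1 l ⟨h, hl.2⟩
    · have := hs1 (-l) ⟨by linarith, by linarith [hl.1]⟩
      rwa [neg_neg] at this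
  · intro l hl hl'
    rw [abs_le] at hl
    rcases le_total 0 l with h | h
    · refine hr2 l ⟨?_, hl.2⟩
      by_contra hcon
      rw [not_lt] at hcon
      exact hl' ⟨by linarith [hs.1], hcon⟩
    · have := hs2 (-l) ⟨?_, by linarith [hl.1]⟩
      · rwa [neg_neg] at this
      · by_contra hcon
        rw [not_lt] at hcon
        exact hl' ⟨by linarith, by linarith [hr.1]⟩

theorem exists_interval {ψ : ℝ → ℝ} (hψ : IsBumpFn ψ) {T : ℝ → ℝ} (hT : ContDiff ℝ ∞ T)
    {b M : ℝ} (h0 : T 0 < b) (hM : b < T 0 + M) :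
    ∃ w₀ > 0, ∀ w, 0 < w → w < w₀ → ∃ l₁ l₂, -w < l₁ ∧ l₁ < 0 ∧ 0 < l₂ ∧ l₂ < w ∧
      ∀ l, |l| ≤ w → ((b < T l + M * ψ (l / w) ↔ l ∈ Ioo l₁ l₂) ∧
        (T l + M * ψ (l / w) = b ↔ l = l₁ ∨ l = l₂)) := by
  obtain ⟨lam, hlam, hTb⟩ : ∃ lam > 0, ∀ l, |l| ≤ lam → T l < b := by
    have hev : ∀ᶠ l in 𝓝 (0 : ℝ), T l < b :=
      hT.continuous.continuousAt.eventually_lt continuousAt_const h0
    obtain ⟨r, hr, hball⟩ := Metric.eventually_nhds_iff.1 hev
    refine ⟨r / 2, by positivity, fun l hl => hball ?_⟩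
    rw [Real.dist_eq, sub_zero]
    linarith
  obtain ⟨w₀, hw₀, h⟩ := exists_interval_aux hT hψ h0 hM hlam hTb
  refine ⟨w₀, hw₀, fun w hw hw' => ?_⟩
  obtain ⟨hwl, l₁, l₂, h1, h2, h3, h4, h5, h6, h7, h8⟩ := h w hw hw'
  refine ⟨l₁, l₂, h1, h2, h3, h4, fun l hl => ?_⟩
  have hout : l ∉ Icc l₁ l₂ → T l + M * ψ (l / w) < b := h8 l (hl.trans hwl.le)
  constructor
  · constructor
    · intro hb
      by_contra hcon
      by_cases hmem : l ∈ Icc l₁ l₂
      · rcases eq_or_lt_of_le hmem.1 with h9 | h9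
        · rw [← h9, h5] at hb
          exact lt_irrefl _ hb
        · rcases eq_or_lt_of_le hmem.2 with h10 | h10
          · rw [h10, h6] at hb
            exact lt_irrefl _ hb
          · exact hcon ⟨h9, h10⟩
      · exact lt_asymm hb (hout hmem)
    · exact h7 l
  · constructor
    · intro hb
      by_contra hcon
      rw [not_or] at hcon
      by_cases hmem : l ∈ Icc l₁ l₂
      · have := h7 l ⟨lt_of_le_of_ne hmem.1 (Ne.symm hcon.1), lt_of_le_of_ne hmem.2 hcon.2⟩
        rw [hb] at this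
        exact lt_irrefl _ this
      · have := hout hmem
        rw [hb] at this
        exact lt_irrefl _ this
    · rintro (h9 | h9)
      · rw [h9, h5]
      · rw [h9, h6]

end Pool.Agent.Lib_MP_752436_rc
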