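import Pool.Agent.Lib_MP_752436_rc.SaArcs
import Pool.Agent.Lib_MP_752436_rc.SaEw
import Pool.Agent.Lib_MP_752436_rc.SaInterval

/-!
PIECE SA-PAIR: the new ribbon pair at a crossing.

Let `z₀ = q + τ₀ • v`, so `X (z - q) = X (z - z₀)` for all `z`, and `T l = t (Zc l)`;
`T 0 = t z₀ < b` (`SadBox.core_lt`) and `b < t q + M ≤ T 0 + M` (`SadBox.le_core`). Choose
`l₁₀ ≤ l₀` such that for `|l| ≤ l₁₀`: `Xc l ∈ O`, `b < t (Xc l)`, `Zc l ∈ O'`, `g` is injective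
near (`Zc l ∈ U`), `|Y (Zc l - q)| < y₀` (true at `l = 0`: `Y (z₀ - q) = τ₀`, `|τ₀| < y₀`), and
`Xc l ≠ Zc l'` for `|l|, |l'| ≤ l₁₀` (true at `0`: `t z₀ < b < t x₀`; take disjoint
neighbourhoods). Let `w₀` be the minimum of `l₁₀` and the `w₀` of `exists_interval`. For
`0 < w < w₀` let `l₁`, `l₂` be given by `exists_interval`, `α s = Xc (l₁ + s * (l₂ - l₁))`,
`β s = Zc (l₁ + s * (l₂ - l₁))`. With `ew_middle`:
`ew t ψ X Y q M y₀ w (Zc l) = T l + M * ψ (l / w)` for `|l| ≤ w`; and `t ≤ ew` (`le_ew`).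
`IsArc α`: `Xc l = Xc l'` implies `g (Zc l) = g (Zc l')`, `Zc l = Zc l'`, `l = l'` (`coord`).
-/

open MeasureTheory Metric Set
open scoped ContDiff Topology

namespace Pool.Agent.Lib_MP_752436_rc

open Pool.Agent.Lib_MP_752436_gt Pool.Agent.Lib_MP_752436_rb

variable {g : E2 → E3} {t : E2 → ℝ} {q : E2} {a b : ℝ} {X Y : E2 →L[ℝ] ℝ} {u v : E2}
  {y₀ τ₁ τ₂ : ℝ} {ψ : ℝ → ℝ}

/-- The core line and the coordinates. -/
private theorem saPair_coord {X : E2 →L[ℝ] ℝ} {q v : E2} (hX : X v = 0) (τ₀ : ℝ) (z : E2) :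
    X (z - (q + τ₀ • v)) = X (z - q) := by
  rw [map_sub, map_add, map_smul, hX, map_sub, smul_zero, add_zero]

/-- An affine reparametrisation of a curve. -/
private theorem saPair_arc {c : ℝ → E2} (hc : ContDiff ℝ ∞ c) {l₁ l₂ : ℝ} (h12 : l₁ < l₂)
    (hreg : ∀ l ∈ Icc l₁ l₂, deriv c l ≠ 0) (hinj : InjOn c (Icc l₁ l₂)) :
    IsArc (fun s => c (l₁ + s * (l₂ - l₁))) := by
  have hmem : ∀ s ∈ Icc (0 : ℝ) 1, l₁ + s * (l₂ - l₁) ∈ Icc l₁ l₂ := by
    intro s hs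
    have h1 : 0 ≤ l₂ - l₁ := by linarith
    constructor
    · nlinarith [mul_nonneg hs.1 h1]
    · nlinarith [mul_le_mul_of_nonneg_right hs.2 h1]
  refine ⟨?_, ?_, ?_⟩
  · exact hc.comp (contDiff_const.add (contDiff_id.mul contDiff_const))
  · intro s hs
    have h1 : HasDerivAt (fun s : ℝ => l₁ + s * (l₂ - l₁)) (1 * (l₂ - l₁)) s :=
      ((hasDerivAt_id s).mul_const (l₂ - l₁)).const_add l₁
    have h2 : HasDerivAt c (deriv c (l₁ + s * (l₂ - l₁))) (l₁ + s * (l₂ - l₁)) :=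
      (hc.differentiable (by simp) _).hasDerivAt
    have h3 := h2.scomp s h1
    have h4 : deriv (fun s => c (l₁ + s * (l₂ - l₁))) s
        = (1 * (l₂ - l₁)) • deriv c (l₁ + s * (l₂ - l₁)) := h3.deriv
    rw [h4]
    exact smul_ne_zero (by rw [one_mul]; linarith) (hreg _ (hmem s hs))
  · intro s hs s' hs' hss
    have h1 := hinj (hmem s hs) (hmem s' hs') hss
    have h2 : (s - s') * (l₂ - l₁) = 0 := by linarith
    rcases mul_eq_zero.mp h2 with h3 | h3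
    · linarith
    · linarith

theorem exists_newPair (h : SadBox t q a b X Y u v y₀ τ₁ τ₂) (hψ : IsBumpFn ψ) {M : ℝ}
    (hM : b < t q + M) {x₀ : E2} {τ₀ : ℝ} (hx₀ : b < t x₀) (hτ₀ : τ₀ ∈ Ioo τ₁ τ₂)
    {N : Set (E2 × E2)} {l₀ : ℝ} {Xc Zc : ℝ → E2} (L : LocArc g X x₀ (q + τ₀ • v) N l₀ Xc Zc)
    {O O' : Set E2} (hO : IsOpen O) (hO' : IsOpen O') (hx : x₀ ∈ O) (hz : q + τ₀ • v ∈ O')
    (hinj : InjOn g O') :
    ∃ w₀ > 0, ∀ w, 0 < w → w < w₀ → ∃ α β : ℝ → E2,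
      RPair g (ew t ψ X Y q M y₀ w) b α β ∧ (∀ s ∈ Icc (0 : ℝ) 1, α s ∈ O ∧ β s ∈ O') ∧
      ∀ x z, (x, z) ∈ N → g x = g z → |X (z - q)| ≤ w → b ≤ ew t ψ X Y q M y₀ w z →
        ∃ s ∈ Icc (0 : ℝ) 1, x = α s ∧ z = β s := by
  classical
  set z₀ : E2 := q + τ₀ • v with hz₀
  have hXz : ∀ z, X (z - z₀) = X (z - q) := fun z => saPair_coord h.frame.Xv τ₀ z
  have hMpos : 0 < M := by linarith [h.hb]
  have hτ1 := hτ₀.1
  have hτ2 := hτ₀.2
  have hy1 := h.h₁y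
  have hy2 := h.h₂y
  have hy0 := h.hy₀
  have habs : |τ₀| < y₀ := by
    rw [abs_lt]
    constructor <;> linarith
  have hT0 : t (Zc 0) < b := by
    rw [L.startZ]
    exact h.core_lt hτ₀
  have hTM : b < t (Zc 0) + M := by
    rw [L.startZ]
    have h1 := h.le_core (τ := τ₀) (by linarith)
    linarith
  have hT : ContDiff ℝ ∞ (fun l => t (Zc l)) := h.smooth.comp L.smoothZ
  -- conditions near zero
  have hcX : Continuous Xc := L.smoothX.continuous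
  have hcZ : Continuous Zc := L.smoothZ.continuous
  have hct : Continuous t := h.smooth.continuous
  have ev : ∀ᶠ l in 𝓝 (0 : ℝ), Xc l ∈ O ∧ b < t (Xc l) ∧ Zc l ∈ O' ∧ |Y (Zc l - q)| < y₀ ∧
      t (Zc l) < b := by
    have e1 : ∀ᶠ l in 𝓝 (0 : ℝ), Xc l ∈ O :=
      hcX.continuousAt.eventually_mem (hO.mem_nhds (by rw [L.startX]; exact hx))
    have e2 : ∀ᶠ l in 𝓝 (0 : ℝ), b < t (Xc l) := by
      have : Continuous fun l => t (Xc l) := hct.comp hcX
      exact this.continuousAt.eventually_mem (isOpen_Ioi.mem_nhds (by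
        change b < t (Xc 0)
        rw [L.startX]
        exact hx₀))
    have e3 : ∀ᶠ l in 𝓝 (0 : ℝ), Zc l ∈ O' :=
      hcZ.continuousAt.eventually_mem (hO'.mem_nhds (by rw [L.startZ]; exact hz))
    have e4 : ∀ᶠ l in 𝓝 (0 : ℝ), |Y (Zc l - q)| < y₀ := by
      have : Continuous fun l => |Y (Zc l - q)| := (Y.continuous.comp (hcZ.sub continuous_const)).abs
      refine this.continuousAt.eventually_mem (isOpen_Iio.mem_nhds ?_)
      change |Y (Zc 0 - q)| < y₀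
      rw [L.startZ, hz₀, add_sub_cancel_left, map_smul, h.frame.Yv, smul_eq_mul, mul_one]
      exact habs
    have e5 : ∀ᶠ l in 𝓝 (0 : ℝ), t (Zc l) < b := by
      have : Continuous fun l => t (Zc l) := hct.comp hcZ
      exact this.continuousAt.eventually_mem (isOpen_Iio.mem_nhds hT0)
    filter_upwards [e1, e2, e3, e4, e5] with l h1 h2 h3 h4 h5
    exact ⟨h1, h2, h3, h4, h5⟩
  obtain ⟨ε, hε, hev⟩ := Metric.eventually_nhds_iff.mp ev
  have hev' : ∀ l, |l| < ε → Xc l ∈ O ∧ b < t (Xc l) ∧ Zc l ∈ O' ∧ |Y (Zc l - q)| < y₀ ∧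
      t (Zc l) < b := by
    intro l hl
    apply hev
    rw [Real.dist_eq, sub_zero]
    exact hl
  obtain ⟨w₁, hw₁, hint⟩ := exists_interval hψ hT hT0 hTM
  refine ⟨min (min ε l₀) w₁, lt_min (lt_min hε L.hl₀) hw₁, ?_⟩
  intro w hw hww
  have hwε : w < ε := hww.trans_le ((min_le_left _ _).trans (min_le_left _ _))
  have hwl : w < l₀ := hww.trans_le ((min_le_left _ _).trans (min_le_right _ _))
  have hww₁ : w < w₁ := hww.trans_le (min_le_right _ _)
  obtain ⟨l₁, l₂, h1w, h10, h20, h2w, hcase⟩ := hint w hw hww₁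
  have h12 : l₁ < l₂ := h10.trans h20
  have hIcc : ∀ l ∈ Icc l₁ l₂, |l| ≤ w := by
    intro l hl
    rw [abs_le]
    constructor
    · linarith [hl.1]
    · linarith [hl.2]
  have hew : ∀ l, |l| ≤ w → ew t ψ X Y q M y₀ w (Zc l) = t (Zc l) + M * ψ (l / w) := by
    intro l hl
    rw [ew_middle hψ hy0 (hev' l (hl.trans_lt hwε)).2.2.2.1.le, ← hXz,
      L.coord l (hl.trans hwl.le)]
  have hmem : ∀ s ∈ Icc (0 : ℝ) 1, l₁ + s * (l₂ - l₁) ∈ Icc l₁ l₂ := by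
    intro s hs
    have h1 : 0 ≤ l₂ - l₁ := by linarith
    constructor
    · nlinarith [mul_nonneg hs.1 h1]
    · nlinarith [mul_le_mul_of_nonneg_right hs.2 h1]
  refine ⟨fun s => Xc (l₁ + s * (l₂ - l₁)), fun s => Zc (l₁ + s * (l₂ - l₁)), ?_, ?_, ?_⟩
  · refine ⟨?_, ?_, ?_, ?_, ?_, ?_, ?_, ?_⟩
    · refine saPair_arc L.smoothX h12 (fun l hl => L.regX l ((hIcc l hl).trans hwl.le)) ?_
      intro l hl l' hl' hll
      have hg : g (Zc l) = g (Zc l') := by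
        rw [← L.same l ((hIcc l hl).trans hwl.le), ← L.same l' ((hIcc l' hl').trans hwl.le), hll]
      have hZ := hinj (hev' l ((hIcc l hl).trans_lt hwε)).2.2.1
        (hev' l' ((hIcc l' hl').trans_lt hwε)).2.2.1 hg
      rw [← L.coord l ((hIcc l hl).trans hwl.le), ← L.coord l' ((hIcc l' hl').trans hwl.le), hZ]
    · refine saPair_arc L.smoothZ h12 (fun l hl => L.regZ l ((hIcc l hl).trans hwl.le)) ?_
      intro l hl l' hl' hll
      rw [← L.coord l ((hIcc l hl).trans hwl.le), ← L.coord l' ((hIcc l' hl').trans hwl.le), hll]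
    · intro s hs
      have h1 := (hev' _ ((hIcc _ (hmem s hs)).trans_lt hwε)).2.1
      exact h1.trans_le (le_ew hψ hMpos.le w _)
    · intro s hs
      have hs' : s ∈ Icc (0 : ℝ) 1 := ⟨hs.1.le, hs.2.le⟩
      have h1 := hIcc _ (hmem s hs')
      change b < ew t ψ X Y q M y₀ w (Zc (l₁ + s * (l₂ - l₁)))
      rw [hew _ h1]
      apply (hcase _ h1).1.mpr
      have h2 : 0 < l₂ - l₁ := by linarith
      constructor
      · nlinarith [mul_pos hs.1 h2]
      · nlinarith [mul_lt_mul_of_pos_right hs.2 h2]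
    · change ew t ψ X Y q M y₀ w (Zc (l₁ + 0 * (l₂ - l₁))) = b
      rw [zero_mul, add_zero]
      have h1 := hIcc l₁ ⟨le_rfl, h12.le⟩
      rw [hew _ h1]
      exact (hcase _ h1).2.mpr (Or.inl rfl)
    · change ew t ψ X Y q M y₀ w (Zc (l₁ + 1 * (l₂ - l₁))) = b
      rw [one_mul, add_sub_cancel]
      have h1 := hIcc l₂ ⟨h12.le, le_rfl⟩
      rw [hew _ h1]
      exact (hcase _ h1).2.mpr (Or.inr rfl)
    · rw [Set.disjoint_left]
      rintro p ⟨s, hs, rfl⟩ ⟨s', hs', hss⟩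
      have h1 := (hev' _ ((hIcc _ (hmem s hs)).trans_lt hwε)).2.1
      have h2 := (hev' _ ((hIcc _ (hmem s' hs')).trans_lt hwε)).2.2.2.2
      have h3 : t (Zc (l₁ + s' * (l₂ - l₁))) = t (Xc (l₁ + s * (l₂ - l₁))) := congrArg t hss
      linarith
    · intro s hs
      exact L.same _ ((hIcc _ (hmem s hs)).trans hwl.le)
  · intro s hs
    have h1 := hev' _ ((hIcc _ (hmem s hs)).trans_lt hwε)
    exact ⟨h1.1, h1.2.2.1⟩
  · intro x z hN hg hzw hbz
    obtain ⟨hl0, hxc, hzc⟩ := L.unique x z hN hg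
    rw [hXz] at hl0 hxc hzc
    set l := X (z - q) with hl
    have h2 : 0 < l₂ - l₁ := by linarith
    have hlI : l ∈ Icc l₁ l₂ := by
      rw [hzc, hew l hzw] at hbz
      rcases hbz.lt_or_eq with h3 | h3
      · have h4 := (hcase l hzw).1.mp h3
        exact ⟨h4.1.le, h4.2.le⟩
      · rcases (hcase l hzw).2.mp h3.symm with h4 | h4
        · rw [h4]; exact ⟨le_rfl, h12.le⟩
        · rw [h4]; exact ⟨h12.le, le_rfl⟩
    refine ⟨(l - l₁) / (l₂ - l₁), ⟨?_, ?_⟩, ?_, ?_⟩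
    · exact div_nonneg (by linarith [hlI.1]) h2.le
    · rw [div_le_one h2]
      linarith [hlI.2]
    · change x = Xc (l₁ + (l - l₁) / (l₂ - l₁) * (l₂ - l₁))
      rw [div_mul_cancel₀ _ h2.ne', add_sub_cancel]
      exact hxc
    · change z = Zc (l₁ + (l - l₁) / (l₂ - l₁) * (l₂ - l₁))
      rw [div_mul_cancel₀ _ h2.ne', add_sub_cancel]
      exact hzc

end Pool.Agent.Lib_MP_752436_rc
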