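import Pool.Agent.Lib_MP_752436_rc.SaCross
import Pool.Agent.Lib_MP_752436_rc.SaPair

/-!
PIECE SA-THIN: attaching a thin strip along the core gives a ribbon immersion again.

Let `κ` be the finite type of crossings `(x k, τ k)` (`cross_finite`), `z k = q + τ k • v`. By
`S.bdry`, `b < t (x k)`. For `k ≠ k'` we have `g (x k) ≠ g (x k')`: otherwise
`g (z k) = g (z k')`, `z k = z k'` (`near`), `x k ≠ x k'` are a double pair of `g` in `{b ≤ t}`, so
`x k` is `α i s` or `β i s`, `g (x k) = g (α i s)`, contradiction to `free`. Let `L k` be the local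
arc (`exists_locArc`, hypotheses `S.imm`, `S.trans`), and let `O k ∋ x k`, `O' k ∋ z k` be open with
`g '' O k` (for different `k`) pairwise disjoint and disjoint from the compact sets
`g ∘ α i '' Icc 0 1` (finitely many), `O' k ⊆ U`. Take `𝒩 = ⋃ k, N k` and let `V` be given by
`cross_near`; replace `V` by its intersection with `U`, with the open set of points where
`fderiv ℝ g` is injective, and with the complement of the finite set of the points `β i 0`,
`β i 1` (these are not on the core: they have `t = b`, so they would be an end point of the core,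
and `g (α i 0) = g (β i 0)` would imply `α i 0 = q + τ₁ • v` by `ends₁`, but `b < t (α i 0)`).
Let `w₀` be smaller than the ones of `SadBox.exists_strip_subset V` and of
`exists_newPair` for all `k`. For `0 < w < w₀` and `e = ew t ψ X Y q M y₀ w`:
* `e z ≠ t z`, `t z ≤ b` imply `z ∈ V` and `|X (z - q)| < w` (`ew_support`);
* `RData g e b` with the index type `ι ⊕ κ`: the old pairs remain pairs, as `t ≤ e`, and `e = t` at
  the end points of `β i`; if `x ≠ z`, `b ≤ e x`, `b ≤ e z`, `g x = g z`, then either `b ≤ t x`,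
  `b ≤ t z` (old pair), or `t x < b` and `t z < b` (both in `U`, contradiction), or (up to order)
  `b ≤ t x`, `t z < b`, so `(x, z) ∈ N k` for some `k`, and `exists_newPair` applies;
* `e z = b` implies `t z = b` or `z ∈ U`, so `g z = f z`.
-/

open MeasureTheory Metric Set
open scoped ContDiff Topology

namespace Pool.Agent.Lib_MP_752436_rc

open Pool.Agent.Lib_MP_752436_gt Pool.Agent.Lib_MP_752436_rb

variable {f g : E2 → E3} {t : E2 → ℝ} {q : E2} {a b : ℝ} {X Y : E2 →L[ℝ] ℝ} {u v : E2}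
  {y₀ τ₁ τ₂ : ℝ} {ψ : ℝ → ℝ}

/-- Injectivity of the derivative is an open condition. -/
private theorem saThin_ev_injective {g : E2 → E3} (hg : ContDiff ℝ ∞ g) {x : E2}
    (hx : Function.Injective (fderiv ℝ g x)) :
    ∀ᶠ y in 𝓝 x, Function.Injective (fderiv ℝ g y) := by
  obtain ⟨π, hπ, hev⟩ := exists_left_inverse hg hx
  filter_upwards [eventually_eventually_nhds.2 hev] with y hy
  rw [injective_iff_map_eq_zero]
  intro u hu
  have h1 : HasFDerivAt g (fderiv ℝ g y) y := ((hg.differentiable (by simp)) y).hasFDerivAt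
  have h2 : HasFDerivAt π (fderiv ℝ π (g y)) (g y) :=
    ((hπ.differentiable (by simp)) _).hasFDerivAt
  have h3 := h2.comp y h1
  have h4 : HasFDerivAt (π ∘ g) (ContinuousLinearMap.id ℝ E2) y :=
    (hasFDerivAt_id y).congr_of_eventuallyEq hy
  have h5 : u = (ContinuousLinearMap.id ℝ E2) u := rfl
  rw [h5, ← h3.unique h4, ContinuousLinearMap.comp_apply, hu, map_zero]

/-- A positive lower bound of finitely many positive numbers. -/
private theorem saThin_lower {κ : Type} [Finite κ] (w : κ → ℝ) (hw : ∀ k, 0 < w k) :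
    ∃ w₀ > 0, ∀ k, w₀ ≤ w k := by
  rcases isEmpty_or_nonempty κ with he | he
  · exact ⟨1, one_pos, fun k => (he.false k).elim⟩
  · obtain ⟨k₀, hk₀⟩ := Finite.exists_min w
    exact ⟨w k₀, hw k₀, hk₀⟩

theorem good_ew (h : SadBox t q a b X Y u v y₀ τ₁ τ₂) {ι : Type} [Finite ι] {α β : ι → ℝ → E2}
    (S : StripMap f g t q b v τ₁ τ₂ α β) (hK : IsCompact {x | b ≤ t x}) (hψ : IsBumpFn ψ) {M : ℝ}
    (hM : b < t q + M) :
    ∃ w₀ > 0, ∀ w, 0 < w → w < w₀ → Good f (ew t ψ X Y q M y₀ w) b := by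
  classical
  have hM0 : 0 < M := by linarith [h.hb]
  obtain ⟨U, hUo, hUcore, hUf, hUinj⟩ := S.near
  set Cr : Set (E2 × ℝ) :=
    {p | b ≤ t p.1 ∧ p.2 ∈ Ioo τ₁ τ₂ ∧ g p.1 = g (q + p.2 • v)} with hCr
  have hfin : Cr.Finite := cross_finite h S hK
  have : Finite Cr := hfin.to_subtype
  have hgs := S.data.smooth
  have hgc : Continuous g := hgs.continuous
  have hlt : ∀ k : Cr, b < t k.1.1 := fun k => lt_of_le_of_ne k.2.1 (fun e =>
    S.bdry k.1.1 e.symm k.1.2 k.2.2.1 k.2.2.2)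
  have hIcc : ∀ k : Cr, k.1.2 ∈ Icc τ₁ τ₂ := fun k => Ioo_subset_Icc_self k.2.2.1
  have hloc : ∀ k : Cr, ∃ (N : Set (E2 × E2)) (l₀ : ℝ) (Xc Zc : ℝ → E2),
      LocArc g X k.1.1 (q + k.1.2 • v) N l₀ Xc Zc := fun k =>
    exists_locArc hgs h.frame k.2.2.2 (S.imm _ (hIcc k))
      (S.trans k.1.1 k.2.1 k.1.2 k.2.2.1 k.2.2.2)
  choose N l₀ Xc Zc L using hloc
  -- the crossings have different images
  have hne : ∀ k k' : Cr, k ≠ k' → g k.1.1 ≠ g k'.1.1 := by
    intro k k' hkk hgg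
    have h1 : q + k.1.2 • v = q + k'.1.2 • v := by
      apply hUinj (hUcore _ (hIcc k)) (hUcore _ (hIcc k'))
      rw [← k.2.2.2, ← k'.2.2.2, hgg]
    have h2 : k.1.2 = k'.1.2 := by
      have h3 := congrArg (fun z => Y (z - q)) h1
      simp only [add_sub_cancel_left, map_smul, h.frame.Yv, smul_eq_mul, mul_one] at h3
      exact h3
    have h3 : k.1.1 ≠ k'.1.1 := by
      intro h4
      exact hkk (Subtype.ext (Prod.ext h4 h2))
    obtain ⟨i, s, hs, h4⟩ := S.data.double _ _ k.2.1 k'.2.1 h3 hgg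
    refine S.free k.1.1 k.2.1 k.1.2 k.2.2.1 k.2.2.2 i s hs ?_
    rcases h4 with ⟨h5, -⟩ | ⟨h5, -⟩
    · rw [h5]
    · rw [h5, (S.data.pair i).same s hs]
  -- disjoint neighbourhoods of the images
  obtain ⟨W, hW, hWd⟩ := (Set.finite_range (fun k : Cr => g k.1.1)).t2_separation
  set C : Set E3 := ⋃ i, g ∘ α i '' Icc 0 1 with hC
  have hCc : IsClosed C := by
    refine (isCompact_iUnion fun i => ?_).isClosed
    exact isCompact_Icc.image (hgc.comp (S.data.pair i).arcα.smooth.continuous)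
  set O : Cr → Set E2 := fun k => g ⁻¹' (W (g k.1.1) ∩ Cᶜ) with hO
  have hOo : ∀ k, IsOpen (O k) := fun k =>
    ((hW (g k.1.1)).2.inter hCc.isOpen_compl).preimage hgc
  have hOm : ∀ k : Cr, k.1.1 ∈ O k := by
    intro k
    refine ⟨(hW (g k.1.1)).1, ?_⟩
    intro h1
    obtain ⟨i, s, hs, h2⟩ := mem_iUnion.1 h1
    exact S.free k.1.1 k.2.1 k.1.2 k.2.2.1 k.2.2.2 i s hs h2.symm
  have hOC : ∀ k x, x ∈ O k → ∀ i, ∀ s ∈ Icc (0 : ℝ) 1, g x ≠ g (α i s) := by
    intro k x hx i s hs h1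
    exact hx.2 (mem_iUnion.2 ⟨i, s, hs, h1.symm⟩)
  have hOd : ∀ k k', k ≠ k' → ∀ x ∈ O k, ∀ x' ∈ O k', g x ≠ g x' := by
    intro k k' hkk x hx x' hx' h1
    have h2 := hWd (mem_range_self k) (mem_range_self k') (hne k k' hkk)
    exact (Set.disjoint_left.1 h2) hx.1 (by
      have h3 := hx'.1
      rw [← h1] at h3
      exact h3)
  -- the open set around the core
  obtain ⟨V₀, hV₀o, hV₀core, hV₀⟩ := cross_near h S hK (𝒩 := ⋃ k, N k)
    (isOpen_iUnion fun k => (L k).openN) (by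
      intro x hx τ hτ hg
      exact mem_iUnion.2 ⟨⟨(x, τ), hx, hτ, hg⟩, (L ⟨(x, τ), hx, hτ, hg⟩).memN⟩)
  set E : Set E2 := (⋃ i, {β i 0, β i 1}) with hE
  have hEfin : E.Finite := Set.finite_iUnion fun i => (Set.finite_singleton _).insert _
  set V : Set E2 := (V₀ ∩ U) ∩ (interior {z | Function.Injective (fderiv ℝ g z)} ∩ Eᶜ) with hV
  have hVo : IsOpen V := (hV₀o.inter hUo).inter (isOpen_interior.inter hEfin.isClosed.isOpen_compl)
  have hbb : ∀ i, ∀ s : ℝ, (s = 0 ∨ s = 1) → t (β i s) = b := by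
    rintro i s (rfl | rfl)
    · exact (S.data.pair i).left
    · exact (S.data.pair i).right
  have hcoreE : ∀ τ ∈ Icc τ₁ τ₂, ∀ i, ∀ s : ℝ, (s = 0 ∨ s = 1) → q + τ • v ≠ β i s := by
    intro τ hτ i s hs h1
    have hs' : s ∈ Icc (0 : ℝ) 1 := by
      rcases hs with rfl | rfl
      · exact ⟨le_rfl, zero_le_one⟩
      · exact ⟨zero_le_one, le_rfl⟩
    have h2 : t (q + τ • v) = b := by rw [h1]; exact hbb i s hs
    have h3 : g (α i s) = g (q + τ • v) := by rw [h1, (S.data.pair i).same s hs']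
    have h4 : b < t (α i s) := (S.data.pair i).inside s hs'
    rcases eq_or_lt_of_le hτ.1 with h5 | h5
    · have h6 := S.ends₁ (α i s) h4.le (by rw [h5]; exact h3)
      rw [h6, h.end₁] at h4
      exact lt_irrefl _ h4
    · rcases eq_or_lt_of_le hτ.2 with h6 | h6
      · have h7 := S.ends₂ (α i s) h4.le (by rw [← h6]; exact h3)
        rw [h7, h.end₂] at h4
        exact lt_irrefl _ h4
      · exact absurd h2 (h.core_lt ⟨h5, h6⟩).ne
  have hVcore : ∀ τ ∈ Icc τ₁ τ₂, q + τ • v ∈ V := by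
    intro τ hτ
    refine ⟨⟨hV₀core τ hτ, hUcore τ hτ⟩, ?_, ?_⟩
    · rw [mem_interior_iff_mem_nhds]
      exact saThin_ev_injective hgs (S.imm τ hτ)
    · intro h1
      obtain ⟨i, h2⟩ := mem_iUnion.1 h1
      rcases h2 with h2 | h2
      · exact hcoreE τ hτ i 0 (Or.inl rfl) h2
      · exact hcoreE τ hτ i 1 (Or.inr rfl) h2
  obtain ⟨w₁, hw₁, -, hstrip⟩ := h.exists_strip_subset hVo hVcore
  have hnew := fun k : Cr => exists_newPair h hψ hM (hlt k) k.2.2.1 (L k) (hOo k) hUo (hOm k)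
    (hUcore _ (hIcc k)) hUinj
  choose w₂ hw₂ hnew' using hnew
  obtain ⟨w₃, hw₃, hw₃'⟩ := saThin_lower w₂ hw₂
  refine ⟨min w₁ w₃, lt_min hw₁ hw₃, ?_⟩
  intro w hw hww
  have hww₁ : w < w₁ := hww.trans_le (min_le_left _ _)
  have hww₂ : ∀ k, w < w₂ k := fun k => (hww.trans_le (min_le_right _ _)).trans_le (hw₃' k)
  choose α' β' hpair hin huniq using fun k => hnew' k w hw (hww₂ k)
  have hle : ∀ z, t z ≤ ew t ψ X Y q M y₀ w z := fun z => le_ew hψ hM0.le w z
  have hsup : ∀ z, ew t ψ X Y q M y₀ w z ≠ t z → t z ≤ b → z ∈ V ∧ |X (z - q)| ≤ w := by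
    intro z hz hzb
    obtain ⟨h1, h2⟩ := ew_support hψ h.hy₀ hw hz
    exact ⟨((hstrip z (h1.le.trans hww₁.le) h2.le).2 hzb).1, h1.le⟩
  have hlow : ∀ z, b ≤ ew t ψ X Y q M y₀ w z → t z < b → z ∈ V ∧ |X (z - q)| ≤ w := by
    intro z hz hzb
    exact hsup z (fun h1 => by rw [h1] at hz; exact absurd hzb (not_lt.2 hz)) hzb.le
  have hend : ∀ i, ∀ s : ℝ, (s = 0 ∨ s = 1) → ew t ψ X Y q M y₀ w (β i s) = b := by
    intro i s hs
    by_contra h1
    have h2 := hbb i s hs
    have h3 := (hsup (β i s) (by rw [h2]; exact h1) h2.le).1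
    apply h3.2.2
    refine mem_iUnion.2 ⟨i, ?_⟩
    rcases hs with rfl | rfl
    · exact Or.inl rfl
    · exact Or.inr rfl
  refine ⟨ι ⊕ Cr, inferInstance, Sum.elim α α', Sum.elim β β', g, ?_, ?_⟩
  · refine ⟨hgs, ?_, ?_, ?_, ?_⟩
    · intro x hx
      rcases le_or_gt b (t x) with h1 | h1
      · exact S.data.immersion x h1
      · exact interior_subset (hlow x hx h1).1.2.1
    · rintro (i | k)
      · have hp := S.data.pair i
        exact ⟨hp.arcα, hp.arcβ, fun s hs => (hp.inside s hs).trans_le (hle _),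
          fun s hs => (hp.proper s hs).trans_le (hle _), hend i 0 (Or.inl rfl),
          hend i 1 (Or.inr rfl), hp.disjoint, hp.same⟩
      · exact hpair k
    · rintro (i | k) (j | k') hij
      · exact S.data.disj i j (fun h1 => hij (by rw [h1]))
      · rw [Set.disjoint_left]
        rintro _ ⟨s, hs, rfl⟩ ⟨s', hs', h1⟩
        exact hOC k' _ (hin k' s' hs').1 i s hs h1
      · rw [Set.disjoint_left]
        rintro _ ⟨s, hs, rfl⟩ ⟨s', hs', h1⟩
        exact hOC k _ (hin k s hs).1 j s' hs' h1.symm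
      · rw [Set.disjoint_left]
        rintro _ ⟨s, hs, rfl⟩ ⟨s', hs', h1⟩
        exact hOd k k' (fun h2 => hij (by rw [h2])) _ (hin k s hs).1 _ (hin k' s' hs').1 h1.symm
    · intro x y hx hy hxy hg
      have key : ∀ x z, b ≤ t x → t z < b → b ≤ ew t ψ X Y q M y₀ w z → g x = g z →
          ∃ k : Cr, ∃ s ∈ Icc (0 : ℝ) 1, x = α' k s ∧ z = β' k s := by
        intro x z h1 h2 h3 h4
        obtain ⟨h5, h6⟩ := hlow z h3 h2
        obtain ⟨k, h7⟩ := mem_iUnion.1 (hV₀ x z h1 h5.1.1 h2 h4)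
        exact ⟨k, huniq k x z h7 h4 h6 h3⟩
      rcases le_or_gt b (t x) with h1 | h1
      · rcases le_or_gt b (t y) with h2 | h2
        · obtain ⟨i, s, hs, h3⟩ := S.data.double x y h1 h2 hxy hg
          exact ⟨Sum.inl i, s, hs, h3⟩
        · obtain ⟨k, s, hs, h3⟩ := key x y h1 h2 hy hg
          exact ⟨Sum.inr k, s, hs, Or.inl h3⟩
      · rcases le_or_gt b (t y) with h2 | h2
        · obtain ⟨k, s, hs, h3, h4⟩ := key y x h2 h1 hx hg.symm
          exact ⟨Sum.inr k, s, hs, Or.inr ⟨h4, h3⟩⟩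
        · exact absurd (hUinj (hlow x hx h1).1.1.2 (hlow y hy h2).1.1.2 hg) hxy
  · intro x hx
    rcases eq_or_ne (t x) b with h1 | h1
    · exact S.boundary x h1
    · have h2 : t x < b := lt_of_le_of_ne ((hle x).trans hx.le) h1
      exact hUf x (hlow x hx.ge h2).1.1.2

end Pool.Agent.Lib_MP_752436_rc
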