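import Pool.Agent.Lib_MP_752436_rb.Ext
import Pool.Agent.Lib_MP_752436_rc.Basic

/-!
PIECE INJNEAR: near a critical point `q` of the height, `f` is an embedding, and points near `q`
are not double points with partners at nearly the same height.

`exists_inj_near`: `f` is immersive at `q` (`S.imm`, `fderiv ℝ t q = 0`), hence immersive and
injective near `q` (`exists_left_inverse`; the set of injective linear maps is open). If the
statement were false there would be sequences `x n → q`, `y n`, `t (y n) → t q`, `f (x n) = f (y n)`,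
`x n ≠ y n`; `y n` subconverges in the compact region to `y` with `t y = t q`, `f y = f q`, so
`y = q` (`S.inj`), contradiction to injectivity near `q`.

`level_inj`, `level_imm`: case distinction.
-/

open MeasureTheory Metric Set
open scoped ContDiff Topology

namespace Pool.Agent.Lib_MP_752436_rc

open Pool.Agent.Lib_MP_752436_gt Pool.Agent.Lib_MP_752436_rb

/-- `f` is an embedding of `ball q r`, and `x ∈ ball q r`, `f x = f y`, `|t y - t q| ≤ δ` imply
`x = y`. -/
structure InjNear (f : E2 → E3) (t : E2 → ℝ) (q : E2) (r δ : ℝ) : Prop where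
  hr : 0 < r
  hδ : 0 < δ
  hδt : δ < t q
  near : ∀ x ∈ ball q r, |t x - t q| ≤ δ
  inj : ∀ x ∈ ball q r, ∀ y, |t y - t q| ≤ δ → f x = f y → x = y
  imm : ∀ x ∈ ball q r, Function.Injective (fderiv ℝ f x)

private theorem compact_slab {f : E2 → E3} {t : E2 → ℝ} (S : Stg f t) {m : ℝ} (hm : 0 ≤ m) :
    IsCompact {x | m ≤ t x} := by
  obtain ⟨c, hc, hK⟩ := S.compact
  refine hK.of_isClosed_subset (isClosed_le continuous_const S.smootht.continuous) fun x hx => ?_
  have hx' : m ≤ t x := hx
  show c ≤ t x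
  linarith

theorem exists_inj_near {f : E2 → E3} {t : E2 → ℝ} (S : Stg f t) {q : E2} (hq : 0 < t q)
    (hq' : fderiv ℝ t q = 0) {δ₀ : ℝ} (hδ₀ : 0 < δ₀) :
    ∃ r δ, InjNear f t q r δ ∧ r ≤ δ₀ ∧ δ ≤ δ₀ := by
  have hinj : Function.Injective (fderiv ℝ f q) := by
    rw [injective_iff_map_eq_zero]
    intro u hu
    refine S.imm q hq.le u hu ?_
    rw [hq']
    rfl
  obtain ⟨π, hπ, hev⟩ := exists_left_inverse S.smoothf hinj
  obtain ⟨r₀, hr₀, hball⟩ := Metric.eventually_nhds_iff_ball.1 hev
  have himm : ∀ x ∈ ball q r₀, Function.Injective (fderiv ℝ f x) := by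
    intro x hx
    rw [injective_iff_map_eq_zero]
    intro u hu
    have h1 : HasFDerivAt f (fderiv ℝ f x) x := ((S.smoothf.differentiable (by simp)) x).hasFDerivAt
    have h2 : HasFDerivAt π (fderiv ℝ π (f x)) (f x) :=
      ((hπ.differentiable (by simp)) _).hasFDerivAt
    have h3 := h2.comp x h1
    have h4 : HasFDerivAt (π ∘ f) (ContinuousLinearMap.id ℝ E2) x := by
      refine (hasFDerivAt_id x).congr_of_eventuallyEq ?_
      filter_upwards [isOpen_ball.mem_nhds hx] with y hy
      exact hball y hy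
    have h5 : u = (ContinuousLinearMap.id ℝ E2) u := rfl
    rw [h5, ← h3.unique h4, ContinuousLinearMap.comp_apply, hu, map_zero]
  have hinj₀ : ∀ x ∈ ball q r₀, ∀ y ∈ ball q r₀, f x = f y → x = y := by
    intro x hx y hy hxy
    rw [← hball x hx, ← hball y hy, hxy]
  have hY : IsCompact ({x | 0 ≤ t x} ∩ (ball q r₀)ᶜ) :=
    (compact_slab S le_rfl).inter_right isOpen_ball.isClosed_compl
  obtain ⟨μ2, hμ2, hY2⟩ := hY.exists_forall_le' (f := fun y => max |t y - t q| (dist (f y) (f q)))
    (a := 0)
    (((S.smootht.continuous.sub continuous_const).abs.max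
      (S.smoothf.continuous.dist continuous_const)).continuousOn)
    (by
      rintro y ⟨hy1, hy2⟩
      by_contra hcon
      rw [not_lt, max_le_iff] at hcon
      have h1 : t y = t q := by
        have := abs_nonpos_iff.1 hcon.1
        linarith
      have h2 : f y = f q := dist_le_zero.1 hcon.2
      have := S.inj y q hy1 hq.le h2 h1
      rw [this] at hy2
      exact hy2 (mem_ball_self hr₀))
  set μ : ℝ := μ2 / 2 with hμ
  have hμpos : 0 < μ := by positivity
  set δ : ℝ := min (min μ (t q / 2)) δ₀ with hδ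
  have hδpos : 0 < δ := by positivity
  have hδμ : δ ≤ μ := (min_le_left _ _).trans (min_le_left _ _)
  have hδq : δ ≤ t q / 2 := (min_le_left _ _).trans (min_le_right _ _)
  have hδδ : δ ≤ δ₀ := min_le_right _ _
  have hev1 : ∀ᶠ x in 𝓝 q, dist (f x) (f q) < μ := by
    have : ContinuousAt (fun x => dist (f x) (f q)) q :=
      (S.smoothf.continuous.dist continuous_const).continuousAt
    refine this.eventually_lt continuousAt_const ?_
    simpa using hμpos
  have hev2 : ∀ᶠ x in 𝓝 q, |t x - t q| < δ := by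
    have : ContinuousAt (fun x => |t x - t q|) q :=
      (S.smootht.continuous.sub continuous_const).abs.continuousAt
    refine this.eventually_lt continuousAt_const ?_
    simpa using hδpos
  obtain ⟨r₁, hr₁, hball₁⟩ := Metric.eventually_nhds_iff_ball.1 (hev1.and hev2)
  refine ⟨min (min r₀ r₁) δ₀, δ, ⟨by positivity, hδpos, by linarith, fun x hx => ?_,
    fun x hx y hy hxy => ?_, fun x hx => ?_⟩, min_le_right _ _, hδδ⟩
  · exact (hball₁ x (ball_subset_ball ((min_le_left _ _).trans (min_le_right _ _)) hx)).2.le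
  · have hx0 : x ∈ ball q r₀ :=
      ball_subset_ball ((min_le_left _ _).trans (min_le_left _ _)) hx
    have hx1 := (hball₁ x (ball_subset_ball ((min_le_left _ _).trans (min_le_right _ _)) hx)).1
    refine hinj₀ x hx0 y ?_ hxy
    by_contra hcon
    have hy0 : 0 ≤ t y := by
      have := (abs_le.1 hy).1
      linarith
    have := hY2 y ⟨hy0, hcon⟩
    rw [← hxy] at this
    rcases le_max_iff.1 this with h | h <;> linarith
  · exact himm x (ball_subset_ball ((min_le_left _ _).trans (min_le_left _ _)) hx)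

theorem InjNear.mono {f : E2 → E3} {t : E2 → ℝ} {q : E2} {r δ r' : ℝ}
    (h : InjNear f t q r δ) (h0 : 0 < r') (h1 : r' ≤ r) : InjNear f t q r' δ :=
  ⟨h0, h.hδ, h.hδt, fun x hx => h.near x (ball_subset_ball h1 hx),
    fun x hx => h.inj x (ball_subset_ball h1 hx), fun x hx => h.imm x (ball_subset_ball h1 hx)⟩

theorem level_inj {f : E2 → E3} {t : E2 → ℝ} (S : Stg f t) {q : E2} {r δ a b : ℝ}
    (h : InjNear f t q r δ) {e : E2 → ℝ} (he : ∀ z ∉ ball q r, e z = t z)
    (ha : t q - δ ≤ a) (hb : b ≤ t q + δ) :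
    ∀ x y, a ≤ e x → e x ≤ b → e x = e y → f x = f y → x = y := by
  intro x y hx1 hx2 hxy hf
  have hδt := h.hδt
  by_cases hx : x ∈ ball q r
  · refine h.inj x hx y ?_ hf
    by_cases hy : y ∈ ball q r
    · exact h.near y hy
    · rw [← he y hy, ← hxy, abs_le]
      constructor <;> linarith
  · by_cases hy : y ∈ ball q r
    · refine (h.inj y hy x ?_ hf.symm).symm
      rw [← he x hx, abs_le]
      constructor <;> linarith
    · rw [he x hx] at hx1 hx2 hxy
      rw [he y hy] at hxy
      exact S.inj x y (by linarith) (by linarith) hf hxy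

theorem level_imm {f : E2 → E3} {t : E2 → ℝ} (S : Stg f t) {q : E2} {r r' δ a : ℝ}
    (h : InjNear f t q r δ) (hr' : r' < r) {e : E2 → ℝ} (he : ∀ z ∉ closedBall q r', e z = t z)
    (ha : t q - δ ≤ a) :
    ∀ x, a ≤ e x → ∀ u, fderiv ℝ f x u = 0 → fderiv ℝ e x u = 0 → u = 0 := by
  intro x hx u hu1 hu2
  have hδt := h.hδt
  by_cases hxb : x ∈ ball q r
  · exact (injective_iff_map_eq_zero _).1 (h.imm x hxb) u hu1
  · have hxb' : x ∉ closedBall q r' := fun hcon => hxb (closedBall_subset_ball hr' hcon)
    have hev : e =ᶠ[𝓝 x] t := by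
      filter_upwards [isClosed_closedBall.isOpen_compl.mem_nhds hxb'] with y hy
      exact he y hy
    rw [hev.fderiv_eq] at hu2
    rw [he x hxb'] at hx
    exact S.imm x (by linarith) u hu1 hu2

/-- A critical point is isolated (for the maxima and saddles of the setting), and by `S.distinct`
there is no other critical point at nearly the same height. -/
theorem exists_slab {f : E2 → E3} {t : E2 → ℝ} (S : Stg f t) {q : E2} (hq : 0 < t q)
    (hq' : fderiv ℝ t q = 0) :
    ∃ δ > 0, δ < t q ∧ ∀ x, |t x - t q| ≤ δ → x ≠ q → fderiv ℝ t x ≠ 0 := by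
  obtain ⟨r, hr, hiso⟩ : ∃ r > 0, ∀ z ∈ ball q r, z ≠ q → fderiv ℝ t z ≠ 0 := by
    rcases S.crit q hq hq' with ⟨r, hr, h⟩ | ⟨X, Y, u, v, r, hr, h⟩
    · refine ⟨r, hr, fun z hz hzq h0 => ?_⟩
      have := h z hz hzq
      rw [h0] at this
      simp at this
    · refine ⟨r, hr, fun z hz hzq h0 => ?_⟩
      have h1 := h 0 ⟨by norm_num, by norm_num⟩
      rcases le_total |(Real.cosh 0 • X - Real.sinh 0 • Y) (z - q)|
        |(Real.cosh 0 • Y - Real.sinh 0 • X) (z - q)| with h2 | h2
      · have := h1.vert z hz hzq h2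
        rw [h0] at this
        simp at this
      · have := h1.horiz z hz hzq h2
        rw [h0] at this
        simp at this
  have hcl : IsClosed {x | fderiv ℝ t x = 0} :=
    isClosed_eq (S.smootht.continuous_fderiv (by simp)) continuous_const
  have hY : IsCompact (({x | 0 ≤ t x} ∩ {x | fderiv ℝ t x = 0}) ∩ (ball q r)ᶜ) :=
    ((compact_slab S le_rfl).inter_right hcl).inter_right isOpen_ball.isClosed_compl
  obtain ⟨μ2, hμ2, hY2⟩ := hY.exists_forall_le' (f := fun y => |t y - t q|) (a := 0)
    ((S.smootht.continuous.sub continuous_const).abs.continuousOn)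
    (by
      rintro y ⟨⟨hy1, hy2⟩, hy3⟩
      rw [abs_pos, sub_ne_zero]
      intro hcon
      have hy1' : 0 < t y := by
        rw [hcon]
        exact hq
      have := S.distinct y q hy1' hq hy2 hq' hcon
      rw [this] at hy3
      exact hy3 (mem_ball_self hr))
  refine ⟨min (μ2 / 2) (t q / 2), by positivity, ?_, fun x hx hxq h0 => ?_⟩
  · have := min_le_right (μ2 / 2) (t q / 2)
    linarith
  · have h1 : |t x - t q| ≤ μ2 / 2 := hx.trans (min_le_left _ _)
    have h2 : |t x - t q| ≤ t q / 2 := hx.trans (min_le_right _ _)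
    by_cases hxb : x ∈ ball q r
    · exact hiso x hxb hxq h0
    · have h3 : 0 ≤ t x := by
        have := (abs_le.1 h2).1
        linarith
      have := hY2 x ⟨⟨h3, h0⟩, hxb⟩
      linarith

end Pool.Agent.Lib_MP_752436_rc
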