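import Pool.Agent.Lib_MP_752436_rc.Defs

/-!
PIECE BUMP: a smooth bump function on the line which is monotone on both sides and whose slope is
bounded away from `0` where its value is bounded away from `0` and `1`.
-/

open MeasureTheory Metric Set
open scoped ContDiff Topology

namespace Pool.Agent.Lib_MP_752436_rc

/-- The derivative of the glue function `exp (-1/x)`. -/
lemma glue_hasDerivAt (x : ℝ) :
    HasDerivAt expNegInvGlue ((x⁻¹) ^ 2 * expNegInvGlue x) x := by
  have h := expNegInvGlue.hasDerivAt_polynomial_eval_inv_mul 1 x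
  simpa using h

/-- The derivative of the smooth transition function. -/
lemma trans_hasDerivAt (x : ℝ) :
    HasDerivAt Real.smoothTransition
      (((x⁻¹) ^ 2 + ((1 - x)⁻¹) ^ 2) * (Real.smoothTransition x * (1 - Real.smoothTransition x)))
      x := by
  have hd : expNegInvGlue x + expNegInvGlue (1 - x) ≠ 0 :=
    (Real.smoothTransition.pos_denom x).ne'
  have h1 := glue_hasDerivAt x
  have h2 : HasDerivAt (fun y : ℝ => expNegInvGlue (1 - y))
      ((((1 - x)⁻¹) ^ 2 * expNegInvGlue (1 - x)) * (-1)) x := by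
    have h3 : HasDerivAt (fun y : ℝ => 1 - y) (-1) x := by
      simpa using (hasDerivAt_id x).const_sub 1
    exact HasDerivAt.comp x (glue_hasDerivAt (1 - x)) h3
  have h4 : HasDerivAt (fun y : ℝ => expNegInvGlue y / (expNegInvGlue y + expNegInvGlue (1 - y)))
      (((x⁻¹) ^ 2 * expNegInvGlue x * (expNegInvGlue x + expNegInvGlue (1 - x))
        - expNegInvGlue x * ((x⁻¹) ^ 2 * expNegInvGlue x
          + (((1 - x)⁻¹) ^ 2 * expNegInvGlue (1 - x)) * (-1)))
        / (expNegInvGlue x + expNegInvGlue (1 - x)) ^ 2) x :=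
    h1.div (h1.add h2) hd
  have h5 : Real.smoothTransition
      = fun y : ℝ => expNegInvGlue y / (expNegInvGlue y + expNegInvGlue (1 - y)) := rfl
  rw [h5]
  refine h4.congr_deriv ?_
  simp only []
  generalize (x⁻¹) ^ 2 = p
  generalize ((1 - x)⁻¹) ^ 2 = q
  revert hd
  generalize expNegInvGlue x = g
  generalize expNegInvGlue (1 - x) = h
  intro hd
  field_simp
  ring

/-- The bump function. -/
noncomputable def bumpR (x : ℝ) : ℝ := Real.smoothTransition ((1 - x ^ 2) * (4 / 3))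

lemma bumpR_hasDerivAt (x : ℝ) :
    HasDerivAt bumpR
      ((((((1 - x ^ 2) * (4 / 3))⁻¹) ^ 2 + ((1 - (1 - x ^ 2) * (4 / 3))⁻¹) ^ 2)
        * (bumpR x * (1 - bumpR x))) * (-(8 / 3) * x)) x := by
  have h1 : HasDerivAt (fun y : ℝ => (1 - y ^ 2) * (4 / 3)) (-(8 / 3) * x) x := by
    have h2 : HasDerivAt (fun y : ℝ => y ^ 2) (2 * x) x := by
      simpa using hasDerivAt_pow 2 x
    have h3 := (h2.const_sub 1).mul_const (4 / 3 : ℝ)
    refine h3.congr_deriv ?_
    ring
  exact HasDerivAt.comp x (trans_hasDerivAt ((1 - x ^ 2) * (4 / 3))) h1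

/-- PIECE BUMP: there is a bump function. -/
theorem exists_isBumpFn : ∃ ψ : ℝ → ℝ, IsBumpFn ψ := by
  refine ⟨bumpR, ?_, ?_, ?_, ?_, ?_, ?_, ?_⟩
  · have h : ContDiff ℝ ∞ (fun x : ℝ => (1 - x ^ 2) * (4 / 3)) := by fun_prop
    exact (Real.smoothTransition.contDiff).comp h
  · intro x hx
    refine Real.smoothTransition.one_of_one_le ?_
    have h := abs_le.1 hx
    nlinarith [h.1, h.2]
  · intro x hx
    refine Real.smoothTransition.zero_of_nonpos ?_
    have h : (1 : ℝ) ≤ x ^ 2 := by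
      have := sq_abs x
      nlinarith [abs_nonneg x]
    nlinarith
  · intro x
    exact Real.smoothTransition.nonneg _
  · intro x
    exact Real.smoothTransition.le_one _
  · intro x
    rw [(bumpR_hasDerivAt x).deriv]
    have h0 : 0 ≤ bumpR x := Real.smoothTransition.nonneg _
    have h1 : 0 ≤ 1 - bumpR x := sub_nonneg.2 (Real.smoothTransition.le_one _)
    have h2 : 0 ≤ (((((1 - x ^ 2) * (4 / 3))⁻¹) ^ 2 + ((1 - (1 - x ^ 2) * (4 / 3))⁻¹) ^ 2)
        * (bumpR x * (1 - bumpR x))) := by positivity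
    nlinarith [mul_nonneg h2 (sq_nonneg x)]
  · intro κ hκ
    refine ⟨2 / 3 * κ ^ 2, by positivity, ?_⟩
    intro x hx1 hx2
    rw [(bumpR_hasDerivAt x).deriv]
    have hpos : 0 < (1 - x ^ 2) * (4 / 3) := by
      by_contra hcon
      have : bumpR x = 0 := Real.smoothTransition.zero_of_nonpos (not_lt.1 hcon)
      linarith
    have hlt : (1 - x ^ 2) * (4 / 3) < 1 := by
      by_contra hcon
      have : bumpR x = 1 := Real.smoothTransition.one_of_one_le (not_lt.1 hcon)
      linarith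
    have hx4 : 1 / 4 ≤ x ^ 2 := by nlinarith
    set u := (1 - x ^ 2) * (4 / 3) with hu
    have hinv : 1 ≤ (u⁻¹) ^ 2 := by
      have h1 : 1 ≤ u⁻¹ := (one_le_inv₀ hpos).2 hlt.le
      nlinarith
    have hprod : κ ^ 2 ≤ bumpR x * (1 - bumpR x) := by nlinarith
    have hsum : 1 ≤ (u⁻¹) ^ 2 + ((1 - u)⁻¹) ^ 2 := by
      have := sq_nonneg ((1 - u)⁻¹)
      linarith
    have hbig : κ ^ 2 ≤ ((u⁻¹) ^ 2 + ((1 - u)⁻¹) ^ 2) * (bumpR x * (1 - bumpR x)) := by
      have h0 : 0 ≤ bumpR x * (1 - bumpR x) := le_trans (sq_nonneg κ) hprod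
      nlinarith [mul_le_mul_of_nonneg_right hsum h0]
    have hfin : κ ^ 2 * (1 / 4)
        ≤ (((u⁻¹) ^ 2 + ((1 - u)⁻¹) ^ 2) * (bumpR x * (1 - bumpR x))) * x ^ 2 :=
      mul_le_mul hbig hx4 (by norm_num) (le_trans (sq_nonneg κ) hbig)
    nlinarith [hfin]

end Pool.Agent.Lib_MP_752436_rc
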