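import Pool.Agent.Lib_MP_752436_rc.Defs

/-!
Part of PIECE NORM: a nondegenerate critical point with a negative direction of the Hessian is a
maximum or a saddle in the sense of `MaxAt`, `SaddleAt`.
-/

open MeasureTheory Metric Set
open scoped ContDiff Topology

namespace Pool.Agent.Lib_MP_752436_rc

open Pool.Agent.Lib_MP_752436_gt Pool.Agent.Lib_MP_752436_rb

theorem crittype_symm {t : E2 → ℝ} (ht : ContDiff ℝ ∞ t) (q u w : E2) :
    fderiv ℝ (fderiv ℝ t) q u w = fderiv ℝ (fderiv ℝ t) q w u := by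
  have h : IsSymmSndFDerivAt ℝ t q := ht.contDiffAt.isSymmSndFDerivAt (by
    simp only [minSmoothness_of_isRCLikeNormedField]
    exact WithTop.coe_le_coe.2 (le_top : (2 : ℕ∞) ≤ ⊤))
  exact h.eq _ _

/-- First order Taylor expansion of the derivative at a critical point. -/
theorem crittype_taylor {t : E2 → ℝ} (ht : ContDiff ℝ ∞ t) {q : E2} (h0 : fderiv ℝ t q = 0)
    {ε : ℝ} (hε : 0 < ε) :
    ∃ r > 0, ∀ z ∈ ball q r, ∀ w,
      |fderiv ℝ t z w - fderiv ℝ (fderiv ℝ t) q (z - q) w| ≤ ε * ‖z - q‖ * ‖w‖ := by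
  have h1 : HasFDerivAt (fderiv ℝ t) (fderiv ℝ (fderiv ℝ t) q) q :=
    (((ht.fderiv_right (m := ∞) (by simp)).differentiable (by simp)) q).hasFDerivAt
  have h2 := (hasFDerivAt_iff_isLittleO.1 h1).def hε
  obtain ⟨r, hr, hball⟩ := Metric.eventually_nhds_iff_ball.1 h2
  refine ⟨r, hr, fun z hz w => ?_⟩
  have h3 := hball z hz
  rw [h0, sub_zero] at h3
  have h4 := (fderiv ℝ t z - fderiv ℝ (fderiv ℝ t) q (z - q)).le_opNorm w
  rw [sub_apply, Real.norm_eq_abs] at h4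
  exact h4.trans (mul_le_mul_of_nonneg_right h3 (norm_nonneg w))

theorem crittype_max {t : E2 → ℝ} (ht : ContDiff ℝ ∞ t) {q : E2} (h0 : fderiv ℝ t q = 0)
    (hneg : ∀ w, w ≠ 0 → fderiv ℝ (fderiv ℝ t) q w w < 0) : MaxAt t q := by
  set H := fderiv ℝ (fderiv ℝ t) q with hH
  have hcont : Continuous fun w : E2 => H w w := H.continuous.clm_apply continuous_id
  obtain ⟨w₀, hw₀, hmax⟩ := (isCompact_sphere (0 : E2) 1).exists_isMaxOn
    ⟨EuclideanSpace.single 0 1, by simp⟩ hcont.continuousOn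
  have hw₀0 : w₀ ≠ 0 := by
    intro h
    rw [h] at hw₀
    simp at hw₀
  have hm : 0 < -(H w₀ w₀) := by linarith [hneg w₀ hw₀0]
  have hbound : ∀ w, H w w ≤ (H w₀ w₀) * ‖w‖ ^ 2 := by
    intro w
    by_cases hw : w = 0
    · simp [hw]
    have hw' : 0 < ‖w‖ := norm_pos_iff.2 hw
    have h1 : ‖w‖⁻¹ • w ∈ sphere (0 : E2) 1 := by
      rw [mem_sphere_zero_iff_norm, norm_smul, norm_inv, norm_norm, inv_mul_cancel₀ hw'.ne']
    have h2 : H (‖w‖⁻¹ • w) (‖w‖⁻¹ • w) ≤ H w₀ w₀ := hmax h1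
    have h3 : H (‖w‖⁻¹ • w) (‖w‖⁻¹ • w) = (‖w‖⁻¹) ^ 2 * H w w := by
      simp only [map_smul, smul_apply, smul_eq_mul]
      ring
    rw [h3] at h2
    calc H w w = ‖w‖ ^ 2 * ((‖w‖⁻¹) ^ 2 * H w w) := by field_simp
      _ ≤ ‖w‖ ^ 2 * H w₀ w₀ := mul_le_mul_of_nonneg_left h2 (by positivity)
      _ = (H w₀ w₀) * ‖w‖ ^ 2 := by ring
  obtain ⟨r, hr, hball⟩ := crittype_taylor ht h0 (ε := -(H w₀ w₀) / 2) (by linarith)
  refine ⟨r, hr, fun z hz hzq => ?_⟩
  have h1 := hball z hz (z - q)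
  have h2 := hbound (z - q)
  have hzq' : 0 < ‖z - q‖ := norm_pos_iff.2 (sub_ne_zero.2 hzq)
  have h3 := (abs_le.1 h1).2
  have h4 : 0 < ‖z - q‖ ^ 2 := by positivity
  nlinarith

/-- The hyperbolic rotation of a frame. -/
theorem Frame.rotate {X Y : E2 →L[ℝ] ℝ} {u v : E2} (h : Frame X Y u v) (θ : ℝ) :
    Frame (Real.cosh θ • X - Real.sinh θ • Y) (Real.cosh θ • Y - Real.sinh θ • X)
      (Real.cosh θ • u + Real.sinh θ • v) (Real.cosh θ • v + Real.sinh θ • u) := by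
  have hc := Real.cosh_sq_sub_sinh_sq θ
  refine ⟨?_, ?_, ?_, ?_, ?_⟩
  · simp only [sub_apply, smul_apply, smul_eq_mul, map_add, map_smul, h.Xu, h.Xv, h.Yu, h.Yv]
    nlinarith
  · simp only [sub_apply, smul_apply, smul_eq_mul, map_add, map_smul, h.Xu, h.Xv, h.Yu, h.Yv]
    ring
  · simp only [sub_apply, smul_apply, smul_eq_mul, map_add, map_smul, h.Xu, h.Xv, h.Yu, h.Yv]
    ring
  · simp only [sub_apply, smul_apply, smul_eq_mul, map_add, map_smul, h.Xu, h.Xv, h.Yu, h.Yv]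
    nlinarith
  · intro z
    simp only [sub_apply, smul_apply, smul_eq_mul]
    have h1 := h.repr z
    have h2 : (Real.cosh θ * X z - Real.sinh θ * Y z) • (Real.cosh θ • u + Real.sinh θ • v) +
        (Real.cosh θ * Y z - Real.sinh θ * X z) • (Real.cosh θ • v + Real.sinh θ • u) =
        (Real.cosh θ ^ 2 - Real.sinh θ ^ 2) • (X z • u + Y z • v) := by
      module
    rw [h2, hc, one_smul, h1]

/-- The frame of an orthonormal pair of an indefinite form. -/
theorem crittype_frame {H : E2 →L[ℝ] E2 →L[ℝ] ℝ} (hsymm : ∀ a b, H a b = H b a) {u v : E2}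
    (huu : H u u = -1) (hvv : H v v = 1) (huv : H u v = 0) : Frame (-(H u)) (H v) u v := by
  have hvu : H v u = 0 := by rw [hsymm, huv]
  refine ⟨?_, ?_, ?_, ?_, ?_⟩
  · rw [neg_apply, huu]; ring
  · rw [neg_apply, huv]; ring
  · exact hvu
  · exact hvv
  · intro z
    have hli : LinearIndependent ℝ ![u, v] := by
      rw [LinearIndependent.pair_iff]
      intro s r hsr
      have h1 : H u (s • u + r • v) = 0 := by rw [hsr, map_zero]
      have h2 : H v (s • u + r • v) = 0 := by rw [hsr, map_zero]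
      rw [map_add, map_smul, map_smul, huu, huv, smul_eq_mul, smul_eq_mul] at h1
      rw [map_add, map_smul, map_smul, hvu, hvv, smul_eq_mul, smul_eq_mul] at h2
      exact ⟨by linarith, by linarith⟩
    have hspan : Submodule.span ℝ (Set.range ![u, v]) = ⊤ :=
      hli.span_eq_top_of_card_eq_finrank (by simp)
    have hz : z ∈ Submodule.span ℝ (Set.range ![u, v]) := by
      rw [hspan]
      exact Submodule.mem_top
    have hrange : Set.range ![u, v] = {u, v} := by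
      ext w
      simp only [Set.mem_range, Set.mem_insert_iff, Set.mem_singleton_iff]
      constructor
      · rintro ⟨i, rfl⟩
        fin_cases i
        · exact Or.inl rfl
        · exact Or.inr rfl
      · rintro (rfl | rfl)
        · exact ⟨0, rfl⟩
        · exact ⟨1, rfl⟩
    rw [hrange, Submodule.mem_span_pair] at hz
    obtain ⟨s, r, rfl⟩ := hz
    have h1 : (-(H u)) (s • u + r • v) = s := by
      rw [neg_apply, map_add, map_smul, map_smul, huu, huv, smul_eq_mul, smul_eq_mul]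
      ring
    have h2 : H v (s • u + r • v) = r := by
      rw [map_add, map_smul, map_smul, hvu, hvv, smul_eq_mul, smul_eq_mul]
      ring
    rw [h1, h2]

/-- A normalised pair of directions. -/
theorem crittype_pair {H : E2 →L[ℝ] E2 →L[ℝ] ℝ} (hsymm : ∀ a b, H a b = H b a)
    (hneg : ∃ u, H u u < 0) (hpos : ∃ v, 0 < H v v) :
    ∃ u v : E2, H u u = -1 ∧ H v v = 1 ∧ H u v = 0 := by
  obtain ⟨a, ha⟩ := hneg
  obtain ⟨v', hv'⟩ := hpos
  -- normalise `v`
  obtain ⟨v, hv⟩ : ∃ v : E2, v = (Real.sqrt (H v' v'))⁻¹ • v' := ⟨_, rfl⟩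
  have hvv : H v v = 1 := by
    rw [hv, map_smul, map_smul, smul_apply, smul_eq_mul, smul_eq_mul]
    have h1 : Real.sqrt (H v' v') ^ 2 = H v' v' := Real.sq_sqrt hv'.le
    have h2 : 0 < Real.sqrt (H v' v') := Real.sqrt_pos.2 hv'
    field_simp
    exact h1.symm
  -- the orthogonal direction
  obtain ⟨u', hu'⟩ : ∃ u' : E2, u' = a - H a v • v := ⟨_, rfl⟩
  have hu'v : H u' v = 0 := by
    rw [hu', map_sub, sub_apply, map_smul, smul_apply, smul_eq_mul, hvv]
    ring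
  have hu'u' : H u' u' < 0 := by
    have h1 : H u' u' = H a a - H a v ^ 2 := by
      have h2 : H u' u' = H u' a - H a v * H u' v := by
        conv_lhs => rw [show H u' u' = H u' (a - H a v • v) by rw [← hu']]
        rw [map_sub, map_smul, smul_eq_mul]
      rw [h2, hu'v, hu', map_sub, sub_apply, map_smul, smul_apply, smul_eq_mul, hsymm v a]
      ring
    rw [h1]
    nlinarith [sq_nonneg (H a v)]
  refine ⟨(Real.sqrt (-(H u' u')))⁻¹ • u', v, ?_, hvv, ?_⟩
  · rw [map_smul, map_smul, smul_apply, smul_eq_mul, smul_eq_mul]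
    have h1 : Real.sqrt (-(H u' u')) ^ 2 = -(H u' u') := Real.sq_sqrt (by linarith)
    have h2 : 0 < Real.sqrt (-(H u' u')) := Real.sqrt_pos.2 (by linarith)
    field_simp
    linarith
  · rw [map_smul, smul_apply, smul_eq_mul, hu'v, mul_zero]

theorem crittype_saddle {t : E2 → ℝ} (ht : ContDiff ℝ ∞ t) {q : E2} (h0 : fderiv ℝ t q = 0)
    (hneg : ∃ u, fderiv ℝ (fderiv ℝ t) q u u < 0) (hpos : ∃ v, 0 < fderiv ℝ (fderiv ℝ t) q v v) :
    SaddleAt t q := by
  obtain ⟨H, hH⟩ : ∃ H, H = fderiv ℝ (fderiv ℝ t) q := ⟨_, rfl⟩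
  have hsymm : ∀ a b, H a b = H b a := by rw [hH]; exact crittype_symm ht q
  rw [← hH] at hneg hpos
  obtain ⟨u, v, huu, hvv, huv⟩ := crittype_pair hsymm hneg hpos
  have hframe := crittype_frame hsymm huu hvv huv
  obtain ⟨X, hX⟩ : ∃ X, X = -(H u) := ⟨_, rfl⟩
  obtain ⟨Y, hY⟩ : ∃ Y, Y = H v := ⟨_, rfl⟩
  rw [← hX, ← hY] at hframe
  have hXa : ∀ z, H z u = -(X z) := fun z => by rw [hX, neg_apply, hsymm, neg_neg]
  have hYa : ∀ z, H z v = Y z := fun z => by rw [hY, hsymm]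
  -- bounds
  set K : ℝ := Real.cosh 1 * (‖u‖ + ‖v‖) + 1 with hK
  have hcosh1 : 0 < Real.cosh 1 := Real.cosh_pos 1
  have hK0 : 0 < K := by positivity
  have hcs : ∀ θ ∈ Icc (-1 : ℝ) 1, |Real.cosh θ| ≤ Real.cosh 1 ∧ |Real.sinh θ| ≤ Real.cosh 1 := by
    intro θ hθ
    have h1 : Real.cosh θ ≤ Real.cosh 1 := by
      rw [Real.cosh_le_cosh]
      rw [abs_one]
      exact abs_le.2 ⟨hθ.1, hθ.2⟩
    have h2 := Real.cosh_pos θ
    refine ⟨by rw [abs_of_pos h2]; exact h1, ?_⟩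
    have h3 := Real.cosh_sq_sub_sinh_sq θ
    have h4 : |Real.sinh θ| ≤ |Real.cosh θ| := by
      rw [← sq_le_sq]
      linarith
    rw [abs_of_pos h2] at h4
    linarith
  obtain ⟨r, hr, hball⟩ := crittype_taylor ht h0 (ε := (4 * K ^ 2)⁻¹) (by positivity)
  refine ⟨X, Y, u, v, r, hr, fun θ hθ => ?_⟩
  obtain ⟨hc, hs⟩ := hcs θ hθ
  have hfr := hframe.rotate θ
  set Xθ := Real.cosh θ • X - Real.sinh θ • Y with hXθ
  set Yθ := Real.cosh θ • Y - Real.sinh θ • X with hYθ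
  set uθ := Real.cosh θ • u + Real.sinh θ • v with huθ
  set vθ := Real.cosh θ • v + Real.sinh θ • u with hvθ
  have huK : ‖uθ‖ ≤ K := by
    have h1 : ‖uθ‖ ≤ |Real.cosh θ| * ‖u‖ + |Real.sinh θ| * ‖v‖ := by
      rw [huθ]
      refine (norm_add_le _ _).trans ?_
      rw [norm_smul, norm_smul, Real.norm_eq_abs, Real.norm_eq_abs]
    have h2 : |Real.cosh θ| * ‖u‖ ≤ Real.cosh 1 * ‖u‖ := by gcongr
    have h3 : |Real.sinh θ| * ‖v‖ ≤ Real.cosh 1 * ‖v‖ := by gcongr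
    rw [hK]
    linarith
  have hvK : ‖vθ‖ ≤ K := by
    have h1 : ‖vθ‖ ≤ |Real.cosh θ| * ‖v‖ + |Real.sinh θ| * ‖u‖ := by
      rw [hvθ]
      refine (norm_add_le _ _).trans ?_
      rw [norm_smul, norm_smul, Real.norm_eq_abs, Real.norm_eq_abs]
    have h2 : |Real.cosh θ| * ‖v‖ ≤ Real.cosh 1 * ‖v‖ := by gcongr
    have h3 : |Real.sinh θ| * ‖u‖ ≤ Real.cosh 1 * ‖u‖ := by gcongr
    rw [hK]
    linarith
  have hnorm : ∀ z, ‖z‖ ≤ |Xθ z| * K + |Yθ z| * K := by
    intro z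
    have h1 := hfr.repr z
    calc ‖z‖ = ‖Xθ z • uθ + Yθ z • vθ‖ := by rw [h1]
      _ ≤ |Xθ z| * ‖uθ‖ + |Yθ z| * ‖vθ‖ := by
        refine (norm_add_le _ _).trans ?_
        rw [norm_smul, norm_smul, Real.norm_eq_abs, Real.norm_eq_abs]
      _ ≤ |Xθ z| * K + |Yθ z| * K := by gcongr
  have hHv : ∀ z, H z vθ = Yθ z := by
    intro z
    rw [hvθ, hYθ, map_add, map_smul, map_smul, hXa, hYa, sub_apply, smul_apply, smul_apply]
    simp only [smul_eq_mul]
    ring
  have hHu : ∀ z, H z uθ = -(Xθ z) := by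
    intro z
    rw [huθ, hXθ, map_add, map_smul, map_smul, hXa, hYa, sub_apply, smul_apply, smul_apply]
    simp only [smul_eq_mul]
    ring
  refine ⟨hfr, fun z hz hzq hle => ?_, fun z hz hzq hle => ?_⟩
  · have h1 := hball z hz vθ
    rw [← hH, hHv] at h1
    have h2 := hnorm (z - q)
    have h3 : ‖z - q‖ ≤ 2 * K * |Yθ (z - q)| := by nlinarith [abs_nonneg (Yθ (z - q))]
    have hzq' : 0 < ‖z - q‖ := norm_pos_iff.2 (sub_ne_zero.2 hzq)
    have hY0 : 0 < |Yθ (z - q)| := by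
      by_contra hcon
      have : |Yθ (z - q)| = 0 := le_antisymm (not_lt.1 hcon) (abs_nonneg _)
      rw [this] at h3
      linarith
    have h4 : (4 * K ^ 2)⁻¹ * ‖z - q‖ * ‖vθ‖ ≤ |Yθ (z - q)| / 2 := by
      calc (4 * K ^ 2)⁻¹ * ‖z - q‖ * ‖vθ‖ ≤ (4 * K ^ 2)⁻¹ * (2 * K * |Yθ (z - q)|) * K := by
            gcongr
        _ = |Yθ (z - q)| / 2 := by field_simp; norm_num
    have h5 := h1.trans h4
    have h6 : Yθ (z - q) * fderiv ℝ t z vθ =
        |Yθ (z - q)| ^ 2 + Yθ (z - q) * (fderiv ℝ t z vθ - Yθ (z - q)) := by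
      rw [sq_abs]; ring
    have h7 : |Yθ (z - q) * (fderiv ℝ t z vθ - Yθ (z - q))| ≤
        |Yθ (z - q)| * (|Yθ (z - q)| / 2) := by
      rw [abs_mul]
      gcongr
    rw [h6]
    have h8 := (abs_le.1 h7).1
    nlinarith
  · have h1 := hball z hz uθ
    rw [← hH, hHu] at h1
    have h2 := hnorm (z - q)
    have h3 : ‖z - q‖ ≤ 2 * K * |Xθ (z - q)| := by nlinarith [abs_nonneg (Xθ (z - q))]
    have hzq' : 0 < ‖z - q‖ := norm_pos_iff.2 (sub_ne_zero.2 hzq)
    have hX0 : 0 < |Xθ (z - q)| := by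
      by_contra hcon
      have : |Xθ (z - q)| = 0 := le_antisymm (not_lt.1 hcon) (abs_nonneg _)
      rw [this] at h3
      linarith
    have h4 : (4 * K ^ 2)⁻¹ * ‖z - q‖ * ‖uθ‖ ≤ |Xθ (z - q)| / 2 := by
      calc (4 * K ^ 2)⁻¹ * ‖z - q‖ * ‖uθ‖ ≤ (4 * K ^ 2)⁻¹ * (2 * K * |Xθ (z - q)|) * K := by
            gcongr
        _ = |Xθ (z - q)| / 2 := by field_simp; norm_num
    have h5 := h1.trans h4
    have h6 : Xθ (z - q) * fderiv ℝ t z uθ =
        -|Xθ (z - q)| ^ 2 + Xθ (z - q) * (fderiv ℝ t z uθ - -Xθ (z - q)) := by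
      rw [sq_abs]; ring
    have h7 : |Xθ (z - q) * (fderiv ℝ t z uθ - -Xθ (z - q))| ≤
        |Xθ (z - q)| * (|Xθ (z - q)| / 2) := by
      rw [abs_mul]
      gcongr
    rw [h6]
    have h8 := (abs_le.1 h7).2
    nlinarith

/-- A nondegenerate critical point with a negative direction. -/
theorem crittype {t : E2 → ℝ} (ht : ContDiff ℝ ∞ t) {q : E2} (h0 : fderiv ℝ t q = 0)
    (hnd : ∀ u, u ≠ 0 → ∃ w, fderiv ℝ (fderiv ℝ t) q u w ≠ 0)
    (hneg : ∃ u, fderiv ℝ (fderiv ℝ t) q u u < 0) : MaxAt t q ∨ SaddleAt t q := by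
  by_cases hpos : ∃ v, 0 < fderiv ℝ (fderiv ℝ t) q v v
  · exact Or.inr (crittype_saddle ht h0 hneg hpos)
  · left
    push Not at hpos
    refine crittype_max ht h0 fun w hw => lt_of_le_of_ne (hpos w) fun hww => ?_
    obtain ⟨v, hv⟩ := hnd w hw
    have hsymm := crittype_symm ht q
    set H := fderiv ℝ (fderiv ℝ t) q with hH
    -- `H (w + s v) (w + s v) ≤ 0` for all `s` implies `H w v = 0`
    have h1 : ∀ s : ℝ, 2 * s * H w v + s ^ 2 * H v v ≤ 0 := by
      intro s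
      have := hpos (w + s • v)
      simp only [map_add, map_smul, add_apply, smul_apply, smul_eq_mul, hww, hsymm v w] at this
      nlinarith
    apply hv
    by_contra hne
    have h2 := h1 (H w v / (1 + |H v v|))
    have h3 : 0 < 1 + |H v v| := by positivity
    have h4 : 0 < H w v ^ 2 := by positivity
    have h5 : 2 * (H w v / (1 + |H v v|)) * H w v + (H w v / (1 + |H v v|)) ^ 2 * H v v =
        H w v ^ 2 * (2 * (1 + |H v v|) + H v v) / (1 + |H v v|) ^ 2 := by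
      field_simp
    rw [h5] at h2
    have h6 : 0 < 2 * (1 + |H v v|) + H v v := by
      have := neg_abs_le (H v v)
      have := abs_nonneg (H v v)
      linarith
    have h7 : 0 < H w v ^ 2 * (2 * (1 + |H v v|) + H v v) / (1 + |H v v|) ^ 2 := by positivity
    linarith

end Pool.Agent.Lib_MP_752436_rc
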