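import Pool.Agent.Lib_MP_752436_rb.Defs

/-!
From a Morse slice disc without interior local minima to a ribbon disc in `R^3` (top-down
induction over the levels of the height).

Setting: `f : R^2 → R^3` smooth, `t : R^2 → R` smooth (the height), the disc is `{0 ≤ t}`.
`Good f e c`: the curve `f | {e = c}` bounds a ribbon immersion of `{c ≤ e}`, that is, there is a
smooth `g`, immersive on `{c ≤ e}`, all double points of which on `{c ≤ e}` lie on finitely many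
disjoint ribbon pairs of arcs, and `g = f` on `{e = c}`.

Plan: `Good f t b` is trivial for `b` above the maximum of `t`; `Good f t b → Good f t b'` for
`b' < b` near a given level `m` (regular level, maximum, saddle); `Good f t 0` is the ribbon disc.
-/

open MeasureTheory Metric Set
open scoped ContDiff Topology

namespace Pool.Agent.Lib_MP_752436_rc

open Pool.Agent.Lib_MP_752436_gt Pool.Agent.Lib_MP_752436_rb

/-- The plane. -/
abbrev E2 : Type := EuclideanSpace ℝ (Fin 2)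

/-- The three dimensional space. -/
abbrev E3 : Type := EuclideanSpace ℝ (Fin 3)

/-- `Φ` is a diffeomorphism with inverse `Φ'`. -/
structure DiffeoPair {E : Type*} [NormedAddCommGroup E] [NormedSpace ℝ E] (Φ Φ' : E → E) :
    Prop where
  smooth : ContDiff ℝ ∞ Φ
  smooth' : ContDiff ℝ ∞ Φ'
  left : ∀ x, Φ' (Φ x) = x
  right : ∀ x, Φ (Φ' x) = x

/-- `α`, `β` are the two preimage arcs of a ribbon singularity of `g` on the region `{c ≤ e}`. -/
structure RPair (g : E2 → E3) (e : E2 → ℝ) (c : ℝ) (α β : ℝ → E2) : Prop where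
  arcα : IsArc α
  arcβ : IsArc β
  inside : ∀ s ∈ Icc (0 : ℝ) 1, c < e (α s)
  proper : ∀ s ∈ Ioo (0 : ℝ) 1, c < e (β s)
  left : e (β 0) = c
  right : e (β 1) = c
  disjoint : Disjoint (α '' Icc 0 1) (β '' Icc 0 1)
  same : ∀ s ∈ Icc (0 : ℝ) 1, g (α s) = g (β s)

/-- `g` is an immersion of the region `{c ≤ e}` whose double points are the disjoint ribbon
singularities with preimages `α i`, `β i`. -/
structure RData (g : E2 → E3) (e : E2 → ℝ) (c : ℝ) {ι : Type} (α β : ι → ℝ → E2) : Prop where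
  smooth : ContDiff ℝ ∞ g
  immersion : ∀ x, c ≤ e x → Function.Injective (fderiv ℝ g x)
  pair : ∀ i, RPair g e c (α i) (β i)
  disj : ∀ i j, i ≠ j → Disjoint (g ∘ α i '' Icc 0 1) (g ∘ α j '' Icc 0 1)
  double : ∀ x y, c ≤ e x → c ≤ e y → x ≠ y → g x = g y →
    ∃ i, ∃ s ∈ Icc (0 : ℝ) 1, (x = α i s ∧ y = β i s) ∨ (x = β i s ∧ y = α i s)

/-- The curve `f | {e = c}` bounds a ribbon immersion of `{c ≤ e}`. -/
def Good (f : E2 → E3) (e : E2 → ℝ) (c : ℝ) : Prop :=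
  ∃ (ι : Type) (_ : Finite ι) (α β : ι → ℝ → E2) (g : E2 → E3),
    RData g e c α β ∧ ∀ x, e x = c → g x = f x

/-- `p` is a nondegenerate maximum of `t`; only this consequence is used. -/
def MaxAt (t : E2 → ℝ) (p : E2) : Prop :=
  ∃ r > 0, ∀ z ∈ ball p r, z ≠ p → fderiv ℝ t z (z - p) < 0

/-- Linear coordinates `X`, `Y` of the plane and the dual basis `u`, `v`. -/
structure Frame (X Y : E2 →L[ℝ] ℝ) (u v : E2) : Prop where
  Xu : X u = 1
  Xv : X v = 0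
  Yu : Y u = 0
  Yv : Y v = 1
  repr : ∀ z, X z • u + Y z • v = z

/-- Near the saddle `q` the function `t` behaves like `Y ^ 2 - X ^ 2` (only signs of the partial
derivatives are used). -/
structure SadCoord (t : E2 → ℝ) (q : E2) (r : ℝ) (X Y : E2 →L[ℝ] ℝ) (u v : E2) : Prop where
  frame : Frame X Y u v
  vert : ∀ z ∈ ball q r, z ≠ q → |X (z - q)| ≤ |Y (z - q)| → 0 < Y (z - q) * fderiv ℝ t z v
  horiz : ∀ z ∈ ball q r, z ≠ q → |Y (z - q)| ≤ |X (z - q)| → X (z - q) * fderiv ℝ t z u < 0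

/-- `q` is a nondegenerate saddle of `t`: there are linear coordinates as in `SadCoord`, and they
can be rotated hyperbolically. -/
def SaddleAt (t : E2 → ℝ) (q : E2) : Prop :=
  ∃ (X Y : E2 →L[ℝ] ℝ) (u v : E2) (r : ℝ), 0 < r ∧ ∀ θ ∈ Icc (-1 : ℝ) 1,
    SadCoord t q r (Real.cosh θ • X - Real.sinh θ • Y) (Real.cosh θ • Y - Real.sinh θ • X)
      (Real.cosh θ • u + Real.sinh θ • v) (Real.cosh θ • v + Real.sinh θ • u)

/-- The setting: `(f, t)` is an embedding of the compact region `{0 ≤ t}`, `0` is a regular value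
of `t`, and all critical points in `{0 < t}` are nondegenerate saddles or maxima with distinct
critical values. -/
structure Stg (f : E2 → E3) (t : E2 → ℝ) : Prop where
  smoothf : ContDiff ℝ ∞ f
  smootht : ContDiff ℝ ∞ t
  compact : ∃ c < 0, IsCompact {x | c ≤ t x}
  inj : ∀ x y, 0 ≤ t x → 0 ≤ t y → f x = f y → t x = t y → x = y
  imm : ∀ x, 0 ≤ t x → ∀ u, fderiv ℝ f x u = 0 → fderiv ℝ t x u = 0 → u = 0
  reg : ∀ x, t x = 0 → fderiv ℝ t x ≠ 0
  crit : ∀ x, 0 < t x → fderiv ℝ t x = 0 → MaxAt t x ∨ SaddleAt t x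
  distinct : ∀ x y, 0 < t x → 0 < t y → fderiv ℝ t x = 0 → fderiv ℝ t y = 0 → t x = t y → x = y

/-- The bump functions used for the strips. -/
structure IsBumpFn (ψ : ℝ → ℝ) : Prop where
  smooth : ContDiff ℝ ∞ ψ
  one : ∀ x, |x| ≤ 1 / 2 → ψ x = 1
  zero : ∀ x, 1 ≤ |x| → ψ x = 0
  nonneg : ∀ x, 0 ≤ ψ x
  le_one : ∀ x, ψ x ≤ 1
  anti : ∀ x, x * deriv ψ x ≤ 0
  strict : ∀ κ > 0, ∃ η > 0, ∀ x, κ ≤ ψ x → ψ x ≤ 1 - κ → x * deriv ψ x ≤ -η

/-- The height after the saddle move: `t` plus a ridge of height `M` and width `w` along the core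
line `X = 0`. -/
noncomputable def ew (t : E2 → ℝ) (ψ : ℝ → ℝ) (X Y : E2 →L[ℝ] ℝ) (q : E2) (M y₀ w : ℝ) (z : E2) :
    ℝ :=
  t z + M * (ψ (X (z - q) / w) * ψ (Y (z - q) / (2 * y₀)))

/-- A box around the saddle `q` of `t`, levels `a < t q < b`; the core is the segment
`q + τ v`, `τ₁ ≤ τ ≤ τ₂`, with end points on the level `b`. -/
structure SadBox (t : E2 → ℝ) (q : E2) (a b : ℝ) (X Y : E2 →L[ℝ] ℝ) (u v : E2)
    (y₀ τ₁ τ₂ : ℝ) : Prop where
  smooth : ContDiff ℝ ∞ t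
  crit : fderiv ℝ t q = 0
  ha : a < t q
  hb : t q < b
  hy₀ : 0 < y₀
  frame : Frame X Y u v
  vert : ∀ z, |X (z - q)| ≤ 2 * y₀ → |Y (z - q)| ≤ 2 * y₀ → z ≠ q →
    |X (z - q)| ≤ |Y (z - q)| → 0 < Y (z - q) * fderiv ℝ t z v
  horiz : ∀ z, |X (z - q)| ≤ 2 * y₀ → |Y (z - q)| ≤ 2 * y₀ → z ≠ q →
    |Y (z - q)| ≤ |X (z - q)| → X (z - q) * fderiv ℝ t z u < 0
  above : ∀ τ, y₀ ≤ |τ| → |τ| ≤ 2 * y₀ → b < t (q + τ • v)
  h₁ : τ₁ < 0
  h₂ : 0 < τ₂
  h₁y : -y₀ < τ₁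
  h₂y : τ₂ < y₀
  end₁ : t (q + τ₁ • v) = b
  end₂ : t (q + τ₂ • v) = b

/-- The map `g` on `{b ≤ t}` and on the core, ready for the attachment of a thin strip. -/
structure StripMap (f g : E2 → E3) (t : E2 → ℝ) (q : E2) (b : ℝ) (v : E2) (τ₁ τ₂ : ℝ)
    {ι : Type} (α β : ι → ℝ → E2) : Prop where
  data : RData g t b α β
  boundary : ∀ x, t x = b → g x = f x
  imm : ∀ τ ∈ Icc τ₁ τ₂, Function.Injective (fderiv ℝ g (q + τ • v))
  near : ∃ U, IsOpen U ∧ (∀ τ ∈ Icc τ₁ τ₂, q + τ • v ∈ U) ∧ (∀ x ∈ U, g x = f x) ∧ InjOn g U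
  ends₁ : ∀ x, b ≤ t x → g x = g (q + τ₁ • v) → x = q + τ₁ • v
  ends₂ : ∀ x, b ≤ t x → g x = g (q + τ₂ • v) → x = q + τ₂ • v
  bdry : ∀ x, t x = b → ∀ τ ∈ Ioo τ₁ τ₂, g x ≠ g (q + τ • v)
  trans : ∀ x, b ≤ t x → ∀ τ ∈ Ioo τ₁ τ₂, g x = g (q + τ • v) →
    ∀ (η : E2) (σ : ℝ), fderiv ℝ g x η = σ • fderiv ℝ g (q + τ • v) v → η = 0 ∧ σ = 0
  free : ∀ x, b ≤ t x → ∀ τ ∈ Ioo τ₁ τ₂, g x = g (q + τ • v) →
    ∀ i, ∀ s ∈ Icc (0 : ℝ) 1, g x ≠ g (α i s)

end Pool.Agent.Lib_MP_752436_rc
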