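import Pool.Agent.Lib_MP_752436_rb.IsoExt
import Pool.Agent.Lib_MP_752436_rc.Basic

/-!
PIECE ESCAPE: in the complement of the image of a compact null set of the plane every point can be
moved off a given compact set, by an isotopy which fixes the image of the null set.
-/

open MeasureTheory Metric Set
open scoped ContDiff Topology

namespace Pool.Agent.Lib_MP_752436_rc

open Pool.Agent.Lib_MP_752436_gt Pool.Agent.Lib_MP_752436_rb

/-- The projection of the space to the plane which forgets the first coordinate. -/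
noncomputable def dropFst : E3 →ₗ[ℝ] E2 where
  toFun w := !₂[w 1, w 2]
  map_add' x y := by ext i; fin_cases i <;> simp
  map_smul' c x := by ext i; fin_cases i <;> simp

theorem dropFst_surjective : Function.Surjective dropFst := fun z =>
  ⟨!₂[0, z 0, z 1], by ext i; fin_cases i <;> simp [dropFst]⟩

/-- The cone with vertex `x₀` over the image of a null set of the plane is a null set. -/
theorem volume_cone {f : E2 → E3} (hf : ContDiff ℝ ∞ f) {N : Set E2} (hN : volume N = 0)
    (x₀ : E3) : volume {y : E3 | ∃ z ∈ N, ∃ l : ℝ, y = x₀ + l • (f z - x₀)} = 0 := by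
  let G : E3 → E3 := fun w => x₀ + w 0 • (f (dropFst w) - x₀)
  have hG : Differentiable ℝ G := by
    have h1 : Differentiable ℝ fun w : E3 => w 0 := by fun_prop
    have h2 : Differentiable ℝ fun w : E3 => dropFst w :=
      (LinearMap.toContinuousLinearMap dropFst).differentiable
    have h3 : Differentiable ℝ fun w : E3 => f (dropFst w) :=
      (hf.differentiable (by simp)).comp h2
    exact (differentiable_const x₀).add (h1.smul (h3.sub (differentiable_const x₀)))
  have hnull : volume (dropFst ⁻¹' N) = 0 := by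
    obtain ⟨T, hNT, hT, hT0⟩ := exists_measurable_superset_of_null hN
    refine measure_mono_null (preimage_mono hNT) ?_
    have h1 : ∀ᵐ z ∂(volume : Measure E2), z ∈ Tᶜ := by
      rw [ae_iff]
      simpa using hT0
    have h2 := (ae_comp_linearMap_mem_iff dropFst (volume : Measure E3) (volume : Measure E2)
      dropFst_surjective hT.compl).2 h1
    rw [ae_iff] at h2
    simpa [preimage] using h2
  refine measure_mono_null ?_
    (addHaar_image_eq_zero_of_differentiableOn_of_addHaar_eq_zero volume hG.differentiableOn hnull)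
  rintro y ⟨z, hz, l, rfl⟩
  refine ⟨!₂[l, z 0, z 1], ?_, ?_⟩
  · have : dropFst !₂[l, z 0, z 1] = z := by ext i; fin_cases i <;> simp [dropFst]
    show dropFst _ ∈ N
    rwa [this]
  · have : dropFst !₂[l, z 0, z 1] = z := by ext i; fin_cases i <;> simp [dropFst]
    show x₀ + _ • (f (dropFst _) - x₀) = _
    rw [this]
    simp

/-- A point can be moved along a segment in an open set. -/
theorem exists_move_point {W : Set E3} (hW : IsOpen W) {x y : E3}
    (h : ∀ s ∈ Icc (0 : ℝ) 1, x + s • (y - x) ∈ W) :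
    ∃ Ψ : ℝ → E3 → E3, IsIsotopy W Ψ ∧ Ψ 1 x = y := by
  let H : ℝ → EuclideanSpace ℝ (Fin 0) → E3 := fun s _ => x + s • (y - x)
  have hH : ContDiff ℝ ∞ (fun p : ℝ × EuclideanSpace ℝ (Fin 0) => H p.1 p.2) :=
    contDiff_const.add (contDiff_fst.smul contDiff_const)
  obtain ⟨Ψ, hΨ, h1⟩ := isotopy_extension_of_immersion hH (P := {0}) isCompact_singleton
    (fun s _ a _ b _ _ => Subsingleton.elim a b)
    (fun s _ a _ b c _ => Subsingleton.elim b c) hW (fun s hs a _ => h s hs)
  refine ⟨Ψ, hΨ, ?_⟩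
  have := h1 0 rfl
  simpa [H] using this

/-- Escape, by an isotopy. -/
theorem exists_escape_isotopy {f : E2 → E3} (hf : ContDiff ℝ ∞ f) {N : Set E2} (hN : volume N = 0)
    (hNc : IsCompact N) {x₀ : E3} (hx₀ : x₀ ∉ f '' N) {K : Set E3} (hK : IsCompact K) :
    ∃ Ψ : ℝ → E3 → E3, IsIsotopy (f '' N)ᶜ Ψ ∧ Ψ 1 x₀ ∉ K := by
  have hcone := volume_cone hf hN x₀
  obtain ⟨y, hyK, hyc⟩ : ∃ y, y ∉ K ∧
      y ∉ {y : E3 | ∃ z ∈ N, ∃ l : ℝ, y = x₀ + l • (f z - x₀)} := by
    by_contra hcon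
    push Not at hcon
    have h1 : Kᶜ ⊆ {y : E3 | ∃ z ∈ N, ∃ l : ℝ, y = x₀ + l • (f z - x₀)} := fun y hy => hcon y hy
    have h2 : volume Kᶜ = 0 := measure_mono_null h1 hcone
    have h3 : Kᶜ = ∅ := (hK.isClosed.isOpen_compl.measure_eq_zero_iff volume).1 h2
    have h4 : K = univ := by rwa [compl_empty_iff] at h3
    exact (noncompact_univ E3) (h4 ▸ hK)
  obtain ⟨Ψ, hΨ, h1⟩ := exists_move_point (hNc.image hf.continuous).isClosed.isOpen_compl
    (x := x₀) (y := y) (by
      rintro s hs ⟨z, hz, hzs⟩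
      rcases hs.1.eq_or_lt with h0 | h0
      · rw [← h0, zero_smul, add_zero] at hzs
        exact hx₀ ⟨z, hz, hzs⟩
      · refine hyc ⟨z, hz, s⁻¹, ?_⟩
        rw [hzs, add_sub_cancel_left, smul_smul, inv_mul_cancel₀ h0.ne', one_smul]
        abel)
  exact ⟨Ψ, hΨ, by rwa [h1]⟩

/-- **Escape.** -/
theorem exists_escape {f : E2 → E3} (hf : ContDiff ℝ ∞ f) {C : Set E2} (hC : IsCompact C)
    (hnull : volume C = 0) {y : E3} (hy : ∀ x ∈ C, f x ≠ y) {B : Set E3} (hB : IsCompact B) :
    ∃ Φ Φ' : E3 → E3, DiffeoPair Φ Φ' ∧ (∀ x ∈ C, Φ (f x) = f x) ∧ ∀ z ∈ B, Φ z ≠ y := by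
  obtain ⟨Ψ, hΨ, hΨK⟩ := exists_escape_isotopy hf hnull hC (x₀ := y)
    (by rintro ⟨x, hx, hxy⟩; exact hy x hx hxy) hB
  obtain ⟨Φ, hΦ⟩ := exists_diffeoPair_of_isotopy hΨ (s := 1) (by simp)
  refine ⟨Φ, Ψ 1, hΦ.symm, ?_, ?_⟩
  · intro x hx
    have h1 : Ψ 1 (f x) = f x := hΨ.outside 1 (f x) (by
      simp only [mem_compl_iff, not_not]
      exact ⟨x, hx, rfl⟩)
    rw [← h1, hΦ.left, h1]
  · intro z hz hzy
    apply hΨK
    rw [← hzy, hΦ.right]
    exact hz

end Pool.Agent.Lib_MP_752436_rc
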