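import Pool.Agent.Lib_MP_752436_rb.SmallDiffeo

/-!
PIECE LEVELS: the level sets of a function without critical points are moved by an isotopy of the
plane, without flows.
-/

open MeasureTheory Metric Set
open scoped ContDiff Topology Manifold

namespace Pool.Agent.Lib_MP_752436_rc

open Pool.Agent.Lib_MP_752436_gt Pool.Agent.Lib_MP_752436_rb

section General

variable {E G : Type*} [NormedAddCommGroup E] [NormedSpace ℝ E] [FiniteDimensional ℝ E]
  [NormedAddCommGroup G] [NormedSpace ℝ G]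

/-- A smooth cutoff function. -/
theorem exists_cutoff {A Z : Set E} (hA : IsClosed A) (hZ : IsClosed Z) (h : Disjoint Z A) :
    ∃ χ : E → ℝ, ContDiff ℝ ∞ χ ∧ (∀ᶠ x in 𝓝ˢ Z, χ x = 0) ∧ (∀ᶠ x in 𝓝ˢ A, χ x = 1) ∧
      ∀ x, χ x ∈ Icc (0 : ℝ) 1 := by
  obtain ⟨f, h0, h1, h2⟩ := exists_contMDiffMap_zero_one_nhds_of_isClosed (n := (⊤ : ℕ∞))
    𝓘(ℝ, E) hZ hA h
  exact ⟨f, f.contMDiff.contDiff, h0, h1, h2⟩

/-- A smooth family with compact support which vanishes at `0` is `C¹`-small near `0`. -/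
theorem small_param {H : ℝ → E → G} (hH : ContDiff ℝ ∞ (fun p : ℝ × E => H p.1 p.2))
    (h0 : ∀ x, H 0 x = 0) {K : Set E} (hK : IsCompact K) (hs : ∀ δ, ∀ x ∉ K, H δ x = 0)
    {ε : ℝ} (hε : 0 < ε) :
    ∃ δ₀ > 0, ∀ δ, |δ| ≤ δ₀ → ∀ x, ‖H δ x‖ ≤ ε ∧ ‖fderiv ℝ (H δ) x‖ ≤ ε := by
  have hc1 : Continuous (fun p : ℝ × E => H p.1 p.2) := hH.continuous
  have hc2 : Continuous (fun p : ℝ × E => fderiv ℝ (H p.1) p.2) := by
    have : ContDiff ℝ ∞ (fun p : ℝ × E => fderiv ℝ (H p.1) p.2) := by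
      refine ContDiff.fderiv (f := fun (p : ℝ × E) (x : E) => H p.1 x) (g := Prod.snd)
        (m := ∞) (n := ∞) ?_ contDiff_snd le_rfl
      exact hH.comp (contDiff_fst.fst.prodMk contDiff_snd)
    exact this.continuous
  have hz : ∀ x, fderiv ℝ (H 0) x = 0 := by
    intro x
    have : H 0 = fun _ => (0 : G) := funext h0
    rw [this, fderiv_fun_const]
    rfl
  have hev : ∀ᶠ δ in 𝓝 (0 : ℝ), ∀ x ∈ K, ‖H δ x‖ ≤ ε ∧ ‖fderiv ℝ (H δ) x‖ ≤ ε := by
    refine hK.eventually_forall_of_forall_eventually fun x _ => ?_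
    have a1 : ∀ᶠ p in 𝓝 ((0 : ℝ), x), ‖H p.1 p.2‖ < ε := by
      have : ContinuousAt (fun p : ℝ × E => ‖H p.1 p.2‖) (0, x) := hc1.norm.continuousAt
      refine this.eventually_lt continuousAt_const ?_
      simp only [h0, norm_zero]
      exact hε
    have a2 : ∀ᶠ p in 𝓝 ((0 : ℝ), x), ‖fderiv ℝ (H p.1) p.2‖ < ε := by
      have : ContinuousAt (fun p : ℝ × E => ‖fderiv ℝ (H p.1) p.2‖) (0, x) :=
        hc2.norm.continuousAt
      refine this.eventually_lt continuousAt_const ?_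
      simp only [hz, norm_zero]
      exact hε
    filter_upwards [a1, a2] with p h1 h2
    exact ⟨h1.le, h2.le⟩
  obtain ⟨r, hr, hball⟩ := Metric.eventually_nhds_iff.1 hev
  refine ⟨r / 2, by positivity, fun δ hδ x => ?_⟩
  by_cases hx : x ∈ K
  · refine hball ?_ x hx
    rw [Real.dist_eq, sub_zero]
    linarith
  · have : H δ =ᶠ[𝓝 x] fun _ => (0 : G) := by
      filter_upwards [hK.isClosed.isOpen_compl.mem_nhds hx] with y hy
      exact hs δ y hy
    rw [this.fderiv_eq, hs δ x hx, fderiv_fun_const]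
    simp only [norm_zero, Pi.zero_apply]
    exact ⟨hε.le, hε.le⟩

/-- A function which vanishes to second order on `u = 0` can be cut off with small derivative. -/
theorem small_cut {R : E → ℝ → ℝ} (hR : ContDiff ℝ ∞ (fun p : E × ℝ => R p.1 p.2))
    (h0 : ∀ z, R z 0 = 0) (h1 : ∀ z, fderiv ℝ (fun p : E × ℝ => R p.1 p.2) (z, 0) = 0)
    {K : Set E} (hK : IsCompact K) (hs : ∀ z ∉ K, ∀ u, R z u = 0) {η : ℝ} (hη : 0 < η) :
    ∃ ε > 0, ∃ W : E × ℝ → ℝ, ContDiff ℝ ∞ W ∧ (∀ z, W (z, 0) = 0) ∧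
      (∀ z u, |u| ≤ ε → W (z, u) = R z u) ∧ ∀ p, ‖fderiv ℝ W p‖ ≤ η := by
  -- the one-dimensional cutoff
  obtain ⟨θ, hθ, hθc, hθ1, hθ2, hθ3⟩ : ∃ θ : ℝ → ℝ, ContDiff ℝ ∞ θ ∧ HasCompactSupport θ ∧
      (∀ x, |x| ≤ 1 → θ x = 1) ∧ (∀ x, 2 ≤ |x| → θ x = 0) ∧ ∀ x, |θ x| ≤ 1 := by
    let θ : ContDiffBump (0 : ℝ) := ⟨1, 2, one_pos, one_lt_two⟩
    refine ⟨θ, θ.contDiff, θ.hasCompactSupport, fun x hx => ?_, fun x hx => ?_, fun x => ?_⟩
    · apply θ.one_of_mem_closedBall
      rw [mem_closedBall, Real.dist_eq, sub_zero]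
      exact hx
    · apply θ.zero_of_le_dist
      rw [Real.dist_eq, sub_zero]
      exact hx
    · rw [abs_of_nonneg θ.nonneg]
      exact θ.le_one
  obtain ⟨C, hC⟩ := (hθ.continuous_fderiv (by simp)).bounded_above_of_compact_support
    (hθc.fderiv ℝ)
  have hC0 : 0 ≤ C := (norm_nonneg _).trans (hC 0)
  set om : ℝ := η / (1 + 2 * C) with hom
  have hompos : 0 < om := by positivity
  have home : om * (1 + 2 * C) = η := by
    rw [hom]
    field_simp
  -- the derivative of `R` is small near `u = 0`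
  set Rf : E × ℝ → ℝ := fun p => R p.1 p.2 with hRf
  have hcd : Continuous (fderiv ℝ Rf) := hR.continuous_fderiv (by simp)
  have hev : ∀ᶠ u in 𝓝 (0 : ℝ), ∀ z ∈ K, ‖fderiv ℝ Rf (z, u)‖ ≤ om := by
    refine hK.eventually_forall_of_forall_eventually fun z _ => ?_
    have hcz : ContinuousAt (fun p : ℝ × E => ‖fderiv ℝ Rf (p.2, p.1)‖) (0, z) :=
      (hcd.comp (continuous_snd.prodMk continuous_fst)).norm.continuousAt
    have : ∀ᶠ p in 𝓝 ((0 : ℝ), z), ‖fderiv ℝ Rf (p.2, p.1)‖ < om := by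
      refine hcz.eventually_lt continuousAt_const ?_
      have e1 : fderiv ℝ Rf (z, 0) = 0 := h1 z
      rw [e1, norm_zero]
      exact hompos
    filter_upwards [this] with p hp using hp.le
  obtain ⟨r, hr, hball⟩ := Metric.eventually_nhds_iff.1 hev
  set ε : ℝ := r / 4 with hεd
  have hε : 0 < ε := by positivity
  have hsmall : ∀ p : E × ℝ, |p.2| ≤ 2 * ε → ‖fderiv ℝ Rf p‖ ≤ om := by
    rintro ⟨z, u⟩ hu
    by_cases hz : z ∈ K
    · refine hball ?_ z hz
      rw [Real.dist_eq, sub_zero]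
      have : |u| ≤ 2 * ε := hu
      linarith
    · have : Rf =ᶠ[𝓝 (z, u)] fun _ => (0 : ℝ) := by
        have hopen : IsOpen ((Prod.fst : E × ℝ → E) ⁻¹' Kᶜ) :=
          hK.isClosed.isOpen_compl.preimage continuous_fst
        filter_upwards [hopen.mem_nhds (show (z, u) ∈ (Prod.fst : E × ℝ → E) ⁻¹' Kᶜ from hz)]
          with q hq
        exact hs q.1 hq q.2
      rw [this.fderiv_eq, fderiv_fun_const]
      simp only [Pi.zero_apply, norm_zero]
      exact hompos.le
  have hRle : ∀ p : E × ℝ, |p.2| ≤ 2 * ε → |Rf p| ≤ om * (2 * ε) := by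
    rintro ⟨z, u⟩ hu
    have hconv : Convex ℝ {p : E × ℝ | |p.2| ≤ 2 * ε} := by
      intro a ha b hb s t hs' ht hst
      have ha' : |a.2| ≤ 2 * ε := ha
      have hb' : |b.2| ≤ 2 * ε := hb
      change |s * a.2 + t * b.2| ≤ 2 * ε
      rw [abs_le] at ha' hb' ⊢
      constructor <;> nlinarith
    have := hconv.norm_image_sub_le_of_norm_fderiv_le (f := Rf) (C := om)
      (fun q _ => (hR.differentiable (by simp)) q) (fun q hq => hsmall q hq)
      (x := (z, 0)) (y := (z, u)) (show |(0 : ℝ)| ≤ 2 * ε by rw [abs_zero]; positivity) hu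
    have e0 : Rf (z, 0) = 0 := h0 z
    rw [e0, sub_zero, Real.norm_eq_abs] at this
    refine this.trans ?_
    apply mul_le_mul_of_nonneg_left _ hompos.le
    have : ((z, u) : E × ℝ) - (z, 0) = (0, u) := by simp
    rw [this, Prod.norm_mk, norm_zero, Real.norm_eq_abs, max_eq_right (abs_nonneg u)]
    exact hu
  refine ⟨ε, hε, fun p => θ (p.2 / ε) * Rf p, ?_, ?_, ?_, ?_⟩
  · exact (hθ.comp (contDiff_snd.div_const ε)).mul hR
  · intro z
    have e0 : Rf (z, 0) = 0 := h0 z
    simp only [e0, mul_zero]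
  · intro z u hu
    have : θ (u / ε) = 1 := by
      apply hθ1
      rw [abs_div, abs_of_pos hε]
      rwa [div_le_one hε]
    simp only [this, one_mul, hRf]
  · intro p
    by_cases hp : |p.2| ≤ 2 * ε
    · have hd1 : HasFDerivAt (fun q : E × ℝ => θ (q.2 / ε))
          ((fderiv ℝ θ (p.2 / ε)).comp ((ε⁻¹ : ℝ) • ContinuousLinearMap.snd ℝ E ℝ)) p := by
        have a1 : HasFDerivAt (θ : ℝ → ℝ) (fderiv ℝ θ (p.2 / ε)) (p.2 / ε) :=
          ((hθ.differentiable (by simp)) _).hasFDerivAt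
        have a2 : HasFDerivAt (fun q : E × ℝ => q.2 / ε)
            ((ε⁻¹ : ℝ) • ContinuousLinearMap.snd ℝ E ℝ) p := by
          have := (hasFDerivAt_snd (𝕜 := ℝ) (E := E) (F := ℝ) (p := p)).const_smul (ε⁻¹ : ℝ)
          refine this.congr_of_eventuallyEq ?_
          filter_upwards with q
          simp only [Pi.smul_apply, smul_eq_mul]
          field_simp
        exact a1.comp p a2
      have hd2 : HasFDerivAt Rf (fderiv ℝ Rf p) p := ((hR.differentiable (by simp)) p).hasFDerivAt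
      have hd := hd1.mul hd2
      rw [show (fun p => θ (p.2 / ε) * Rf p) = (fun q : E × ℝ => θ (q.2 / ε)) * Rf from rfl,
        hd.fderiv]
      refine (norm_add_le _ _).trans ?_
      rw [norm_smul, norm_smul, Real.norm_eq_abs, Real.norm_eq_abs]
      have b1 : |θ (p.2 / ε)| ≤ 1 := hθ3 _
      have b2 : ‖(fderiv ℝ θ (p.2 / ε)).comp ((ε⁻¹ : ℝ) • ContinuousLinearMap.snd ℝ E ℝ)‖
          ≤ C * ε⁻¹ := by
        refine (ContinuousLinearMap.opNorm_comp_le _ _).trans ?_
        apply mul_le_mul (hC _) _ (norm_nonneg _) hC0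
        rw [norm_smul, Real.norm_eq_abs, abs_of_pos (inv_pos.2 hε)]
        refine (mul_le_mul_of_nonneg_left (ContinuousLinearMap.norm_snd_le ℝ E ℝ)
          (inv_pos.2 hε).le).trans ?_
        rw [mul_one]
      have b3 := hRle p hp
      have b4 := hsmall p hp
      calc |θ (p.2 / ε)| * ‖fderiv ℝ Rf p‖ + |Rf p| *
            ‖(fderiv ℝ θ (p.2 / ε)).comp ((ε⁻¹ : ℝ) • ContinuousLinearMap.snd ℝ E ℝ)‖
          ≤ 1 * om + om * (2 * ε) * (C * ε⁻¹) := by
            apply add_le_add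
            · exact mul_le_mul b1 b4 (norm_nonneg _) zero_le_one
            · exact mul_le_mul b3 b2 (norm_nonneg _) (by positivity)
        _ = om * (1 + 2 * C) := by
            field_simp
        _ = η := home
    · rw [not_le] at hp
      have : (fun p : E × ℝ => θ (p.2 / ε) * Rf p) =ᶠ[𝓝 p] fun _ => (0 : ℝ) := by
        have hopen : IsOpen {q : E × ℝ | 2 * ε < |q.2|} :=
          isOpen_lt continuous_const continuous_snd.abs
        filter_upwards [hopen.mem_nhds hp] with q hq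
        have : θ (q.2 / ε) = 0 := by
          apply hθ2
          rw [abs_div, abs_of_pos hε]
          rw [le_div_iff₀ hε]
          exact (le_of_lt hq)
        rw [this, zero_mul]
      rw [this.fderiv_eq, fderiv_fun_const]
      simp only [Pi.zero_apply, norm_zero]
      exact hη.le

theorem exists_cutoff_compact {A Z : Set E} (hA : IsCompact A) (hZ : IsClosed Z)
    (h : Disjoint Z A) :
    ∃ χ : E → ℝ, ContDiff ℝ ∞ χ ∧ HasCompactSupport χ ∧ (∀ᶠ x in 𝓝ˢ Z, χ x = 0) ∧
      (∀ᶠ x in 𝓝ˢ A, χ x = 1) ∧ ∀ x, χ x ∈ Icc (0 : ℝ) 1 := by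
  obtain ⟨r, hr⟩ := hA.isBounded.subset_ball (0 : E)
  have hZ' : IsClosed (Z ∪ (ball (0 : E) r)ᶜ) := hZ.union isOpen_ball.isClosed_compl
  have hd : Disjoint (Z ∪ (ball (0 : E) r)ᶜ) A := by
    rw [disjoint_union_left]
    exact ⟨h, disjoint_compl_left_iff_subset.2 hr⟩
  obtain ⟨χ, h1, h2, h3, h4⟩ := exists_cutoff hA.isClosed hZ' hd
  refine ⟨χ, h1, ?_, ?_, h3, h4⟩
  · refine HasCompactSupport.intro (isCompact_closedBall (0 : E) r) fun x hx => ?_
    refine h2.self_of_nhdsSet x (Or.inr fun hx' => hx (ball_subset_closedBall hx'))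
  · exact h2.filter_mono (nhdsSet_mono subset_union_left)

/-- The equation `e (z + u V z) = e z + δ B z` has a smooth solution `u δ z` for small `δ`. -/
theorem exists_shift {e : E → ℝ} {V : E → E} (he : ContDiff ℝ ∞ e) (hV : ContDiff ℝ ∞ V)
    {B : E → ℝ} (hB : ContDiff ℝ ∞ B) (hBc : HasCompactSupport B)
    (hpos : ∀ z ∈ tsupport B, 0 < fderiv ℝ e z (V z)) :
    ∃ u : ℝ → E → ℝ, ContDiff ℝ ∞ (fun p : ℝ × E => u p.1 p.2) ∧ (∀ z, u 0 z = 0) ∧
      (∀ δ z, B z = 0 → u δ z = 0) ∧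
      ∃ δ₀ > 0, ∀ δ, |δ| ≤ δ₀ → ∀ z, e (z + u δ z • V z) = e z + δ * B z := by
  set p : E → ℝ := fun z => fderiv ℝ e z (V z) with hp
  have hps : ContDiff ℝ ∞ p := (he.fderiv_right (m := ∞) le_rfl).clm_apply hV
  have hZ : IsClosed {z | p z ≤ 0} := isClosed_le hps.continuous continuous_const
  have hd : Disjoint {z | p z ≤ 0} (tsupport B) := by
    rw [Set.disjoint_left]
    intro z hz hz'
    exact absurd (hpos z hz') (not_lt.2 hz)
  obtain ⟨κ, hκ, hκc, hκ0, hκ1, -⟩ := exists_cutoff_compact hBc.isCompact hZ hd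
  have hκ0' : ∀ z, p z ≤ 0 → κ z = 0 := fun z hz => hκ0.self_of_nhdsSet z hz
  have hκ1' : ∀ z, B z ≠ 0 → κ z = 1 := fun z hz =>
    hκ1.self_of_nhdsSet z (subset_tsupport _ hz)
  -- the quotient
  set q : E → ℝ := fun z => κ z * (p z)⁻¹ with hq
  have hqs : ContDiff ℝ ∞ q := by
    rw [contDiff_iff_contDiffAt]
    intro z
    by_cases hz : p z ≤ 0
    · have : q =ᶠ[𝓝 z] fun _ => (0 : ℝ) := by
        have h1 : ∀ᶠ x in 𝓝 z, κ x = 0 := by
          have := eventually_nhdsSet_iff_forall.1 hκ0 z hz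
          exact this
        filter_upwards [h1] with x hx
        rw [hq]
        simp only [hx, zero_mul]
      exact contDiffAt_const.congr_of_eventuallyEq this
    · rw [not_le] at hz
      exact hκ.contDiffAt.mul (hps.contDiffAt.inv hz.ne')
  have hqp : ∀ z, q z * p z = κ z := by
    intro z
    by_cases hz : p z ≤ 0
    · rw [hq]
      simp only [hκ0' z hz, zero_mul]
    · rw [not_le] at hz
      rw [hq]
      field_simp
  -- the remainder
  set R : E → ℝ → ℝ := fun z u => q z * (e (z + u • V z) - e z) - κ z * u with hR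
  have hRs : ContDiff ℝ ∞ (fun w : E × ℝ => R w.1 w.2) := by
    have h1 : ContDiff ℝ ∞ (fun w : E × ℝ => w.1 + w.2 • V w.1) :=
      contDiff_fst.add (contDiff_snd.smul (hV.comp contDiff_fst))
    exact ((hqs.comp contDiff_fst).mul ((he.comp h1).sub (he.comp contDiff_fst))).sub
      ((hκ.comp contDiff_fst).mul contDiff_snd)
  have hR0 : ∀ z, R z 0 = 0 := by
    intro z
    simp only [hR, zero_smul, add_zero, sub_self, mul_zero]
  have hR1 : ∀ z, fderiv ℝ (fun w : E × ℝ => R w.1 w.2) (z, 0) = 0 := by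
    intro z
    have a1 : HasFDerivAt (fun w : E × ℝ => w.2 • V w.1)
        ((0 : ℝ) • ((fderiv ℝ V z).comp (ContinuousLinearMap.fst ℝ E ℝ)) +
          (ContinuousLinearMap.snd ℝ E ℝ).smulRight (V z)) (z, 0) := by
      have b1 : HasFDerivAt (fun w : E × ℝ => V w.1)
          ((fderiv ℝ V z).comp (ContinuousLinearMap.fst ℝ E ℝ)) (z, 0) := by
        have : HasFDerivAt V (fderiv ℝ V z) ((z, (0 : ℝ)) : E × ℝ).1 :=
          ((hV.differentiable (by simp)) z).hasFDerivAt
        exact this.comp _ hasFDerivAt_fst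
      exact (hasFDerivAt_snd (𝕜 := ℝ) (E := E) (F := ℝ) (p := (z, (0 : ℝ)))).smul b1
    have a2 : HasFDerivAt (fun w : E × ℝ => w.1 + w.2 • V w.1)
        (ContinuousLinearMap.fst ℝ E ℝ +
          ((0 : ℝ) • ((fderiv ℝ V z).comp (ContinuousLinearMap.fst ℝ E ℝ)) +
          (ContinuousLinearMap.snd ℝ E ℝ).smulRight (V z))) (z, 0) :=
      hasFDerivAt_fst.add a1
    have a3 : HasFDerivAt e (fderiv ℝ e z) ((fun w : E × ℝ => w.1 + w.2 • V w.1) (z, 0)) := by
      simp only [zero_smul, add_zero]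
      exact ((he.differentiable (by simp)) z).hasFDerivAt
    have a4 : HasFDerivAt (fun w : E × ℝ => e (w.1 + w.2 • V w.1)) _ (z, 0) :=
      HasFDerivAt.comp (g := e) (z, (0 : ℝ)) a3 a2
    have a5 : HasFDerivAt (fun w : E × ℝ => e w.1)
        ((fderiv ℝ e z).comp (ContinuousLinearMap.fst ℝ E ℝ)) (z, 0) := by
      have : HasFDerivAt e (fderiv ℝ e z) ((z, (0 : ℝ)) : E × ℝ).1 :=
        ((he.differentiable (by simp)) z).hasFDerivAt
      exact this.comp _ hasFDerivAt_fst
    have a6 : HasFDerivAt (fun w : E × ℝ => q w.1)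
        ((fderiv ℝ q z).comp (ContinuousLinearMap.fst ℝ E ℝ)) (z, 0) := by
      have : HasFDerivAt q (fderiv ℝ q z) ((z, (0 : ℝ)) : E × ℝ).1 :=
        ((hqs.differentiable (by simp)) z).hasFDerivAt
      exact this.comp _ hasFDerivAt_fst
    have a7 : HasFDerivAt (fun w : E × ℝ => κ w.1)
        ((fderiv ℝ κ z).comp (ContinuousLinearMap.fst ℝ E ℝ)) (z, 0) := by
      have : HasFDerivAt κ (fderiv ℝ κ z) ((z, (0 : ℝ)) : E × ℝ).1 :=
        ((hκ.differentiable (by simp)) z).hasFDerivAt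
      exact this.comp _ hasFDerivAt_fst
    have a8 := (a6.mul (a4.sub a5)).sub
      (a7.mul (hasFDerivAt_snd (𝕜 := ℝ) (E := E) (F := ℝ) (p := (z, (0 : ℝ)))))
    refine (a8.congr_fderiv ?_).fderiv
    have hqpz : q z * fderiv ℝ e z (V z) = κ z := hqp z
    ext w
    · simp
    · simp
      rw [hqpz, sub_self]
  have hRK : ∀ z ∉ tsupport κ, ∀ u, R z u = 0 := by
    intro z hz u
    have h1 : κ z = 0 := image_eq_zero_of_notMem_tsupport hz
    simp only [hR, hq, h1, zero_mul, sub_self]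
  obtain ⟨ε, hε, W, hW, hW0, hWR, hWd⟩ := small_cut hRs hR0 hR1 hκc.isCompact hRK
    (η := 1 / 2) (by norm_num)
  -- the inverse
  have hU : ContDiff ℝ ∞ (fun w : E × ℝ => ((0 : E), W w)) := contDiff_const.prodMk hW
  have hUd : ∀ w : E × ℝ, ‖fderiv ℝ (fun w : E × ℝ => ((0 : E), W w)) w‖ ≤ 1 / 2 := by
    intro w
    have h1 : HasFDerivAt W (fderiv ℝ W w) w := ((hW.differentiable (by simp)) w).hasFDerivAt
    have h2 := (hasFDerivAt_const (𝕜 := ℝ) (0 : E) w).prodMk h1
    rw [h2.fderiv]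
    refine ContinuousLinearMap.opNorm_le_bound _ (by norm_num) fun x => ?_
    rw [ContinuousLinearMap.prod_apply, Prod.norm_mk]
    simp only [_root_.zero_apply, norm_zero]
    rw [max_eq_right (norm_nonneg _)]
    exact (ContinuousLinearMap.le_opNorm _ _).trans
      (mul_le_mul_of_nonneg_right (hWd w) (norm_nonneg _))
  obtain ⟨Φ, hΦ, -, hΦ2⟩ := exists_inverse_id_add hU hUd
  have hWle : ∀ z v, |W (z, v)| ≤ 1 / 2 * |v| := by
    intro z v
    have := convex_univ.norm_image_sub_le_of_norm_fderiv_le (𝕜 := ℝ) (f := W) (C := 1 / 2)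
      (fun q _ => (hW.differentiable (by simp)) q) (fun q _ => hWd q)
      (mem_univ ((z, (0 : ℝ)) : E × ℝ)) (mem_univ ((z, v) : E × ℝ))
    rw [hW0, sub_zero, Real.norm_eq_abs] at this
    refine this.trans (le_of_eq ?_)
    have : ((z, v) : E × ℝ) - (z, 0) = (0, v) := by simp
    rw [this, Prod.norm_mk, norm_zero, Real.norm_eq_abs, max_eq_right (abs_nonneg v)]
  have hΦ3 : ∀ z w, (Φ (z, w)).1 = z ∧ (Φ (z, w)).2 + W (z, (Φ (z, w)).2) = w := by
    intro z w
    have h1 := hΦ2 (z, w)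
    have h2 := congrArg Prod.fst h1
    have h3 := congrArg Prod.snd h1
    simp only [Prod.fst_add, Prod.snd_add, add_zero] at h2 h3
    refine ⟨h2, ?_⟩
    have h4 : ((z, (Φ (z, w)).2) : E × ℝ) = Φ (z, w) := by
      ext
      · exact h2.symm
      · rfl
    rw [h4]
    exact h3
  have hΦ4 : ∀ z w, |(Φ (z, w)).2| ≤ 2 * |w| := by
    intro z w
    have h1 := (hΦ3 z w).2
    have h2 := hWle z (Φ (z, w)).2
    have h3 : (Φ (z, w)).2 = w - W (z, (Φ (z, w)).2) := by linarith
    have h4 : |(Φ (z, w)).2| ≤ |w| + |W (z, (Φ (z, w)).2)| := by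
      calc |(Φ (z, w)).2| = |w - W (z, (Φ (z, w)).2)| := by rw [← h3]
        _ ≤ |w| + |W (z, (Φ (z, w)).2)| := abs_sub _ _
    linarith
  -- the bounded right-hand side
  have hB1 : ContDiff ℝ ∞ (fun z => B z * q z) := hB.mul hqs
  obtain ⟨M, hM⟩ := hB1.continuous.bounded_above_of_compact_support (hBc.mul_right)
  have hM0 : 0 ≤ M := (norm_nonneg _).trans (hM 0)
  refine ⟨fun δ z => (Φ (z, δ * (B z * q z))).2, ?_, ?_, ?_, ε / (2 * (M + 1)), by positivity, ?_⟩
  · refine contDiff_snd.comp (hΦ.comp (contDiff_snd.prodMk (contDiff_fst.mul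
      (hB1.comp contDiff_snd))))
  · intro z
    have := hΦ4 z (0 * (B z * q z))
    rw [zero_mul, abs_zero, mul_zero] at this
    simp only [zero_mul]
    exact abs_eq_zero.1 (le_antisymm this (abs_nonneg _))
  · intro δ z hz
    have := hΦ4 z (δ * (B z * q z))
    rw [hz, zero_mul, mul_zero, abs_zero, mul_zero] at this
    simp only [hz, zero_mul, mul_zero]
    exact abs_eq_zero.1 (le_antisymm this (abs_nonneg _))
  · intro δ hδ z
    by_cases hz : B z = 0
    · have := hΦ4 z (δ * (B z * q z))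
      rw [hz, zero_mul, mul_zero, abs_zero, mul_zero] at this
      simp only [hz, zero_mul, mul_zero, add_zero]
      rw [abs_eq_zero.1 (le_antisymm this (abs_nonneg _)), zero_smul, add_zero]
    · have h1 := (hΦ3 z (δ * (B z * q z))).2
      have h2 := hΦ4 z (δ * (B z * q z))
      set v := (Φ (z, δ * (B z * q z))).2 with hv
      have h3 : |v| ≤ ε := by
        refine h2.trans ?_
        rw [abs_mul]
        have h5 : |B z * q z| ≤ M := hM z
        have h6 : |δ| * |B z * q z| ≤ ε / (2 * (M + 1)) * (M + 1) := by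
          apply mul_le_mul hδ (by linarith) (abs_nonneg _) (by positivity)
        have h7 : ε / (2 * (M + 1)) * (M + 1) = ε / 2 := by
          field_simp
        rw [h7] at h6
        linarith
      rw [hWR z v h3] at h1
      have hk := hκ1' z hz
      have hpz : 0 < p z := hpos z (subset_tsupport _ hz)
      have hqz : q z = (p z)⁻¹ := by
        rw [hq]
        simp only [hk, one_mul]
      simp only [hR, hk, one_mul, hqz] at h1
      have h8 : (p z)⁻¹ * (e (z + v • V z) - e z) = (p z)⁻¹ * (δ * B z) := by linarith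
      have h9 := mul_left_cancel₀ (inv_ne_zero hpz.ne') h8
      change e (z + v • V z) = _
      linarith

/-- One small step: the superlevel sets of `e` with levels in `[a, b]` are moved down by `δ`. -/
theorem push_step {e : E → ℝ} {V : E → E} (he : ContDiff ℝ ∞ e) (hV : ContDiff ℝ ∞ V) {a b : ℝ}
    (hK : IsCompact {z | a ≤ e z})
    (hpos : ∀ z, a ≤ e z → e z ≤ b → 0 < fderiv ℝ e z (V z)) :
    ∃ ψ : ℝ → E → E, ContDiff ℝ ∞ (fun p : ℝ × E => ψ p.1 p.2) ∧ (∀ z, ψ 0 z = z) ∧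
      ∃ δ₀ > 0, ∀ δ, 0 ≤ δ → δ ≤ δ₀ →
        (∃ Φ : E → E, ContDiff ℝ ∞ Φ ∧ (∀ x, Φ (ψ δ x) = x) ∧ ∀ x, ψ δ (Φ x) = x) ∧
        ∀ l, a ≤ l - δ → l ≤ b → ψ δ '' {z | l ≤ e z} = {z | l - δ ≤ e z} ∧
          ψ δ '' {z | e z = l} = {z | e z = l - δ} := by
  have hps : Continuous fun z => fderiv ℝ e z (V z) :=
    ((he.fderiv_right (m := ∞) le_rfl).clm_apply hV).continuous
  -- a cutoff near the compact set
  obtain ⟨κ, hκ, hκc, -, hκ1, hκr⟩ := exists_cutoff_compact hK isClosed_empty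
    (disjoint_bot_left (a := {z | a ≤ e z}))
  have hbad : IsCompact (tsupport κ ∩ {z | fderiv ℝ e z (V z) ≤ 0}) :=
    hκc.isCompact.inter_right (isClosed_le hps continuous_const)
  obtain ⟨η2, hη2, hbad2⟩ := hbad.exists_forall_le' (f := fun z => max (a - e z) (e z - b)) (a := 0)
    (((continuous_const.sub he.continuous).max (he.continuous.sub continuous_const)).continuousOn)
    (by
      rintro z ⟨-, hz⟩
      by_contra hcon
      rw [not_lt, max_le_iff] at hcon
      exact absurd (hpos z (by linarith [hcon.1]) (by linarith [hcon.2])) (not_lt.2 hz))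
  set η : ℝ := η2 / 2 with hη
  have hηpos : 0 < η := by positivity
  have hpos2 : ∀ z ∈ tsupport κ, a - η ≤ e z → e z ≤ b + η → 0 < fderiv ℝ e z (V z) := by
    intro z hz h1 h2
    by_contra hcon
    rw [not_lt] at hcon
    have := hbad2 z ⟨hz, hcon⟩
    rcases le_max_iff.1 this with h | h <;> linarith
  -- the level cutoff
  obtain ⟨β, hβ, hβc, hβ0, hβ1, hβr⟩ := exists_cutoff_compact (E := ℝ) (A := Icc a b)
    (Z := (Ioo (a - η) (b + η))ᶜ) isCompact_Icc isOpen_Ioo.isClosed_compl (by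
      rw [Set.disjoint_left]
      intro r hr hr'
      exact hr ⟨by linarith [hr'.1], by linarith [hr'.2]⟩)
  have hβ1' : ∀ r ∈ Icc a b, β r = 1 := fun r hr => hβ1.self_of_nhdsSet r hr
  have hβ0' : ∀ r, β r ≠ 0 → r ∈ Icc (a - η) (b + η) := by
    intro r hr
    by_contra hcon
    refine hr (hβ0.self_of_nhdsSet r fun hr' => hcon ⟨hr'.1.le, hr'.2.le⟩)
  obtain ⟨L, hL⟩ := (hβ.continuous_fderiv (by simp)).bounded_above_of_compact_support
    (hβc.fderiv ℝ)
  have hL0 : 0 ≤ L := (norm_nonneg _).trans (hL 0)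
  have hmono : ∀ δ, 0 ≤ δ → δ ≤ 1 / (2 * L + 2) → StrictMono fun r => r - δ * β r := by
    intro δ h0 h1
    apply strictMono_of_deriv_pos
    intro r
    have h2 : HasDerivAt β (deriv β r) r := ((hβ.differentiable (by simp)) r).hasDerivAt
    have h3 : HasDerivAt (fun r => r - δ * β r) (1 - δ * deriv β r) r :=
      (hasDerivAt_id r).sub (h2.const_mul δ)
    rw [h3.deriv]
    have h4 : |deriv β r| ≤ L := by
      have := hL r
      rw [← Real.norm_eq_abs, ← norm_deriv_eq_norm_fderiv] at *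
      exact this
    have h5 : δ * deriv β r ≤ 1 / (2 * L + 2) * L := by
      calc δ * deriv β r ≤ δ * |deriv β r| := mul_le_mul_of_nonneg_left (le_abs_self _) h0
        _ ≤ 1 / (2 * L + 2) * L := mul_le_mul h1 h4 (abs_nonneg _) (by positivity)
    have h6 : 1 / (2 * L + 2) * L < 1 := by
      rw [one_div, inv_mul_lt_iff₀ (by positivity)]
      linarith
    linarith
  -- the shift
  set B : E → ℝ := fun z => κ z * β (e z) with hBdef
  have hB : ContDiff ℝ ∞ B := hκ.mul (hβ.comp he)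
  have hBc : HasCompactSupport B := hκc.mul_right
  have hBpos : ∀ z ∈ tsupport B, 0 < fderiv ℝ e z (V z) := by
    intro z hz
    have hcl : IsClosed (tsupport κ ∩ {z | e z ∈ Icc (a - η) (b + η)}) :=
      (isClosed_tsupport κ).inter (isClosed_Icc.preimage he.continuous)
    have hsub : tsupport B ⊆ tsupport κ ∩ {z | e z ∈ Icc (a - η) (b + η)} := by
      refine closure_minimal ?_ hcl
      intro x hx
      have hx' : κ x * β (e x) ≠ 0 := hx
      exact ⟨subset_tsupport _ (left_ne_zero_of_mul hx'), hβ0' _ (right_ne_zero_of_mul hx')⟩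
    obtain ⟨h1, h2⟩ := hsub hz
    exact hpos2 z h1 h2.1 h2.2
  obtain ⟨u, hu, hu0, huB, δ₁, hδ₁, huE⟩ := exists_shift he hV hB hBc hBpos
  obtain ⟨U, hUo, hAU, hU1⟩ := mem_nhdsSet_iff_exists.1 hκ1
  obtain ⟨ρ, hρ, hthick⟩ := hK.exists_thickening_subset_open hUo hAU
  have hHs : ContDiff ℝ ∞ (fun p : ℝ × E => u p.1 p.2 • V p.2) := hu.smul (hV.comp contDiff_snd)
  obtain ⟨δ₂, hδ₂, hsm⟩ := small_param (H := fun δ z => u δ z • V z) hHs
    (fun z => by rw [hu0, zero_smul]) hBc.isCompact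
    (fun δ z hz => by rw [huB δ z (image_eq_zero_of_notMem_tsupport hz), zero_smul])
    (ε := min (1 / 2) (ρ / 2)) (by positivity)
  refine ⟨fun δ z => z + u (-δ) z • V z, ?_, ?_, min (min δ₁ δ₂) (1 / (2 * L + 2)),
    by positivity, ?_⟩
  · exact contDiff_snd.add (hHs.comp (contDiff_fst.neg.prodMk contDiff_snd))
  · intro z
    simp only [neg_zero, hu0, zero_smul, add_zero]
  · intro δ h0 hδ
    have hδ1 : |-δ| ≤ δ₁ := by
      rw [abs_neg, abs_of_nonneg h0]
      exact hδ.trans ((min_le_left _ _).trans (min_le_left _ _))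
    have hδ2 : |-δ| ≤ δ₂ := by
      rw [abs_neg, abs_of_nonneg h0]
      exact hδ.trans ((min_le_left _ _).trans (min_le_right _ _))
    have hδ3 : δ ≤ 1 / (2 * L + 2) := hδ.trans (min_le_right _ _)
    have hE : ∀ z, e (z + u (-δ) z • V z) = e z - δ * B z := by
      intro z
      rw [huE (-δ) hδ1 z]
      ring
    have hsmall := hsm (-δ) hδ2
    obtain ⟨Φ, hΦ, hΦ1, hΦ2⟩ := exists_inverse_id_add
      (U := fun z => u (-δ) z • V z)
      (hHs.comp (contDiff_const.prodMk contDiff_id))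
      (fun x => ((hsmall x).2).trans (min_le_left _ _))
    have hm := hmono δ h0 hδ3
    have hBle : ∀ z, δ * B z ≤ δ * β (e z) := by
      intro z
      apply mul_le_mul_of_nonneg_left _ h0
      rw [hBdef]
      exact mul_le_of_le_one_left (hβr _).1 (hκr z).2
    refine ⟨⟨Φ, hΦ, hΦ1, hΦ2⟩, fun l hl1 hl2 => ?_⟩
    have hlβ : β l = 1 := hβ1' l ⟨by linarith, hl2⟩
    -- key: the preimage of a point with `e ≥ l - δ` has the exact cutoff
    have hκw : ∀ z, a ≤ e (z + u (-δ) z • V z) → κ z = 1 := by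
      intro z hz
      apply hU1
      apply hthick
      rw [mem_thickening_iff]
      refine ⟨z + u (-δ) z • V z, hz, ?_⟩
      rw [dist_eq_norm]
      have h1 := (hsmall z).1
      have h2 : ‖u (-δ) z • V z‖ ≤ ρ / 2 := h1.trans (min_le_right _ _)
      calc ‖z - (z + u (-δ) z • V z)‖ = ‖u (-δ) z • V z‖ := by
            rw [← norm_neg]
            congr 1
            abel
        _ < ρ := by linarith
    have hEw : ∀ z, a ≤ e (z + u (-δ) z • V z) →
        e (z + u (-δ) z • V z) = e z - δ * β (e z) := by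
      intro z hz
      rw [hE z, hBdef]
      simp only [hκw z hz, one_mul]
    have hml : l - δ * β l = l - δ := by
      rw [hlβ, mul_one]
    have key1 : ∀ z, l ≤ e z ↔ l - δ ≤ e (z + u (-δ) z • V z) := by
      intro z
      constructor
      · intro hz
        have h1 : l - δ * β l ≤ e z - δ * β (e z) := hm.monotone hz
        rw [hml] at h1
        rw [hE z]
        linarith [hBle z]
      · intro hz
        rw [hEw z (hl1.trans hz), ← hml] at hz
        exact hm.le_iff_le.1 hz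
    have key2 : ∀ z, e z = l ↔ e (z + u (-δ) z • V z) = l - δ := by
      intro z
      constructor
      · intro hz
        have h1 := (key1 z).1 hz.ge
        rw [hEw z (hl1.trans h1), hz, hml]
      · intro hz
        rw [hEw z (by rw [hz]; exact hl1), ← hml] at hz
        exact hm.injective hz
    constructor
    · ext w
      constructor
      · rintro ⟨z, hz, rfl⟩
        exact (key1 z).1 hz
      · intro hw
        have hw' : l - δ ≤ e w := hw
        refine ⟨Φ w, (key1 (Φ w)).2 ?_, hΦ2 w⟩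
        rw [hΦ2 w]
        exact hw'
    · ext w
      constructor
      · rintro ⟨z, hz, rfl⟩
        exact (key2 z).1 hz
      · intro hw
        have hw' : e w = l - δ := hw
        refine ⟨Φ w, (key2 (Φ w)).2 ?_, hΦ2 w⟩
        rw [hΦ2 w]
        exact hw'

/-- PUSH: if `e` has no critical point in `{a ≤ e ≤ b}` and `{a ≤ e}` is compact, an isotopy moves
`{b ≤ e}` down to `{a ≤ e}` with constant speed. -/
theorem push {e : E → ℝ} {V : E → E} (he : ContDiff ℝ ∞ e) (hV : ContDiff ℝ ∞ V) {a b : ℝ}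
    (hab : a ≤ b) (hK : IsCompact {z | a ≤ e z})
    (hpos : ∀ z, a ≤ e z → e z ≤ b → 0 < fderiv ℝ e z (V z)) :
    ∃ Ψ : ℝ → E → E, IsIsotopy univ Ψ ∧ ∀ s ∈ Icc (0 : ℝ) 1,
      Ψ s '' {z | b ≤ e z} = {z | b - s * (b - a) ≤ e z} ∧
      Ψ s '' {z | e z = b} = {z | e z = b - s * (b - a)} := by
  obtain ⟨ψ, hψ, hψ0, δ₀, hδ₀, hstep⟩ := push_step he hV hK hpos
  obtain ⟨N, hN⟩ := exists_nat_gt ((b - a) / δ₀)
  have hNpos : (0 : ℝ) < N := lt_of_le_of_lt (div_nonneg (by linarith) hδ₀.le) hN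
  set d : ℝ := (b - a) / N with hd
  have hd0 : 0 ≤ d := div_nonneg (by linarith) hNpos.le
  have hdle : d ≤ δ₀ := by
    rw [hd, div_le_iff₀ hNpos]
    rw [div_lt_iff₀ hδ₀] at hN
    linarith
  have hNd : N * d = b - a := by
    rw [hd]
    field_simp
  have hiso : IsIsotopy univ (fun s x => ψ (s * d) x) := by
    refine ⟨hψ.comp ((contDiff_fst.mul contDiff_const).prodMk contDiff_snd), fun x => ?_,
      fun s hs => ?_, fun s x hx => absurd (mem_univ x) hx⟩
    · rw [zero_mul, hψ0]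
    · exact (hstep (s * d) (mul_nonneg hs.1 hd0)
        ((mul_le_of_le_one_left hd0 hs.2).trans hdle)).1
  have main : ∀ j : ℕ, j ≤ N → ∃ Ψ : ℝ → E → E, IsIsotopy univ Ψ ∧ ∀ s ∈ Icc (0 : ℝ) 1,
      Ψ s '' {z | b ≤ e z} = {z | b - j * (s * d) ≤ e z} ∧
      Ψ s '' {z | e z = b} = {z | e z = b - j * (s * d)} := by
    intro j
    induction j with
    | zero =>
      intro _
      refine ⟨fun _ x => x, isIsotopy_id univ, fun s _ => ?_⟩
      simp
    | succ j ih =>
      intro hj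
      obtain ⟨Ψ, hΨ, hΨs⟩ := ih (by omega)
      refine ⟨fun s x => ψ (s * d) (Ψ s x), hiso.comp hΨ, fun s hs => ?_⟩
      obtain ⟨h1, h2⟩ := hΨs s hs
      have hsd0 : 0 ≤ s * d := mul_nonneg hs.1 hd0
      have hsd1 : s * d ≤ d := mul_le_of_le_one_left hd0 hs.2
      have hjN : ((j : ℝ) + 1) ≤ N := by exact_mod_cast hj
      have hstep' := (hstep (s * d) hsd0 (hsd1.trans hdle)).2 (b - j * (s * d))
        (by
          have : ((j : ℝ) + 1) * (s * d) ≤ N * d :=
            mul_le_mul hjN hsd1 hsd0 hNpos.le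
          nlinarith)
        (by
          have : 0 ≤ (j : ℝ) * (s * d) := mul_nonneg (Nat.cast_nonneg _) hsd0
          linarith)
      have e1 : b - ((j + 1 : ℕ) : ℝ) * (s * d) = b - j * (s * d) - s * d := by
        push_cast
        ring
      rw [e1, ← hstep'.1, ← hstep'.2, ← h1, ← h2, ← image_comp, ← image_comp]
      exact ⟨rfl, rfl⟩
  obtain ⟨Ψ, hΨ, hΨs⟩ := main N le_rfl
  refine ⟨Ψ, hΨ, fun s hs => ?_⟩
  have := hΨs s hs
  have e1 : (N : ℝ) * (s * d) = s * (b - a) := by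
    rw [← hNd]
    ring
  rw [e1] at this
  exact this

end General

end Pool.Agent.Lib_MP_752436_rc
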