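import Pool.Agent.Lib_MP_752436_rb.IsoExt
import Pool.Agent.Lib_MP_752436_rc.Push

/-!
PIECE ISOLEVEL: across a slab `{a ≤ e ≤ b}` without critical points of `e`, on which `f` is
injective on the level sets of `e` and `(f, e)` is an immersion, the image of `{e = b}` is moved to
the image of `{e = a}` by an ambient isotopy.
-/

open MeasureTheory Metric Set
open scoped ContDiff Topology

namespace Pool.Agent.Lib_MP_752436_rc

open Pool.Agent.Lib_MP_752436_gt Pool.Agent.Lib_MP_752436_rb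

variable {E F : Type*} [NormedAddCommGroup E] [NormedSpace ℝ E] [FiniteDimensional ℝ E]
  [NormedAddCommGroup F] [NormedSpace ℝ F] [FiniteDimensional ℝ F]

theorem iso_level {f : E → F} {e : E → ℝ} {V : E → E} (hf : ContDiff ℝ ∞ f)
    (he : ContDiff ℝ ∞ e) (hV : ContDiff ℝ ∞ V) {a b : ℝ} (hab : a ≤ b)
    (hK : IsCompact {z | a ≤ e z})
    (hpos : ∀ z, a ≤ e z → e z ≤ b → 0 < fderiv ℝ e z (V z))
    (hinj : ∀ z w, a ≤ e z → e z ≤ b → e w = e z → f w = f z → w = z)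
    (himm : ∀ z, a ≤ e z → e z ≤ b → ∀ v, fderiv ℝ f z v = 0 → fderiv ℝ e z v = 0 → v = 0) :
    ∃ (ψ ψ' : E → E) (Φ : ℝ → F → F), ContDiff ℝ ∞ ψ ∧ ContDiff ℝ ∞ ψ' ∧
      (∀ x, ψ' (ψ x) = x) ∧ (∀ x, ψ (ψ' x) = x) ∧
      ψ '' {z | b ≤ e z} = {z | a ≤ e z} ∧ ψ '' {z | e z = b} = {z | e z = a} ∧
      IsIsotopy univ Φ ∧ ∀ z, e z = b → Φ 1 (f z) = f (ψ z) := by
  obtain ⟨Ψ, hΨ, hΨs⟩ := push he hV hab hK hpos
  have hlev : ∀ s ∈ Icc (0 : ℝ) 1, ∀ z, e z = b → e (Ψ s z) = b - s * (b - a) := by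
    intro s hs z hz
    have : Ψ s z ∈ Ψ s '' {z | e z = b} := ⟨z, hz, rfl⟩
    rw [(hΨs s hs).2] at this
    exact this
  have hrange : ∀ s ∈ Icc (0 : ℝ) 1, a ≤ b - s * (b - a) ∧ b - s * (b - a) ≤ b := by
    intro s hs
    constructor <;> nlinarith [hs.1, hs.2]
  have hP : IsCompact {z | e z = b} := by
    refine hK.of_isClosed_subset (isClosed_eq he.continuous continuous_const) ?_
    intro z hz
    have hz' : e z = b := hz
    change a ≤ e z
    rw [hz']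
    exact hab
  have hH : ContDiff ℝ ∞ (fun p : ℝ × E => f (Ψ p.1 p.2)) := hf.comp hΨ.smooth
  have hinj' : ∀ s ∈ Icc (0 : ℝ) 1, InjOn (fun x => f (Ψ s x)) {z | e z = b} := by
    intro s hs z hz w hw hzw
    obtain ⟨Φ₀, -, hΦ₀, -⟩ := hΨ.inverse s hs
    have hz' := hlev s hs z hz
    have hw' := hlev s hs w hw
    have := hinj (Ψ s z) (Ψ s w) (by rw [hz']; exact (hrange s hs).1)
      (by rw [hz']; exact (hrange s hs).2) (by rw [hz', hw']) hzw.symm
    rw [← hΦ₀ z, ← hΦ₀ w, this]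
  have hloc : ∀ s ∈ Icc (0 : ℝ) 1, ∀ x ∈ {z | e z = b}, ∃ π : ℝ × F → E, ContDiff ℝ ∞ π ∧
      ∀ᶠ q in 𝓝[Icc (0 : ℝ) 1 ×ˢ {z | e z = b}] (s, x), π (q.1, f (Ψ q.1 q.2)) = q.2 := by
    intro s hs x hx
    obtain ⟨Φ₀, hΦ₀s, hΦ₀, -⟩ := hΨ.inverse s hs
    have hx' := hlev s hs x hx
    set g : ℝ × E → ℝ × (F × ℝ) := fun p => (p.1, (f (Ψ p.1 p.2), e (Ψ p.1 p.2))) with hg
    have hgs : ContDiff ℝ ∞ g := contDiff_fst.prodMk (hH.prodMk (he.comp hΨ.smooth))
    set M : ℝ × E →L[ℝ] E := fderiv ℝ (fun p : ℝ × E => Ψ p.1 p.2) (s, x) with hM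
    have hMd : HasFDerivAt (fun p : ℝ × E => Ψ p.1 p.2) M (s, x) :=
      ((hΨ.smooth.differentiable (by simp)) _).hasFDerivAt
    have hg1 : HasFDerivAt g ((ContinuousLinearMap.fst ℝ ℝ E).prod
        (((fderiv ℝ f (Ψ s x)).comp M).prod ((fderiv ℝ e (Ψ s x)).comp M))) (s, x) := by
      have a1 : HasFDerivAt f (fderiv ℝ f (Ψ s x)) ((fun p : ℝ × E => Ψ p.1 p.2) (s, x)) :=
        ((hf.differentiable (by simp)) _).hasFDerivAt
      have a2 : HasFDerivAt e (fderiv ℝ e (Ψ s x)) ((fun p : ℝ × E => Ψ p.1 p.2) (s, x)) :=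
        ((he.differentiable (by simp)) _).hasFDerivAt
      exact hasFDerivAt_fst.prodMk
        ((HasFDerivAt.comp (f := fun p : ℝ × E => Ψ p.1 p.2) (s, x) a1 hMd).prodMk
          (HasFDerivAt.comp (f := fun p : ℝ × E => Ψ p.1 p.2) (s, x) a2 hMd))
    have hginj : Function.Injective (fderiv ℝ g (s, x)) := by
      rw [hg1.fderiv, injective_iff_map_eq_zero]
      rintro ⟨t, v⟩ htv
      simp only [ContinuousLinearMap.prod_apply, ContinuousLinearMap.coe_fst',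
        ContinuousLinearMap.comp_apply, Prod.mk_eq_zero] at htv
      obtain ⟨ht, h1, h2⟩ := htv
      have hw := himm (Ψ s x) (by rw [hx']; exact (hrange s hs).1)
        (by rw [hx']; exact (hrange s hs).2) _ h1 h2
      -- `M (0, v)` is the derivative of `Ψ s`
      have hMv : M (0, v) = fderiv ℝ (Ψ s) x v := by
        have a1 : HasFDerivAt (fun y : E => ((s, y) : ℝ × E))
            (ContinuousLinearMap.inr ℝ ℝ E) x := hasFDerivAt_prodMk_right s x
        have a2 : HasFDerivAt (Ψ s) (M.comp (ContinuousLinearMap.inr ℝ ℝ E)) x :=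
          HasFDerivAt.comp (g := fun p : ℝ × E => Ψ p.1 p.2) x hMd a1
        rw [a2.fderiv]
        rfl
      rw [ht, hMv] at hw
      have hΨd : HasFDerivAt (Ψ s) (fderiv ℝ (Ψ s) x) x :=
        (((hΨ.smooth.comp (contDiff_const.prodMk contDiff_id)).differentiable
          (by simp)) x).hasFDerivAt
      have hΦd : HasFDerivAt Φ₀ (fderiv ℝ Φ₀ (Ψ s x)) (Ψ s x) :=
        ((hΦ₀s.differentiable (by simp)) _).hasFDerivAt
      have hcomp := hΦd.comp x hΨd
      have hid : HasFDerivAt (Φ₀ ∘ Ψ s) (ContinuousLinearMap.id ℝ E) x := by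
        have : Φ₀ ∘ Ψ s = id := funext hΦ₀
        rw [this]
        exact hasFDerivAt_id x
      have hv : v = (ContinuousLinearMap.id ℝ E) v := rfl
      rw [← hcomp.unique hid, ContinuousLinearMap.comp_apply, hw, map_zero] at hv
      rw [ht, hv]
      rfl
    obtain ⟨π', hπ', hev⟩ := exists_left_inverse hgs hginj
    refine ⟨fun q => (π' (q.1, (q.2, b - q.1 * (b - a)))).2, ?_, ?_⟩
    · exact contDiff_snd.comp (hπ'.comp (contDiff_fst.prodMk (contDiff_snd.prodMk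
        (contDiff_const.sub (contDiff_fst.mul contDiff_const)))))
    · filter_upwards [self_mem_nhdsWithin, nhdsWithin_le_nhds hev] with q hq1 hq2
      have h1 := hlev q.1 hq1.1 q.2 hq1.2
      rw [hg] at hq2
      simp only [h1] at hq2
      simp only [hq2]
  obtain ⟨Φ, hΦ, hΦ1⟩ := isotopy_extension (H := fun s x => f (Ψ s x)) hH hP hinj' hloc
    (W := univ) isOpen_univ (fun _ _ _ _ => mem_univ _)
  obtain ⟨ψ', hψ', hψ'1, hψ'2⟩ := hΨ.inverse 1 ⟨zero_le_one, le_rfl⟩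
  have h1 := hΨs 1 ⟨zero_le_one, le_rfl⟩
  have e1 : b - 1 * (b - a) = a := by ring
  rw [e1] at h1
  refine ⟨Ψ 1, ψ', Φ, hΨ.smooth.comp (contDiff_const.prodMk contDiff_id), hψ', hψ'1, hψ'2,
    h1.1, h1.2, hΦ, fun z hz => ?_⟩
  have := hΦ1 z hz
  rwa [hΨ.start z] at this

end Pool.Agent.Lib_MP_752436_rc
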