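import Pool.Agent.Lib_MP_752436_rb.Ext
import Pool.Agent.Lib_MP_752436_rc.Defs

/-!
PIECE SA-ARCS: the double curve through a transverse crossing.

Let `G (x, z) = (g x - g z, X (z - z₀))`, from `E2 × E2` to `E3 × ℝ` (both of dimension 4). Its
derivative at `(x₀, z₀)` is injective: if `Dg(x₀) η = Dg(z₀) ζ` and `X ζ = 0` then `ζ = σ • v`
(`frame.repr`), so `η = 0`, `σ = 0` by `trans`. Hence it is an isomorphism (equal dimensions), and
`G` has a smooth local inverse `π` near `(0, 0)` (`HasStrictFDerivAt.toOpenPartialHomeomorph`,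
`ContDiffAt.to_localInverse`); smooth on a neighbourhood of `(0, 0)`. Put
`(Xc l, Zc l) = π (0, κ l)` where `κ : ℝ → ℝ` is smooth with values in a small interval around `0`
and `κ l = l` for `|l| ≤ l₀` (for instance `κ l = l * bump l`). Then
`g (Xc l) = g (Zc l)`, `X (Zc l - z₀) = l` for `|l| ≤ l₀`; so `X (deriv Zc l) = 1` (for
`|l| < l₀`; take `κ l = l` on a slightly larger interval), `deriv Zc l ≠ 0`, and
`fderiv ℝ g (Xc l) (deriv Xc l) = fderiv ℝ g (Zc l) (deriv Zc l) ≠ 0` if `l₀` is so small that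
`fderiv ℝ g (Zc l)` is injective.
-/

open MeasureTheory Metric Set
open scoped ContDiff Topology

namespace Pool.Agent.Lib_MP_752436_rc

open Pool.Agent.Lib_MP_752436_gt Pool.Agent.Lib_MP_752436_rb

/-- Injectivity of the derivative is an open condition. -/
private theorem ev_injective_fderiv {E F : Type*} [NormedAddCommGroup E] [NormedSpace ℝ E]
    [FiniteDimensional ℝ E] [NormedAddCommGroup F] [NormedSpace ℝ F] [FiniteDimensional ℝ F]
    {g : E → F} (hg : ContDiff ℝ ∞ g) {x : E} (hx : Function.Injective (fderiv ℝ g x)) :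
    ∀ᶠ y in 𝓝 x, Function.Injective (fderiv ℝ g y) := by
  obtain ⟨π, hπ, hev⟩ := exists_left_inverse hg hx
  filter_upwards [eventually_eventually_nhds.2 hev] with y hy
  rw [injective_iff_map_eq_zero]
  intro u hu
  have h1 : HasFDerivAt g (fderiv ℝ g y) y := ((hg.differentiable (by simp)) y).hasFDerivAt
  have h2 : HasFDerivAt π (fderiv ℝ π (g y)) (g y) :=
    ((hπ.differentiable (by simp)) _).hasFDerivAt
  have h3 := h2.comp y h1
  have h4 : HasFDerivAt (π ∘ g) (ContinuousLinearMap.id ℝ E) y :=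
    (hasFDerivAt_id y).congr_of_eventuallyEq hy
  have h5 : u = (ContinuousLinearMap.id ℝ E) u := rfl
  rw [h5, ← h3.unique h4, ContinuousLinearMap.comp_apply, hu, map_zero]

/-- The double curve of `g` through a transverse double point, parametrised by a linear coordinate
of the lower point. -/
private theorem exists_local_arc {g : E2 → E3} (hg : ContDiff ℝ ∞ g) {X : E2 →L[ℝ] ℝ} {q x₀ z₀ : E2}
    (h0 : g x₀ = g z₀) (hX : X (z₀ - q) = 0)
    (hinj : ∀ η ζ : E2, fderiv ℝ g x₀ η = fderiv ℝ g z₀ ζ → X ζ = 0 → η = 0 ∧ ζ = 0) :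
    ∃ P Z : ℝ → E2, ContDiff ℝ ∞ P ∧ ContDiff ℝ ∞ Z ∧ P 0 = x₀ ∧ Z 0 = z₀ ∧
      (∀ᶠ l in 𝓝 (0 : ℝ), g (P l) = g (Z l) ∧ X (Z l - q) = l) ∧
      ∀ᶠ p in 𝓝 (x₀, z₀), g p.1 = g p.2 → p.1 = P (X (p.2 - q)) ∧ p.2 = Z (X (p.2 - q)) := by
  set Ξ : E2 × E2 → E3 × ℝ := fun p => (g p.1 - g p.2, X (p.2 - q)) with hΞ
  have hΞs : ContDiff ℝ ∞ Ξ := ((hg.comp contDiff_fst).sub (hg.comp contDiff_snd)).prodMk
    (X.contDiff.comp (contDiff_snd.sub contDiff_const))
  have hΞ0 : Ξ (x₀, z₀) = (0, 0) := by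
    simp only [hΞ, h0, sub_self, hX]
  have hd : HasFDerivAt Ξ (((fderiv ℝ g x₀).comp (ContinuousLinearMap.fst ℝ E2 E2) -
      (fderiv ℝ g z₀).comp (ContinuousLinearMap.snd ℝ E2 E2)).prod
      (X.comp (ContinuousLinearMap.snd ℝ E2 E2))) (x₀, z₀) := by
    have a1 : HasFDerivAt (fun p : E2 × E2 => g p.1)
        ((fderiv ℝ g x₀).comp (ContinuousLinearMap.fst ℝ E2 E2)) (x₀, z₀) :=
      HasFDerivAt.comp (f := Prod.fst) (x₀, z₀)
        ((hg.differentiable (by simp)) x₀).hasFDerivAt hasFDerivAt_fst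
    have a2 : HasFDerivAt (fun p : E2 × E2 => g p.2)
        ((fderiv ℝ g z₀).comp (ContinuousLinearMap.snd ℝ E2 E2)) (x₀, z₀) :=
      HasFDerivAt.comp (f := Prod.snd) (x₀, z₀)
        ((hg.differentiable (by simp)) z₀).hasFDerivAt hasFDerivAt_snd
    have a3 : HasFDerivAt (fun p : E2 × E2 => X (p.2 - q))
        (X.comp (ContinuousLinearMap.snd ℝ E2 E2)) (x₀, z₀) :=
      HasFDerivAt.comp (f := fun p : E2 × E2 => p.2 - q) (x₀, z₀)
        X.hasFDerivAt (hasFDerivAt_snd.sub_const q)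
    exact (a1.sub a2).prodMk a3
  have hinjΞ : Function.Injective (fderiv ℝ Ξ (x₀, z₀)) := by
    rw [hd.fderiv, injective_iff_map_eq_zero]
    rintro ⟨η, ζ⟩ h
    have h1 := congrArg Prod.fst h
    have h2 := congrArg Prod.snd h
    simp only [ContinuousLinearMap.prod_apply] at h1 h2
    have h1' : fderiv ℝ g x₀ η - fderiv ℝ g z₀ ζ = 0 := h1
    have h2' : X ζ = 0 := h2
    obtain ⟨h3, h4⟩ := hinj η ζ (sub_eq_zero.1 h1') h2'
    rw [h3, h4]
    rfl
  obtain ⟨π, hπ, hev⟩ := exists_left_inverse hΞs hinjΞ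
  have hsurj : Function.Surjective (fderiv ℝ Ξ (x₀, z₀)) := by
    have hfr : Module.finrank ℝ (E2 × E2) = Module.finrank ℝ (E3 × ℝ) := by
      rw [Module.finrank_prod, Module.finrank_prod]
      simp
    exact (LinearMap.injective_iff_surjective_of_finrank_eq_finrank
      (f := (fderiv ℝ Ξ (x₀, z₀) : E2 × E2 →ₗ[ℝ] E3 × ℝ)) hfr).1 hinjΞ
  have hmap : Filter.map Ξ (𝓝 (x₀, z₀)) = 𝓝 (Ξ (x₀, z₀)) :=
    ((hΞs.contDiffAt (x := (x₀, z₀))).hasStrictFDerivAt (by simp)).map_nhds_eq_of_surj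
      (LinearMap.range_eq_top.2 hsurj)
  have hev2 : ∀ᶠ w in 𝓝 (Ξ (x₀, z₀)), Ξ (π w) = w := by
    rw [← hmap, Filter.eventually_map]
    filter_upwards [hev] with p hp
    rw [hp]
  have hπ0 : π (0, 0) = (x₀, z₀) := by
    have := hev.self_of_nhds
    rwa [hΞ0] at this
  refine ⟨fun l => (π (0, l)).1, fun l => (π (0, l)).2,
    contDiff_fst.comp (hπ.comp (contDiff_const.prodMk contDiff_id)),
    contDiff_snd.comp (hπ.comp (contDiff_const.prodMk contDiff_id)), ?_, ?_, ?_, ?_⟩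
  · show (π (0, 0)).1 = x₀
    rw [hπ0]
  · show (π (0, 0)).2 = z₀
    rw [hπ0]
  · have hc : Filter.Tendsto (fun l : ℝ => ((0 : E3), l)) (𝓝 0) (𝓝 (Ξ (x₀, z₀))) := by
      rw [hΞ0]
      exact (continuous_const.prodMk continuous_id).tendsto' 0 _ rfl
    filter_upwards [hc.eventually hev2] with l hl
    have h1 := congrArg Prod.fst hl
    have h2 := congrArg Prod.snd hl
    exact ⟨sub_eq_zero.1 h1, h2⟩
  · filter_upwards [hev] with p hp hgp
    have h1 : Ξ p = (0, X (p.2 - q)) := by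
      simp only [hΞ, hgp, sub_self]
    rw [h1] at hp
    exact ⟨(congrArg Prod.fst hp).symm, (congrArg Prod.snd hp).symm⟩

/-- A local double curve `Xc`, `Zc` of `g` through `(x₀, z₀)`, parametrised by the coordinate `X` of
its second point. All double pairs in `N` lie on it. -/
structure LocArc (g : E2 → E3) (X : E2 →L[ℝ] ℝ) (x₀ z₀ : E2) (N : Set (E2 × E2)) (l₀ : ℝ)
    (Xc Zc : ℝ → E2) : Prop where
  hl₀ : 0 < l₀
  smoothX : ContDiff ℝ ∞ Xc
  smoothZ : ContDiff ℝ ∞ Zc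
  startX : Xc 0 = x₀
  startZ : Zc 0 = z₀
  same : ∀ l, |l| ≤ l₀ → g (Xc l) = g (Zc l)
  coord : ∀ l, |l| ≤ l₀ → X (Zc l - z₀) = l
  regX : ∀ l, |l| ≤ l₀ → deriv Xc l ≠ 0
  regZ : ∀ l, |l| ≤ l₀ → deriv Zc l ≠ 0
  openN : IsOpen N
  memN : (x₀, z₀) ∈ N
  unique : ∀ x z, (x, z) ∈ N → g x = g z →
    |X (z - z₀)| ≤ l₀ ∧ x = Xc (X (z - z₀)) ∧ z = Zc (X (z - z₀))

theorem exists_locArc {g : E2 → E3} (hg : ContDiff ℝ ∞ g) {X Y : E2 →L[ℝ] ℝ} {u v : E2}
    (h : Frame X Y u v) {x₀ z₀ : E2} (h0 : g x₀ = g z₀)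
    (himm : Function.Injective (fderiv ℝ g z₀))
    (htr : ∀ (η : E2) (σ : ℝ), fderiv ℝ g x₀ η = σ • fderiv ℝ g z₀ v → η = 0 ∧ σ = 0) :
    ∃ (N : Set (E2 × E2)) (l₀ : ℝ) (Xc Zc : ℝ → E2), LocArc g X x₀ z₀ N l₀ Xc Zc := by
  have hinj : ∀ η ζ : E2, fderiv ℝ g x₀ η = fderiv ℝ g z₀ ζ → X ζ = 0 → η = 0 ∧ ζ = 0 := by
    intro η ζ h1 h2
    have h3 : ζ = Y ζ • v := by
      have := h.repr ζ
      rw [h2, zero_smul, zero_add] at this
      exact this.symm
    rw [h3, map_smul] at h1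
    obtain ⟨h4, h5⟩ := htr η (Y ζ) h1
    refine ⟨h4, ?_⟩
    rw [h3, h5, zero_smul]
  obtain ⟨P, Z, hP, hZ, hP0, hZ0, hev1, hev2⟩ := exists_local_arc hg (X := X) (q := z₀) h0
    (by rw [sub_self, map_zero]) hinj
  have hZt : Filter.Tendsto Z (𝓝 0) (𝓝 z₀) := by
    rw [← hZ0]
    exact hZ.continuous.tendsto 0
  have hev3 : ∀ᶠ l in 𝓝 (0 : ℝ), Function.Injective (fderiv ℝ g (Z l)) :=
    hZt.eventually (ev_injective_fderiv hg himm)
  obtain ⟨r, hr, hball⟩ := Metric.eventually_nhds_iff_ball.1 (hev1.and hev3)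
  have hsame : ∀ l ∈ ball (0 : ℝ) r, g (P l) = g (Z l) := fun l hl => (hball l hl).1.1
  have hcoord : ∀ l ∈ ball (0 : ℝ) r, X (Z l - z₀) = l := fun l hl => (hball l hl).1.2
  have hZ' : ∀ l ∈ ball (0 : ℝ) r, deriv Z l ≠ 0 := by
    intro l hl h1
    have h2 : HasDerivAt Z (deriv Z l) l := ((hZ.differentiable (by simp)) l).hasDerivAt
    have h3 : HasDerivAt (fun l => X (Z l - z₀)) (X (deriv Z l)) l := by
      have := X.hasFDerivAt (x := Z l - z₀) |>.comp_hasDerivAt l (h2.sub_const z₀)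
      exact this
    have h4 : HasDerivAt (fun l => X (Z l - z₀)) 1 l := by
      refine (hasDerivAt_id l).congr_of_eventuallyEq ?_
      filter_upwards [isOpen_ball.mem_nhds hl] with y hy using hcoord y hy
    rw [h1, map_zero] at h3
    exact zero_ne_one (h3.unique h4)
  have hP' : ∀ l ∈ ball (0 : ℝ) r, deriv P l ≠ 0 := by
    intro l hl h1
    have h2 : HasDerivAt P (deriv P l) l := ((hP.differentiable (by simp)) l).hasDerivAt
    have h2' : HasDerivAt Z (deriv Z l) l := ((hZ.differentiable (by simp)) l).hasDerivAt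
    have h3 : HasDerivAt (fun l => g (P l)) (fderiv ℝ g (P l) (deriv P l)) l :=
      ((hg.differentiable (by simp)) (P l)).hasFDerivAt.comp_hasDerivAt l h2
    have h4 : HasDerivAt (fun l => g (Z l)) (fderiv ℝ g (Z l) (deriv Z l)) l :=
      ((hg.differentiable (by simp)) (Z l)).hasFDerivAt.comp_hasDerivAt l h2'
    have h5 : HasDerivAt (fun l => g (P l)) (fderiv ℝ g (Z l) (deriv Z l)) l := by
      refine h4.congr_of_eventuallyEq ?_
      filter_upwards [isOpen_ball.mem_nhds hl] with y hy using hsame y hy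
    rw [h1, map_zero] at h3
    have h6 := h3.unique h5
    exact hZ' l hl ((injective_iff_map_eq_zero _).1 (hball l hl).2 _ h6.symm)
  obtain ⟨N₀, hN₀, hN₀o, hN₀m⟩ := _root_.eventually_nhds_iff.1 hev2
  have hXc : Continuous fun p : E2 × E2 => |X (p.2 - z₀)| :=
    (X.continuous.comp (continuous_snd.sub continuous_const)).abs
  have hmem : ∀ l : ℝ, |l| ≤ r / 2 → l ∈ ball (0 : ℝ) r := by
    intro l hl
    rw [mem_ball, Real.dist_eq, sub_zero]
    linarith
  refine ⟨N₀ ∩ {p | |X (p.2 - z₀)| < r / 2}, r / 2, P, Z, ?_⟩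
  refine ⟨by positivity, hP, hZ, hP0, hZ0, fun l hl => hsame l (hmem l hl),
    fun l hl => hcoord l (hmem l hl), fun l hl => hP' l (hmem l hl),
    fun l hl => hZ' l (hmem l hl), hN₀o.inter (isOpen_lt hXc continuous_const),
    ⟨hN₀m, ?_⟩, fun x z hxz hgxz => ?_⟩
  · show |X (z₀ - z₀)| < r / 2
    rw [sub_self, map_zero, abs_zero]
    positivity
  · have h1 : |X (z - z₀)| < r / 2 := hxz.2
    exact ⟨h1.le, hN₀ _ hxz.1 hgxz⟩

end Pool.Agent.Lib_MP_752436_rc
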