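import Pool.Agent.Lib_MP_752436_rc.SaCore

/-!
PIECE SA-BOX: boxes around a saddle, whose core ends at given level and avoids finitely many
points.

Let `X, Y, u, v, r₀` be as in `SaddleAt` and let `X θ = cosh θ • X - sinh θ • Y`,
`v θ = cosh θ • v + sinh θ • u` and so on. Choose `y₀ > 0` so small that for all `θ ∈ [-1, 1]`
the box `|X θ (z - q)| ≤ 2 * y₀`, `|Y θ (z - q)| ≤ 2 * y₀` is contained in `ball q (min r r₀)`
(`‖z - q‖ = ‖X θ (z - q) • u θ + Y θ (z - q) • v θ‖ ≤ 2 * y₀ * (‖u θ‖ + ‖v θ‖)`, and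
`‖u θ‖ + ‖v θ‖` is bounded). For `0 < |τ| ≤ 2 * y₀` we have `t q < t (q + τ • v θ)`, because
the derivative of `τ ↦ t (q + τ • v θ)` has the sign of `τ` (`SadCoord.vert`). By compactness
there is `δ > 0` with `t q + δ ≤ t (q + τ • v θ)` for `θ ∈ [-1, 1]`, `y₀ ≤ |τ| ≤ 2 * y₀`. For
`t q < b < t q + δ` the intermediate value theorem gives `τ₁ θ ∈ (-y₀, 0)`, `τ₂ θ ∈ (0, y₀)`
with `t = b` at the end points. For `θ ≠ θ'` the lines through `q` with directions `v θ`, `v θ'`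
meet only at `q` (`X θ (v θ') = sinh (θ' - θ) ≠ 0`), so for every point of the finite set `A`
there is at most one `θ` for which it is one of the two end points.
-/

open MeasureTheory Metric Set
open scoped ContDiff Topology

namespace Pool.Agent.Lib_MP_752436_rc

private lemma sabox_abs_sinh (θ : ℝ) : |Real.sinh θ| ≤ Real.cosh θ := by
  rw [abs_le]
  constructor
  · have h := Real.sinh_lt_cosh (-θ)
    rw [Real.sinh_neg, Real.cosh_neg] at h
    linarith
  · exact (Real.sinh_lt_cosh θ).le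

private lemma sabox_norm (u v : E2) {θ : ℝ} (hθ : θ ∈ Icc (-1 : ℝ) 1) :
    ‖Real.cosh θ • u + Real.sinh θ • v‖ ≤ Real.cosh 1 * (‖u‖ + ‖v‖) := by
  have h1 : Real.cosh θ ≤ Real.cosh 1 := by
    rw [Real.cosh_le_cosh]
    have h2 : |θ| ≤ 1 := abs_le.2 ⟨hθ.1, hθ.2⟩
    simpa using h2
  have h3 := sabox_abs_sinh θ
  have h4 : 0 < Real.cosh θ := Real.cosh_pos θ
  calc ‖Real.cosh θ • u + Real.sinh θ • v‖ ≤ ‖Real.cosh θ • u‖ + ‖Real.sinh θ • v‖ :=
        norm_add_le _ _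
    _ = |Real.cosh θ| * ‖u‖ + |Real.sinh θ| * ‖v‖ := by
        rw [norm_smul, norm_smul, Real.norm_eq_abs, Real.norm_eq_abs]
    _ ≤ Real.cosh 1 * ‖u‖ + Real.cosh 1 * ‖v‖ := by
        rw [abs_of_pos h4]
        have h5 : |Real.sinh θ| ≤ Real.cosh 1 := h3.trans h1
        exact add_le_add (mul_le_mul_of_nonneg_right h1 (norm_nonneg u))
          (mul_le_mul_of_nonneg_right h5 (norm_nonneg v))
    _ = Real.cosh 1 * (‖u‖ + ‖v‖) := by ring

/-- Along the core direction the height grows away from the saddle. -/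
private lemma sabox_grow {t : E2 → ℝ} (ht : ContDiff ℝ ∞ t) {q v : E2} {c : ℝ}
    (h : ∀ τ : ℝ, τ ≠ 0 → |τ| ≤ c → 0 < τ * fderiv ℝ t (q + τ • v) v) {τ : ℝ}
    (hτ : τ ≠ 0) (hτc : |τ| ≤ c) : t q < t (q + τ • v) := by
  have hd : ∀ s : ℝ, HasDerivAt (fun s : ℝ => t (q + s • v)) (fderiv ℝ t (q + s • v) v) s := by
    intro s
    have h1 : HasDerivAt (fun s : ℝ => q + s • v) v s := by
      have h2 : HasDerivAt (fun s : ℝ => s • v) ((1 : ℝ) • v) s := (hasDerivAt_id s).smul_const v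
      rw [one_smul] at h2
      exact h2.const_add q
    exact ((ht.differentiable (by simp)) (q + s • v)).hasFDerivAt.comp_hasDerivAt s h1
  have hcont : Continuous (fun s : ℝ => t (q + s • v)) := by
    have := ht.continuous
    fun_prop
  rcases lt_or_gt_of_ne hτ with hneg | hpos
  · have hanti : StrictAntiOn (fun s : ℝ => t (q + s • v)) (Icc τ 0) := by
      refine strictAntiOn_of_deriv_neg (convex_Icc τ 0) hcont.continuousOn ?_
      intro s hs
      rw [interior_Icc] at hs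
      rw [(hd s).deriv]
      have h1 := h s hs.2.ne (by
        rw [abs_of_neg hs.2]
        rw [abs_of_neg hneg] at hτc
        linarith [hs.1])
      by_contra hcon
      have h2 : 0 ≤ fderiv ℝ t (q + s • v) v := not_lt.1 hcon
      nlinarith [mul_nonneg (neg_nonneg.2 hs.2.le) h2]
    have h3 := hanti (left_mem_Icc.2 hneg.le) (right_mem_Icc.2 hneg.le) hneg
    simpa using h3
  · have hmono : StrictMonoOn (fun s : ℝ => t (q + s • v)) (Icc 0 τ) := by
      refine strictMonoOn_of_deriv_pos (convex_Icc 0 τ) hcont.continuousOn ?_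
      intro s hs
      rw [interior_Icc] at hs
      rw [(hd s).deriv]
      have h1 := h s hs.1.ne' (by
        rw [abs_of_pos hs.1]
        rw [abs_of_pos hpos] at hτc
        linarith [hs.2])
      exact (mul_pos_iff_of_pos_left hs.1).1 h1
    have h3 := hmono (left_mem_Icc.2 hpos.le) (right_mem_Icc.2 hpos.le) hpos
    simpa using h3

theorem exists_sadBox {t : E2 → ℝ} (ht : ContDiff ℝ ∞ t) {q : E2} (hq : fderiv ℝ t q = 0)
    (h : SaddleAt t q) {r : ℝ} (hr : 0 < r) :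
    ∃ y₀ > 0, ∃ δ > 0, ∀ a b, a < t q → t q < b → b < t q + δ → ∀ A : Set E2, A.Finite →
      ∃ (X Y : E2 →L[ℝ] ℝ) (u v : E2) (τ₁ τ₂ : ℝ), SadBox t q a b X Y u v y₀ τ₁ τ₂ ∧
        (∀ z, |X (z - q)| ≤ 2 * y₀ → |Y (z - q)| ≤ 2 * y₀ → z ∈ ball q r) ∧
        q + τ₁ • v ∉ A ∧ q + τ₂ • v ∉ A := by
  obtain ⟨X, Y, u, v, r₀, hr₀, hθ⟩ := h
  have F0 : Frame X Y u v := by
    have h0 := (hθ 0 ⟨by norm_num, by norm_num⟩).frame
    simpa using h0
  set ρ : ℝ := min r r₀ with hρdef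
  have hρ : 0 < ρ := lt_min hr hr₀
  set K : ℝ := 2 * (Real.cosh 1 * (‖u‖ + ‖v‖)) + 1 with hK
  have hKpos : 0 < K := by
    have h1 : 0 ≤ Real.cosh 1 * (‖u‖ + ‖v‖) :=
      mul_nonneg (Real.cosh_pos 1).le (add_nonneg (norm_nonneg u) (norm_nonneg v))
    linarith
  set y₀ : ℝ := ρ / (4 * K) with hy
  have hy₀ : 0 < y₀ := by positivity
  have hyK : 2 * y₀ * K = ρ / 2 := by
    rw [hy]
    field_simp
    ring
  -- the boxes lie in the ball
  have hbox : ∀ θ ∈ Icc (-1 : ℝ) 1, ∀ z : E2,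
      |(Real.cosh θ • X - Real.sinh θ • Y) (z - q)| ≤ 2 * y₀ →
      |(Real.cosh θ • Y - Real.sinh θ • X) (z - q)| ≤ 2 * y₀ → z ∈ ball q ρ := by
    intro θ h1 z hX hY
    have hF := (hθ θ h1).frame
    have h2 := hF.repr (z - q)
    have hu := sabox_norm u v h1
    have hv := sabox_norm v u h1
    rw [mem_ball, dist_eq_norm]
    set x := (Real.cosh θ • X - Real.sinh θ • Y) (z - q) with hx
    set y := (Real.cosh θ • Y - Real.sinh θ • X) (z - q) with hyy
    calc ‖z - q‖ = ‖x • (Real.cosh θ • u + Real.sinh θ • v)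
          + y • (Real.cosh θ • v + Real.sinh θ • u)‖ := by rw [h2]
      _ ≤ |x| * ‖Real.cosh θ • u + Real.sinh θ • v‖
          + |y| * ‖Real.cosh θ • v + Real.sinh θ • u‖ := by
          refine (norm_add_le _ _).trans ?_
          rw [norm_smul, norm_smul, Real.norm_eq_abs, Real.norm_eq_abs]
      _ ≤ (2 * y₀) * (Real.cosh 1 * (‖u‖ + ‖v‖)) + (2 * y₀) * (Real.cosh 1 * (‖v‖ + ‖u‖)) :=
          add_le_add (mul_le_mul hX hu (norm_nonneg _) (by positivity))
            (mul_le_mul hY hv (norm_nonneg _) (by positivity))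
      _ = 2 * y₀ * K - 2 * y₀ := by rw [hK]; ring
      _ < ρ := by rw [hyK]; linarith
  -- growth along the cores
  have hgrow : ∀ θ ∈ Icc (-1 : ℝ) 1, ∀ τ : ℝ, τ ≠ 0 → |τ| ≤ 2 * y₀ →
      t q < t (q + τ • (Real.cosh θ • v + Real.sinh θ • u)) := by
    intro θ h1 τ hτ hτ2
    have hS := hθ θ h1
    refine sabox_grow ht (c := 2 * y₀) ?_ hτ hτ2
    intro s hs hs2
    have hX : (Real.cosh θ • X - Real.sinh θ • Y)
        (q + s • (Real.cosh θ • v + Real.sinh θ • u) - q) = 0 := by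
      rw [add_sub_cancel_left, map_smul, hS.frame.Xv, smul_zero]
    have hY : (Real.cosh θ • Y - Real.sinh θ • X)
        (q + s • (Real.cosh θ • v + Real.sinh θ • u) - q) = s := by
      rw [add_sub_cancel_left, map_smul, hS.frame.Yv, smul_eq_mul, mul_one]
    have hmem : q + s • (Real.cosh θ • v + Real.sinh θ • u) ∈ ball q ρ := by
      refine hbox θ h1 _ ?_ ?_
      · rw [hX, abs_zero]; positivity
      · rw [hY]; exact hs2
    have hne : q + s • (Real.cosh θ • v + Real.sinh θ • u) ≠ q := by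
      intro hcon
      rw [hcon, sub_self, map_zero] at hY
      exact hs hY.symm
    have h3 := hS.vert _ (ball_subset_ball (min_le_right r r₀) hmem) hne (by
      rw [hX, abs_zero]; exact abs_nonneg _)
    rw [hY] at h3
    exact h3
  -- compactness
  obtain ⟨δ, hδ, hδ2⟩ : ∃ δ > 0, ∀ θ ∈ Icc (-1 : ℝ) 1, ∀ τ : ℝ, y₀ ≤ |τ| → |τ| ≤ 2 * y₀ →
      t q + δ ≤ t (q + τ • (Real.cosh θ • v + Real.sinh θ • u)) := by
    have hcpt : IsCompact (Icc (-1 : ℝ) 1 ×ˢ (Icc (-(2 * y₀)) (-y₀) ∪ Icc y₀ (2 * y₀))) :=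
      isCompact_Icc.prod (isCompact_Icc.union isCompact_Icc)
    have hne : (Icc (-1 : ℝ) 1 ×ˢ (Icc (-(2 * y₀)) (-y₀) ∪ Icc y₀ (2 * y₀))).Nonempty :=
      ⟨(0, y₀), ⟨by norm_num, by norm_num⟩, Or.inr ⟨le_rfl, by linarith⟩⟩
    have hcont : ContinuousOn (fun p : ℝ × ℝ =>
        t (q + p.2 • (Real.cosh p.1 • v + Real.sinh p.1 • u)))
        (Icc (-1 : ℝ) 1 ×ˢ (Icc (-(2 * y₀)) (-y₀) ∪ Icc y₀ (2 * y₀))) := by
      have h1 := ht.continuous
      have h2 : Continuous (fun p : ℝ × ℝ =>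
          t (q + p.2 • (Real.cosh p.1 • v + Real.sinh p.1 • u))) := by
        have h3 := Real.continuous_cosh
        have h4 := Real.continuous_sinh
        fun_prop
      exact h2.continuousOn
    obtain ⟨p, hp, hmin⟩ := hcpt.exists_isMinOn hne hcont
    refine ⟨t (q + p.2 • (Real.cosh p.1 • v + Real.sinh p.1 • u)) - t q, ?_, ?_⟩
    · have h1 : p.2 ≠ 0 ∧ |p.2| ≤ 2 * y₀ := by
        rcases hp.2 with h2 | h2
        · have h3 : p.2 < 0 := by linarith [h2.2]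
          exact ⟨h3.ne, by rw [abs_of_neg h3]; linarith [h2.1]⟩
        · have h3 : 0 < p.2 := by linarith [h2.1]
          exact ⟨h3.ne', by rw [abs_of_pos h3]; exact h2.2⟩
      have h4 := hgrow p.1 hp.1 p.2 h1.1 h1.2
      linarith
    · intro θ h1 τ h2 h3
      have hmem : (θ, τ) ∈ Icc (-1 : ℝ) 1 ×ˢ (Icc (-(2 * y₀)) (-y₀) ∪ Icc y₀ (2 * y₀)) := by
        refine ⟨h1, ?_⟩
        rcases le_abs'.1 h2 with h4 | h4
        · exact Or.inl ⟨by linarith [neg_abs_le τ], h4⟩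
        · exact Or.inr ⟨h4, (le_abs_self τ).trans h3⟩
      have h5 := hmin hmem
      simp only [mem_ofPred_eq] at h5
      linarith
  refine ⟨y₀, hy₀, δ, hδ, ?_⟩
  intro a b ha hb hbδ A hA
  -- end points
  have hends : ∀ θ ∈ Icc (-1 : ℝ) 1, ∃ τ₁ τ₂ : ℝ, -y₀ < τ₁ ∧ τ₁ < 0 ∧ 0 < τ₂ ∧ τ₂ < y₀ ∧
      t (q + τ₁ • (Real.cosh θ • v + Real.sinh θ • u)) = b ∧
      t (q + τ₂ • (Real.cosh θ • v + Real.sinh θ • u)) = b := by
    intro θ h1
    set w := Real.cosh θ • v + Real.sinh θ • u with hw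
    have hcont : Continuous (fun s : ℝ => t (q + s • w)) := by
      have := ht.continuous
      fun_prop
    have h0 : t (q + (0 : ℝ) • w) = t q := by simp
    have hp : b < t (q + y₀ • w) := by
      have h2 := hδ2 θ h1 y₀ (le_abs_self y₀) (by rw [abs_of_pos hy₀]; linarith)
      linarith
    have hm : b < t (q + (-y₀) • w) := by
      have h2 := hδ2 θ h1 (-y₀) (by rw [abs_neg, abs_of_pos hy₀])
        (by rw [abs_neg, abs_of_pos hy₀]; linarith)
      linarith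
    obtain ⟨τ₂, h2, h3⟩ := intermediate_value_Ioo hy₀.le hcont.continuousOn
      (show b ∈ Ioo (t (q + (0 : ℝ) • w)) (t (q + y₀ • w)) from ⟨by rw [h0]; exact hb, hp⟩)
    obtain ⟨τ₁, h4, h5⟩ := intermediate_value_Ioo' (show -y₀ ≤ 0 by linarith)
      hcont.continuousOn
      (show b ∈ Ioo (t (q + (0 : ℝ) • w)) (t (q + (-y₀) • w)) from ⟨by rw [h0]; exact hb, hm⟩)
    exact ⟨τ₁, τ₂, h4.1, h4.2, h2.1, h2.2, h5, h3⟩
  choose! T₁ T₂ hT using hends
  -- different angles have different end points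
  have hinj : ∀ θ ∈ Icc (-1 : ℝ) 1, ∀ θ' ∈ Icc (-1 : ℝ) 1, ∀ τ τ' : ℝ, τ' ≠ 0 →
      q + τ • (Real.cosh θ • v + Real.sinh θ • u)
        = q + τ' • (Real.cosh θ' • v + Real.sinh θ' • u) → θ = θ' := by
    intro θ h1 θ' h1' τ τ' hτ' he
    have h2 : τ • (Real.cosh θ • v + Real.sinh θ • u)
        = τ' • (Real.cosh θ' • v + Real.sinh θ' • u) := add_left_cancel he
    have h3 := congrArg (fun z => (Real.cosh θ • X - Real.sinh θ • Y) z) h2
    simp only [map_smul, (hθ θ h1).frame.Xv] at h3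
    have h4 : (Real.cosh θ • X - Real.sinh θ • Y) (Real.cosh θ' • v + Real.sinh θ' • u)
        = Real.sinh (θ' - θ) := by
      rw [Real.sinh_sub]
      simp only [sub_apply, smul_apply, map_add, map_smul,
        F0.Xu, F0.Xv, F0.Yu, F0.Yv, smul_eq_mul]
      ring
    rw [h4] at h3
    simp only [smul_eq_mul, mul_zero] at h3
    rcases mul_eq_zero.1 h3.symm with h5 | h5
    · exact absurd h5 hτ'
    · have h6 := Real.sinh_eq_zero.1 h5
      linarith
  have hfin₁ : (Icc (-1 : ℝ) 1 ∩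
      {θ | q + T₁ θ • (Real.cosh θ • v + Real.sinh θ • u) ∈ A}).Finite := by
    refine Set.Finite.of_finite_image (f := fun θ =>
      q + T₁ θ • (Real.cosh θ • v + Real.sinh θ • u)) (hA.subset ?_) ?_
    · rintro _ ⟨θ, hθ1, rfl⟩
      exact hθ1.2
    · intro θ h1 θ' h1' he
      exact hinj θ h1.1 θ' h1'.1 _ _ (hT θ' h1'.1).2.1.ne he
  have hfin₂ : (Icc (-1 : ℝ) 1 ∩
      {θ | q + T₂ θ • (Real.cosh θ • v + Real.sinh θ • u) ∈ A}).Finite := by
    refine Set.Finite.of_finite_image (f := fun θ =>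
      q + T₂ θ • (Real.cosh θ • v + Real.sinh θ • u)) (hA.subset ?_) ?_
    · rintro _ ⟨θ, hθ1, rfl⟩
      exact hθ1.2
    · intro θ h1 θ' h1' he
      exact hinj θ h1.1 θ' h1'.1 _ _ (hT θ' h1'.1).2.2.1.ne' he
  have hinf : (Icc (-1 : ℝ) 1).Infinite := Icc_infinite (by norm_num)
  obtain ⟨θ, h1, h2⟩ := (hinf.sdiff (hfin₁.union hfin₂)).nonempty
  have hn₁ : q + T₁ θ • (Real.cosh θ • v + Real.sinh θ • u) ∉ A := fun hcon =>
    h2 (Or.inl ⟨h1, hcon⟩)
  have hn₂ : q + T₂ θ • (Real.cosh θ • v + Real.sinh θ • u) ∉ A := fun hcon =>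
    h2 (Or.inr ⟨h1, hcon⟩)
  have hS := hθ θ h1
  obtain ⟨t1, t2, t3, t4, t5, t6⟩ := hT θ h1
  refine ⟨Real.cosh θ • X - Real.sinh θ • Y, Real.cosh θ • Y - Real.sinh θ • X,
    Real.cosh θ • u + Real.sinh θ • v, Real.cosh θ • v + Real.sinh θ • u, T₁ θ, T₂ θ, ?_, ?_,
    hn₁, hn₂⟩
  · refine ⟨ht, hq, ha, hb, hy₀, hS.frame, ?_, ?_, ?_, t2, t3, t1, t4, t5, t6⟩
    · intro z hX hY hne hXY
      exact hS.vert z (ball_subset_ball (min_le_right r r₀) (hbox θ h1 z hX hY)) hne hXY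
    · intro z hX hY hne hXY
      exact hS.horiz z (ball_subset_ball (min_le_right r r₀) (hbox θ h1 z hX hY)) hne hXY
    · intro τ h3 h4
      have h5 := hδ2 θ h1 τ h3 h4
      linarith
  · intro z hX hY
    exact ball_subset_ball (min_le_left r r₀) (hbox θ h1 z hX hY)

end Pool.Agent.Lib_MP_752436_rc
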