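import Pool.Agent.Lib_MP_752436_rc.BumpFn

/-!
The bump function used for the strips.
-/

namespace Pool.Agent.Lib_MP_752436_rc

theorem exists_bumpFn : ∃ ψ : ℝ → ℝ, IsBumpFn ψ := exists_isBumpFn

end Pool.Agent.Lib_MP_752436_rc
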