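import Pool.Agent.Lib_MP_752436_rb.IsoExt
import Pool.Agent.Lib_MP_752436_rc.Basic

/-!
PIECE SA-COLLAR-B: an ambient diffeomorphism which fixes a curve and changes an immersed surface
near given points of the curve.

Apply `isotopy_extension` with `P = B ∪ ⋃ a ∈ A, closedBall a ρ`,
`H s x = (1 - s) • g x + s • h x`, `W = univ`; note `H s x = g x` for `x ∈ B`. For small `ρ`:
(injectivity on `P`) suppose `x n ≠ y n` in `P` (for `ρ = 1/n`), `s n ∈ [0, 1]`,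
`H (s n) (x n) = H (s n) (y n)`; limits `x, y ∈ B` and `s`, `g x = g y`, so `x = y`. If `x ∉ A`
then `x n, y n ∈ B` for large `n`, contradiction to the injectivity on `B`. If `x = a ∈ A`: the
map `(s, x) ↦ (s, H s x)` has injective derivative at `(s, a)`, so it is injective near it
(`exists_left_inverse`).
(local left inverses on `P`) at `(s, x)`, `x ∈ B` not in one of the closed balls: near `x` the set
`P` is `B`, take `π (s, y)` = left inverse of `g` near `x`; at `x` in one of the small closed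
balls: left inverse of `(s, x) ↦ (s, H s x)`, whose derivative is injective near all `(s, a)`
(compactness of `[0, 1]`).
So `Ψ 1 (g x) = Ψ 1 (H 0 x) = H 1 x`, which is `h x` near `a` and `g x` on `B`
(`exists_diffeoPair_of_isotopy`).
-/

open MeasureTheory Metric Set
open scoped ContDiff Topology

namespace Pool.Agent.Lib_MP_752436_rc

open Pool.Agent.Lib_MP_752436_gt Pool.Agent.Lib_MP_752436_rb

/-- the track of an isotopy has injective derivative if the maps have -/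
private theorem injective_track_SaCollarB {H : ℝ → E2 → E3}
    (hH : ContDiff ℝ ∞ (fun p : ℝ × E2 => H p.1 p.2)) {s : ℝ} {x : E2}
    (himm : Function.Injective (fderiv ℝ (H s) x)) :
    Function.Injective (fderiv ℝ (fun q : ℝ × E2 => (q.1, H q.1 q.2)) (s, x)) := by
  have hHd : DifferentiableAt ℝ (fun p : ℝ × E2 => H p.1 p.2) (s, x) :=
    (hH.differentiable (by norm_num)).differentiableAt
  have hfd : fderiv ℝ (fun q : ℝ × E2 => (q.1, H q.1 q.2)) (s, x) =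
      (ContinuousLinearMap.fst ℝ ℝ E2).prod (fderiv ℝ (fun p : ℝ × E2 => H p.1 p.2) (s, x)) :=
    (hasFDerivAt_fst.prodMk hHd.hasFDerivAt).fderiv
  have hpart : fderiv ℝ (H s) x =
      (fderiv ℝ (fun p : ℝ × E2 => H p.1 p.2) (s, x)).comp (ContinuousLinearMap.inr ℝ ℝ E2) := by
    have h1 : HasFDerivAt (fun y : E2 => (s, y)) (ContinuousLinearMap.inr ℝ ℝ E2) x :=
      hasFDerivAt_prodMk_right s x
    exact (HasFDerivAt.comp x (g := fun p : ℝ × E2 => H p.1 p.2) (f := fun y : E2 => (s, y))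
      hHd.hasFDerivAt h1).fderiv
  rw [hfd, injective_iff_map_eq_zero]
  rintro ⟨a, v⟩ h
  rw [ContinuousLinearMap.prod_apply, Prod.mk_eq_zero] at h
  obtain ⟨h1, h2⟩ := h
  simp only [ContinuousLinearMap.coe_fst'] at h1
  subst h1
  have h3 : fderiv ℝ (H s) x v = 0 := by
    rw [hpart]
    simpa using h2
  have := (injective_iff_map_eq_zero _).1 himm v h3
  rw [this]
  rfl

/-- a property which holds near `a` holds on all small closed balls -/
private theorem small_ball_SaCollarB {X : Type*} [PseudoMetricSpace X] {a : X} {Q : X → Prop}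
    (h : ∀ᶠ x in 𝓝 a, Q x) : ∀ᶠ ρ in 𝓝[>] (0 : ℝ), ∀ x ∈ closedBall a ρ, Q x := by
  obtain ⟨ε, hε, hb⟩ := Metric.eventually_nhds_iff_ball.1 h
  filter_upwards [Ioo_mem_nhdsGT hε] with ρ hρ x hx
  exact hb x (closedBall_subset_ball hρ.2 hx)

theorem collar_segment {g h : E2 → E3} (hg : ContDiff ℝ ∞ g) (hh : ContDiff ℝ ∞ h) {B : Set E2}
    (hB : IsCompact B) (hgh : ∀ x ∈ B, g x = h x) (hinj : InjOn g B)
    (himm : ∀ x ∈ B, Function.Injective (fderiv ℝ g x)) {A : Set E2} (hA : A.Finite)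
    (hAB : A ⊆ B) (hseg : ∀ a ∈ A, ∀ s ∈ Icc (0 : ℝ) 1,
      Function.Injective ((1 - s) • fderiv ℝ g a + s • fderiv ℝ h a)) :
    ∃ Φ Φ' : E3 → E3, DiffeoPair Φ Φ' ∧ (∀ x ∈ B, Φ (g x) = g x) ∧
      ∀ a ∈ A, ∀ᶠ x in 𝓝 a, Φ (g x) = h x := by
  set H : ℝ → E2 → E3 := fun s x => (1 - s) • g x + s • h x with hHdef
  have hH : ContDiff ℝ ∞ (fun p : ℝ × E2 => H p.1 p.2) := by
    have h1 : ContDiff ℝ ∞ (fun p : ℝ × E2 => g p.2) := hg.comp contDiff_snd
    have h2 : ContDiff ℝ ∞ (fun p : ℝ × E2 => h p.2) := hh.comp contDiff_snd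
    exact ((contDiff_const.sub contDiff_fst).smul h1).add (contDiff_fst.smul h2)
  have hHc : Continuous (fun p : ℝ × E2 => H p.1 p.2) := hH.continuous
  have hHB : ∀ s, ∀ x ∈ B, H s x = g x := by
    intro s x hx
    simp only [hHdef, ← hgh x hx, ← add_smul]
    rw [sub_add_cancel, one_smul]
  have hH0 : ∀ x, H 0 x = g x := fun x => by simp [hHdef]
  have hH1 : ∀ x, H 1 x = h x := fun x => by simp [hHdef]
  -- left inverses of the track near the points of `A`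
  have hloc0 : ∀ a ∈ A, ∀ s ∈ Icc (0 : ℝ) 1, ∃ π : ℝ × E3 → ℝ × E2, ContDiff ℝ ∞ π ∧
      ∀ᶠ q : ℝ × E2 in 𝓝 (s, a), π (q.1, H q.1 q.2) = q := by
    intro a ha s hs
    have hd : fderiv ℝ (H s) a = (1 - s) • fderiv ℝ g a + s • fderiv ℝ h a := by
      have h1 : HasFDerivAt g (fderiv ℝ g a) a := ((hg.differentiable (by simp)) a).hasFDerivAt
      have h2 : HasFDerivAt h (fderiv ℝ h a) a := ((hh.differentiable (by simp)) a).hasFDerivAt
      exact ((h1.const_smul (1 - s)).add (h2.const_smul s)).fderiv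
    have hi := hseg a ha s hs
    rw [← hd] at hi
    exact exists_left_inverse (contDiff_fst.prodMk hH) (injective_track_SaCollarB hH hi)
  -- (1) left inverses
  have e1 : ∀ a ∈ A, ∀ᶠ x in 𝓝 a, ∀ s ∈ Icc (0 : ℝ) 1, ∃ π : ℝ × E3 → ℝ × E2,
      ContDiff ℝ ∞ π ∧ ∀ᶠ q : ℝ × E2 in 𝓝 (s, x), π (q.1, H q.1 q.2) = q := by
    intro a ha
    refine isCompact_Icc.eventually_forall_of_forall_eventually (fun s hs => ?_)
    obtain ⟨π, hπ, he⟩ := hloc0 a ha s hs
    have h1 : ∀ᶠ z : E2 × ℝ in 𝓝 (a, s),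
        ∀ᶠ q : ℝ × E2 in 𝓝 (z.2, z.1), π (q.1, H q.1 q.2) = q := by
      have h2 : Filter.Tendsto (fun z : E2 × ℝ => (z.2, z.1)) (𝓝 (a, s)) (𝓝 (s, a)) :=
        (continuous_snd.prodMk continuous_fst).tendsto (a, s)
      exact h2.eventually (eventually_eventually_nhds.2 he)
    filter_upwards [h1] with z hz
    exact ⟨π, hπ, hz⟩
  -- (2) local injectivity
  have e2 : ∀ a ∈ A, ∀ s ∈ Icc (0 : ℝ) 1, ∀ᶠ z : (E2 × E2) × ℝ in 𝓝 ((a, a), s),
      H z.2 z.1.1 = H z.2 z.1.2 → z.1.1 = z.1.2 := by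
    intro a ha s hs
    obtain ⟨π, hπ, he⟩ := hloc0 a ha s hs
    have h1 : Filter.Tendsto (fun z : (E2 × E2) × ℝ => (z.2, z.1.1)) (𝓝 ((a, a), s))
        (𝓝 (s, a)) :=
      (continuous_snd.prodMk (continuous_fst.comp continuous_fst)).tendsto ((a, a), s)
    have h2 : Filter.Tendsto (fun z : (E2 × E2) × ℝ => (z.2, z.1.2)) (𝓝 ((a, a), s))
        (𝓝 (s, a)) :=
      (continuous_snd.prodMk (continuous_snd.comp continuous_fst)).tendsto ((a, a), s)
    filter_upwards [h1.eventually he, h2.eventually he] with z hz1 hz2 hz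
    rw [hz, hz2] at hz1
    exact (congrArg Prod.snd hz1).symm
  -- (3) different points of `B`
  have e3 : ∀ p ∈ B, ∀ q ∈ B, p ≠ q → ∀ s, ∀ᶠ z : (E2 × E2) × ℝ in 𝓝 ((p, q), s),
      H z.2 z.1.1 = H z.2 z.1.2 → z.1.1 = z.1.2 := by
    intro p hp q hq hpq s
    have h1 : Continuous (fun z : (E2 × E2) × ℝ => H z.2 z.1.1) :=
      hHc.comp (continuous_snd.prodMk (continuous_fst.comp continuous_fst))
    have h2 : Continuous (fun z : (E2 × E2) × ℝ => H z.2 z.1.2) :=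
      hHc.comp (continuous_snd.prodMk (continuous_snd.comp continuous_fst))
    have h3 : H s p ≠ H s q := by
      rw [hHB s p hp, hHB s q hq]
      exact fun h4 => hpq (hinj hp hq h4)
    have h4 : ∀ᶠ z : (E2 × E2) × ℝ in 𝓝 ((p, q), s), H z.2 z.1.1 ≠ H z.2 z.1.2 :=
      (isOpen_ne_fun h1 h2).mem_nhds h3
    filter_upwards [h4] with z hz hz'
    exact absurd hz' hz
  have e4 : ∀ a ∈ A, ∀ b ∈ B, ∀ s ∈ Icc (0 : ℝ) 1, ∀ᶠ z : (E2 × E2) × ℝ in 𝓝 ((a, b), s),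
      H z.2 z.1.1 = H z.2 z.1.2 → z.1.1 = z.1.2 := by
    intro a ha b hb s hs
    by_cases hab : a = b
    · subst hab
      exact e2 a ha s hs
    · exact e3 a (hAB ha) b hb hab s
  -- (4) the radius
  have r1 : ∀ᶠ ρ in 𝓝[>] (0 : ℝ), ∀ a ∈ A, ∀ x ∈ closedBall a ρ, ∀ s ∈ Icc (0 : ℝ) 1,
      ∃ π : ℝ × E3 → ℝ × E2, ContDiff ℝ ∞ π ∧
        ∀ᶠ q : ℝ × E2 in 𝓝 (s, x), π (q.1, H q.1 q.2) = q :=
    (Filter.eventually_all_finite hA).2 fun a ha => small_ball_SaCollarB (e1 a ha)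
  have r2 : ∀ᶠ ρ in 𝓝[>] (0 : ℝ), ∀ a ∈ A, ∀ x ∈ closedBall a ρ, ∀ y ∈ B,
      ∀ s ∈ Icc (0 : ℝ) 1, H s x = H s y → x = y := by
    refine (Filter.eventually_all_finite hA).2 fun a ha => ?_
    have h1 : ∀ᶠ x in 𝓝 a, ∀ w ∈ B ×ˢ Icc (0 : ℝ) 1, H w.2 x = H w.2 w.1 → x = w.1 := by
      refine (hB.prod isCompact_Icc).eventually_forall_of_forall_eventually ?_
      rintro ⟨b, s⟩ ⟨hb, hs⟩
      have h2 : Filter.Tendsto (fun z : E2 × (E2 × ℝ) => ((z.1, z.2.1), z.2.2))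
          (𝓝 (a, (b, s))) (𝓝 ((a, b), s)) :=
        ((continuous_fst.prodMk (continuous_fst.comp continuous_snd)).prodMk
          (continuous_snd.comp continuous_snd)).tendsto (a, (b, s))
      exact h2.eventually (e4 a ha b hb s hs)
    filter_upwards [small_ball_SaCollarB h1] with ρ hρ x hx y hy s hs
    exact hρ x hx (y, s) ⟨hy, hs⟩
  have r3 : ∀ᶠ ρ in 𝓝[>] (0 : ℝ), ∀ a ∈ A, ∀ b ∈ A, ∀ x ∈ closedBall a ρ,
      ∀ y ∈ closedBall b ρ, ∀ s ∈ Icc (0 : ℝ) 1, H s x = H s y → x = y := by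
    refine (Filter.eventually_all_finite hA).2 fun a ha => ?_
    refine (Filter.eventually_all_finite hA).2 fun b hb => ?_
    have h1 : ∀ᶠ z : E2 × E2 in 𝓝 (a, b), ∀ s ∈ Icc (0 : ℝ) 1,
        H s z.1 = H s z.2 → z.1 = z.2 :=
      isCompact_Icc.eventually_forall_of_forall_eventually fun s hs => e4 a ha b (hAB hb) s hs
    filter_upwards [small_ball_SaCollarB h1] with ρ hρ x hx y hy s hs
    refine hρ (x, y) ?_ s hs
    rw [← closedBall_prod_same]
    exact ⟨hx, hy⟩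
  obtain ⟨ρ, ⟨⟨hρ1, hρ2⟩, hρ3⟩, hρ⟩ := ((r1.and r2).and r3).and self_mem_nhdsWithin |>.exists
  have hρ0 : 0 < ρ := hρ
  set C : Set E2 := ⋃ a ∈ A, closedBall a ρ with hC
  have hCc : IsCompact C := hA.isCompact_biUnion fun a _ => isCompact_closedBall a ρ
  have hmemC : ∀ x, x ∈ C ↔ ∃ a ∈ A, x ∈ closedBall a ρ := fun x => by
    simp only [hC, mem_iUnion, exists_prop]
  have hPinj : ∀ s ∈ Icc (0 : ℝ) 1, InjOn (H s) (B ∪ C) := by
    rintro s hs x (hx | hx) y (hy | hy) hxy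
    · rw [hHB s x hx, hHB s y hy] at hxy
      exact hinj hx hy hxy
    · obtain ⟨a, ha, hya⟩ := (hmemC y).1 hy
      exact (hρ2 a ha y hya x hx s hs hxy.symm).symm
    · obtain ⟨a, ha, hxa⟩ := (hmemC x).1 hx
      exact hρ2 a ha x hxa y hy s hs hxy
    · obtain ⟨a, ha, hxa⟩ := (hmemC x).1 hx
      obtain ⟨b, hb, hyb⟩ := (hmemC y).1 hy
      exact hρ3 a ha b hb x hxa y hyb s hs hxy
  have hPloc : ∀ s ∈ Icc (0 : ℝ) 1, ∀ x ∈ B ∪ C, ∃ π : ℝ × E3 → E2, ContDiff ℝ ∞ π ∧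
      ∀ᶠ q in 𝓝[Icc (0 : ℝ) 1 ×ˢ (B ∪ C)] (s, x), π (q.1, H q.1 q.2) = q.2 := by
    intro s hs x hx
    by_cases hxC : x ∈ C
    · obtain ⟨a, ha, hxa⟩ := (hmemC x).1 hxC
      obtain ⟨π, hπ, he⟩ := hρ1 a ha x hxa s hs
      refine ⟨fun q => (π q).2, contDiff_snd.comp hπ, ?_⟩
      refine Filter.Eventually.filter_mono nhdsWithin_le_nhds ?_
      filter_upwards [he] with q hq
      rw [hq]
    · have hxB : x ∈ B := hx.resolve_right hxC
      obtain ⟨π, hπ, he⟩ := exists_left_inverse hg (himm x hxB)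
      refine ⟨fun q => π q.2, hπ.comp contDiff_snd, ?_⟩
      have h1 : ∀ᶠ q : ℝ × E2 in 𝓝 (s, x), π (g q.2) = q.2 ∧ q.2 ∉ C := by
        have h2 : Filter.Tendsto (fun q : ℝ × E2 => q.2) (𝓝 (s, x)) (𝓝 x) :=
          continuous_snd.tendsto (s, x)
        exact h2.eventually (he.and (hCc.isClosed.isOpen_compl.mem_nhds hxC))
      filter_upwards [self_mem_nhdsWithin, nhdsWithin_le_nhds h1] with q hq1 hq2
      have hqB : q.2 ∈ B := hq1.2.resolve_right hq2.2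
      simp only [hHB q.1 q.2 hqB]
      exact hq2.1
  obtain ⟨Ψ, hΨ, hΨP⟩ := isotopy_extension hH (hB.union hCc) hPinj hPloc isOpen_univ
    (fun _ _ _ _ => mem_univ _)
  obtain ⟨Φ', hΦ'⟩ := exists_diffeoPair_of_isotopy hΨ (s := 1) ⟨zero_le_one, le_rfl⟩
  refine ⟨Ψ 1, Φ', hΦ', ?_, ?_⟩
  · intro x hx
    have h1 := hΨP x (Or.inl hx)
    rw [hH0, hH1, ← hgh x hx] at h1
    exact h1
  · intro a ha
    filter_upwards [closedBall_mem_nhds a hρ0] with x hx
    have h1 := hΨP x (Or.inr ((hmemC x).2 ⟨a, ha, hx⟩))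
    rw [hH0, hH1] at h1
    exact h1

end Pool.Agent.Lib_MP_752436_rc
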