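import Pool.Agent.Lib_MP_752436_rc.SaCollarA
import Pool.Agent.Lib_MP_752436_rc.SaCollarB

/-!
PIECE SA-COLLAR-C: `g` and `f` agree on the curve `{t = b}`; an ambient diffeomorphism which fixes
this curve makes `g` equal to `f` near two given points of it.

Let `m₁`, `m₂` be given by `collar_linear` for `A = fderiv ℝ g a i`, `B = fderiv ℝ f a i`,
`l = fderiv ℝ t a i` (they agree on the kernel of `l` by `fderiv_eq_of_level`), and
`h x = f x + (t x - b) • (χ₁ x • m₁ + χ₂ x • m₂)` with bump functions `χ i = 1` near `a i` with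
disjoint supports (`ContDiffBump`), so `h = f = g` on `{t = b}` and
`fderiv ℝ h a i = fderiv ℝ f a i + (fderiv ℝ t a i).smulRight m i`. Use `collar_segment` with
`A = {a₁, a₂}` for `(g, h)`, giving `Φ₁`, and then for `(Φ₁ ∘ g, f)`, where `Φ₁ ∘ g = h` near `a i`
and `Φ₁ ∘ g = g` on `{t = b}` (`DiffeoPair.injective_fderiv`, chain rule for the immersion
hypothesis), giving `Φ₂`; the result is `Φ₂ ∘ Φ₁` (`DiffeoPair.comp`).
-/

open MeasureTheory Metric Set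
open scoped ContDiff Topology

namespace Pool.Agent.Lib_MP_752436_rc

open Pool.Agent.Lib_MP_752436_gt Pool.Agent.Lib_MP_752436_rb

/-- Auxiliary: near `a` the map `f + (t - b) • (χ • m + ξ)` has derivative
`fderiv f a + (fderiv t a).smulRight m`. -/
private theorem saCollar_fderiv {f : E2 → E3} {t : E2 → ℝ} {b : ℝ} (hf : ContDiff ℝ ∞ f)
    (ht : ContDiff ℝ ∞ t) {a : E2} (_ha : t a = b) {h : E2 → E3} {m : E3}
    (hh : ∀ᶠ x in 𝓝 a, h x = f x + (t x - b) • m) :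
    fderiv ℝ h a = fderiv ℝ f a + (fderiv ℝ t a).smulRight m := by
  have h1 : HasFDerivAt f (fderiv ℝ f a) a := ((hf.differentiable (by simp)) a).hasFDerivAt
  have h2 : HasFDerivAt t (fderiv ℝ t a) a := ((ht.differentiable (by simp)) a).hasFDerivAt
  have h3 : HasFDerivAt (fun x => f x + (t x - b) • m)
      (fderiv ℝ f a + (fderiv ℝ t a).smulRight m) a :=
    h1.add ((h2.sub_const b).smul_const m)
  have h4 : h =ᶠ[𝓝 a] fun x => f x + (t x - b) • m := hh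
  rw [h4.fderiv_eq]
  exact h3.fderiv

theorem collar {f g : E2 → E3} {t : E2 → ℝ} {b : ℝ} (hf : ContDiff ℝ ∞ f) (hg : ContDiff ℝ ∞ g)
    (ht : ContDiff ℝ ∞ t) (hB : IsCompact {x | t x = b}) (hfg : ∀ x, t x = b → g x = f x)
    (hinj : InjOn g {x | t x = b}) (himm : ∀ x, t x = b → Function.Injective (fderiv ℝ g x))
    {a₁ a₂ : E2} (ha₁ : t a₁ = b) (ha₂ : t a₂ = b) (hne : a₁ ≠ a₂)
    (hr₁ : fderiv ℝ t a₁ ≠ 0) (hr₂ : fderiv ℝ t a₂ ≠ 0)
    (hf₁ : Function.Injective (fderiv ℝ f a₁)) (hf₂ : Function.Injective (fderiv ℝ f a₂)) :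
    ∃ Φ Φ' : E3 → E3, DiffeoPair Φ Φ' ∧ (∀ x, t x = b → Φ (g x) = f x) ∧
      (∀ᶠ x in 𝓝 a₁, Φ (g x) = f x) ∧ ∀ᶠ x in 𝓝 a₂, Φ (g x) = f x := by
  have hlev₁ : ∀ u, fderiv ℝ t a₁ u = 0 → fderiv ℝ g a₁ u = fderiv ℝ f a₁ u := fun u hu =>
    fderiv_eq_of_level hf hg ht hr₁ (fun x hx => hfg x (hx.trans ha₁)) hu
  have hlev₂ : ∀ u, fderiv ℝ t a₂ u = 0 → fderiv ℝ g a₂ u = fderiv ℝ f a₂ u := fun u hu =>
    fderiv_eq_of_level hf hg ht hr₂ (fun x hx => hfg x (hx.trans ha₂)) hu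
  obtain ⟨m₁, hm₁⟩ := collar_linear (himm a₁ ha₁) hf₁ hr₁ hlev₁
  obtain ⟨m₂, hm₂⟩ := collar_linear (himm a₂ ha₂) hf₂ hr₂ hlev₂
  have hd : 0 < dist a₁ a₂ := dist_pos.2 hne
  have hd2 : dist a₂ a₁ = dist a₁ a₂ := dist_comm _ _
  let χ₁ : ContDiffBump a₁ := ⟨dist a₁ a₂ / 4, dist a₁ a₂ / 2, by linarith, by linarith⟩
  let χ₂ : ContDiffBump a₂ := ⟨dist a₁ a₂ / 4, dist a₁ a₂ / 2, by linarith, by linarith⟩
  set h : E2 → E3 := fun x => f x + (t x - b) • (χ₁ x • m₁ + χ₂ x • m₂) with hdef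
  have hh : ContDiff ℝ ∞ h :=
    hf.add ((ht.sub contDiff_const).smul
      ((χ₁.contDiff.smul contDiff_const).add (χ₂.contDiff.smul contDiff_const)))
  have hgh : ∀ x, t x = b → g x = h x := by
    intro x hx
    simp only [hdef, hx, sub_self, zero_smul, add_zero]
    exact hfg x hx
  have hn₁ : ∀ᶠ x in 𝓝 a₁, h x = f x + (t x - b) • m₁ := by
    filter_upwards [ball_mem_nhds a₁ (show 0 < dist a₁ a₂ / 4 by linarith)] with x hx
    have e1 : χ₁ x = 1 := χ₁.one_of_mem_closedBall (ball_subset_closedBall hx)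
    have e2 : χ₂ x = 0 := by
      apply χ₂.zero_of_le_dist
      have h5 := dist_triangle a₁ x a₂
      have h6 : dist a₁ x < dist a₁ a₂ / 4 := by rw [dist_comm]; exact hx
      show dist a₁ a₂ / 2 ≤ dist x a₂
      linarith
    simp only [hdef, e1, e2, one_smul, zero_smul, add_zero]
  have hn₂ : ∀ᶠ x in 𝓝 a₂, h x = f x + (t x - b) • m₂ := by
    filter_upwards [ball_mem_nhds a₂ (show 0 < dist a₁ a₂ / 4 by linarith)] with x hx
    have e1 : χ₂ x = 1 := χ₂.one_of_mem_closedBall (ball_subset_closedBall hx)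
    have e2 : χ₁ x = 0 := by
      apply χ₁.zero_of_le_dist
      have h5 := dist_triangle a₂ x a₁
      have h6 : dist a₂ x < dist a₁ a₂ / 4 := by rw [dist_comm]; exact hx
      show dist a₁ a₂ / 2 ≤ dist x a₁
      linarith
    simp only [hdef, e1, e2, one_smul, zero_smul, zero_add]
  have hD₁ := saCollar_fderiv hf ht ha₁ hn₁
  have hD₂ := saCollar_fderiv hf ht ha₂ hn₂
  have hA : ({a₁, a₂} : Set E2).Finite := by simp
  have hAB : ({a₁, a₂} : Set E2) ⊆ {x | t x = b} := by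
    rintro x (rfl | rfl)
    · exact ha₁
    · exact ha₂
  obtain ⟨Φ₁, Φ₁', hΦ₁, hfix₁, hnear₁⟩ := collar_segment hg hh hB hgh hinj himm hA hAB (by
    rintro a (rfl | rfl) s hs
    · rw [hD₁]
      exact (hm₁ s hs).1
    · rw [hD₂]
      exact (hm₂ s hs).1)
  have hg₁ : ContDiff ℝ ∞ fun x => Φ₁ (g x) := hΦ₁.smooth.comp hg
  obtain ⟨Φ₂, Φ₂', hΦ₂, hfix₂, hnear₂⟩ := collar_segment (g := fun x => Φ₁ (g x)) hg₁ hf hB
    (fun x hx => (hfix₁ x hx).trans (hfg x hx))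
    (fun x hx y hy hxy => hinj hx hy ((hfix₁ x hx).symm.trans (hxy.trans (hfix₁ y hy))))
    (by
      intro x hx
      have h1 : HasFDerivAt (fun x => Φ₁ (g x)) ((fderiv ℝ Φ₁ (g x)).comp (fderiv ℝ g x)) x :=
        ((hΦ₁.smooth.differentiable (by simp)) (g x)).hasFDerivAt.comp x
          ((hg.differentiable (by simp)) x).hasFDerivAt
      rw [h1.fderiv]
      exact (hΦ₁.injective_fderiv (g x)).comp (himm x hx))
    hA hAB (by
    rintro a (rfl | rfl) s hs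
    · have h5 : (fun x => Φ₁ (g x)) =ᶠ[𝓝 a] h := hnear₁ a (by simp)
      rw [h5.fderiv_eq, hD₁]
      exact (hm₁ s hs).2
    · have h5 : (fun x => Φ₁ (g x)) =ᶠ[𝓝 a] h := hnear₁ a (by simp)
      rw [h5.fderiv_eq, hD₂]
      exact (hm₂ s hs).2)
  refine ⟨fun x => Φ₂ (Φ₁ x), fun x => Φ₁' (Φ₂' x), hΦ₁.comp hΦ₂, ?_, ?_, ?_⟩
  · intro x hx
    exact (hfix₂ x hx).trans ((hfix₁ x hx).trans (hfg x hx))
  · exact hnear₂ a₁ (by simp)
  · exact hnear₂ a₂ (by simp)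

end Pool.Agent.Lib_MP_752436_rc
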