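import Pool.Agent.Lib_MP_752436_rc.Defs

/-!
The linear algebra of the collar.

`fderiv_eq_of_level`: `g - f` vanishes on the level curve of `t` through `a`; Lagrange multipliers
for the functions `⟪g - f, w⟫`.

`collar_linear`: let `l n = 1`. Choose `m` with `B n + m` outside the two proper subspaces
`range A` and `range B` of `E3`. If `(1 - s) • A n + s • (B n + m)` is in `A (ker l)` then
`s • (B n + m) ∈ range A`, so `s = 0`, contradiction; in the same way for the second map.
-/

open MeasureTheory Metric Set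
open scoped ContDiff Topology RealInnerProductSpace

namespace Pool.Agent.Lib_MP_752436_rc

/-- The difference of two maps which agree on a level curve has zero derivative along it. -/
theorem fderiv_eq_of_level {f g : E2 → E3} {t : E2 → ℝ} (hf : ContDiff ℝ ∞ f)
    (hg : ContDiff ℝ ∞ g) (ht : ContDiff ℝ ∞ t) {a : E2} (ha : fderiv ℝ t a ≠ 0)
    (h : ∀ x, t x = t a → g x = f x) {u : E2} (hu : fderiv ℝ t a u = 0) :
    fderiv ℝ g a u = fderiv ℝ f a u := by
  have key : ∀ w : E3, ⟪w, fderiv ℝ g a u - fderiv ℝ f a u⟫ = 0 := by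
    intro w
    have hk : HasStrictFDerivAt (fun x => (innerSL ℝ w) (g x - f x))
        ((innerSL ℝ w).comp (fderiv ℝ g a - fderiv ℝ f a)) a :=
      (innerSL ℝ w).hasStrictFDerivAt.comp a
        ((hg.contDiffAt.hasStrictFDerivAt (by simp)).sub
          (hf.contDiffAt.hasStrictFDerivAt (by simp)))
    have hext : IsLocalExtrOn (fun x => (innerSL ℝ w) (g x - f x)) {x | t x = t a} a := by
      left
      refine Filter.eventually_of_mem self_mem_nhdsWithin fun x hx => ?_
      show (innerSL ℝ w) (g a - f a) ≤ (innerSL ℝ w) (g x - f x)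
      rw [h x hx, h a rfl, sub_self, sub_self]
    obtain ⟨c, d, hcd, hsum⟩ := hext.exists_multipliers_of_hasStrictFDerivAt_1d
      (ht.contDiffAt.hasStrictFDerivAt (by simp)) hk
    have hd : d ≠ 0 := by
      rintro rfl
      rw [zero_smul, add_zero, smul_eq_zero] at hsum
      rcases hsum with hc | hc
      · exact hcd (by rw [hc]; rfl)
      · exact ha hc
    have h1 := congrArg (fun L : E2 →L[ℝ] ℝ => L u) hsum
    simpa [hu, hd, inner_sub_right] using h1
  have h2 := key (fderiv ℝ g a u - fderiv ℝ f a u)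
  exact sub_eq_zero.1 (inner_self_eq_zero.1 h2)

private lemma inj_aux {A L : E2 →L[ℝ] E3} {l : E2 →L[ℝ] ℝ} {n : E2}
    (hA : Function.Injective A) (hn : l n = 1) (h : ∀ u, l u = 0 → L u = A u)
    (hLn : ∀ u, l u = 0 → L n ≠ A u) : Function.Injective L := by
  rw [injective_iff_map_eq_zero]
  intro x hx
  have h1 : l (x - l x • n) = 0 := by
    rw [map_sub, map_smul, hn, smul_eq_mul, mul_one, sub_self]
  have h2 := h _ h1
  rw [map_sub, hx, map_smul, zero_sub] at h2
  by_cases hβ : l x = 0
  · rw [h x hβ] at hx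
    exact (injective_iff_map_eq_zero A).1 hA x hx
  · exfalso
    refine hLn (-(l x)⁻¹ • (x - l x • n)) ?_ ?_
    · rw [map_smul, h1, smul_zero]
    · rw [map_smul, ← h2, smul_neg, neg_smul, neg_neg, smul_smul, inv_mul_cancel₀ hβ, one_smul]

private lemma range_ne_top (A : E2 →L[ℝ] E3) : ∃ p : E3, ∀ x, A x ≠ p := by
  by_contra hcon
  push Not at hcon
  have h1 : Function.Surjective (A : E2 →ₗ[ℝ] E3) := hcon
  have h2 := LinearMap.finrank_le_finrank_of_surjective h1
  rw [finrank_euclideanSpace_fin, finrank_euclideanSpace_fin] at h2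
  omega

private lemma exists_outside (A B : E2 →L[ℝ] E3) : ∃ p : E3, (∀ x, A x ≠ p) ∧ ∀ x, B x ≠ p := by
  obtain ⟨p, hp⟩ := range_ne_top A
  obtain ⟨p', hp'⟩ := range_ne_top B
  by_cases h1 : ∀ x, B x ≠ p
  · exact ⟨p, hp, h1⟩
  by_cases h2 : ∀ x, A x ≠ p'
  · exact ⟨p', h2, hp'⟩
  push Not at h1 h2
  obtain ⟨x, hx⟩ := h1
  obtain ⟨x', hx'⟩ := h2
  refine ⟨p + p', fun z hz => hp (z - x') ?_, fun z hz => hp' (z - x) ?_⟩
  · rw [map_sub, hz, hx', add_sub_cancel_right]
  · rw [map_sub, hz, hx, add_sub_cancel_left]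

theorem collar_linear {A B : E2 →L[ℝ] E3} {l : E2 →L[ℝ] ℝ} (hA : Function.Injective A)
    (hB : Function.Injective B) (hl : l ≠ 0) (h : ∀ u, l u = 0 → A u = B u) :
    ∃ m : E3, ∀ s ∈ Icc (0 : ℝ) 1,
      Function.Injective ((1 - s) • A + s • (B + l.smulRight m)) ∧
      Function.Injective ((1 - s) • (B + l.smulRight m) + s • B) := by
  obtain ⟨n₀, hn₀⟩ : ∃ n₀, l n₀ ≠ 0 := by
    by_contra hcon
    push Not at hcon
    exact hl (ContinuousLinearMap.ext hcon)
  obtain ⟨n, hn⟩ : ∃ n, l n = 1 := ⟨(l n₀)⁻¹ • n₀, by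
    rw [map_smul, smul_eq_mul, inv_mul_cancel₀ hn₀]⟩
  have hn1 : ∀ u, l u = 0 → A n ≠ A u := by
    intro u hu hcon
    have := hA hcon
    rw [this, hu] at hn
    exact zero_ne_one hn
  have hn2 : ∀ u, l u = 0 → B n ≠ B u := by
    intro u hu hcon
    have := hB hcon
    rw [this, hu] at hn
    exact zero_ne_one hn
  obtain ⟨p, hpA, hpB⟩ := exists_outside A B
  refine ⟨p - B n, fun s _ => ⟨?_, ?_⟩⟩
  · refine inj_aux (A := A) (l := l) hA hn (fun u hu => ?_) fun u hu hcon => ?_
    · simp only [add_apply, smul_apply, ContinuousLinearMap.smulRight_apply, hu,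
        zero_smul, add_zero, ← h u hu]
      rw [← add_smul, sub_add_cancel, one_smul]
    · simp only [add_apply, smul_apply, ContinuousLinearMap.smulRight_apply, hn,
        one_smul, add_sub_cancel] at hcon
      by_cases hs : s = 0
      · rw [hs, sub_zero, one_smul, zero_smul, add_zero] at hcon
        exact hn1 u hu hcon
      · refine hpA (s⁻¹ • (u - (1 - s) • n)) ?_
        rw [map_smul, map_sub, map_smul, ← hcon, add_sub_cancel_left, smul_smul,
          inv_mul_cancel₀ hs, one_smul]
  · refine inj_aux (A := B) (l := l) hB hn (fun u hu => ?_) fun u hu hcon => ?_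
    · simp only [add_apply, smul_apply, ContinuousLinearMap.smulRight_apply, hu,
        zero_smul, add_zero]
      rw [← add_smul, sub_add_cancel, one_smul]
    · simp only [add_apply, smul_apply, ContinuousLinearMap.smulRight_apply, hn,
        one_smul, add_sub_cancel] at hcon
      by_cases hs : 1 - s = 0
      · have hs1 : s = 1 := by linarith
        rw [hs1, sub_self, one_smul, zero_smul, zero_add] at hcon
        exact hn2 u hu hcon
      · refine hpB ((1 - s)⁻¹ • (u - s • n)) ?_
        rw [map_smul, map_sub, map_smul, ← hcon, add_sub_cancel_right, smul_smul,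
          inv_mul_cancel₀ hs, one_smul]

end Pool.Agent.Lib_MP_752436_rc
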