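import Pool.Agent.Lib_MP_752436_rc.Defs

/-!
PIECE SA-CORE: elementary facts about a box around a saddle.

`strictMono`, `strictAnti`: the derivative of `τ ↦ t (q + τ • v)` is `fderiv ℝ t (q + τ • v) v`,
and `vert` applies to `z = q + τ • v` (`X (τ • v) = 0`, `Y (τ • v) = τ`).

`exists_strip_subset`: by contradiction and compactness: `z n` with `|X (z n - q)| ≤ 1 / n`,
`|Y (z n - q)| ≤ 2 * y₀` subconverge (the box is compact, `frame.repr`) to a point `q + τ • v` with
`|τ| ≤ 2 * y₀`. The sets `V ∪ {b < t}` and `{a < t}` are open and contain the segment.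
-/

open MeasureTheory Metric Set
open scoped ContDiff Topology

namespace Pool.Agent.Lib_MP_752436_rc

variable {t : E2 → ℝ} {q : E2} {a b : ℝ} {X Y : E2 →L[ℝ] ℝ} {u v : E2} {y₀ τ₁ τ₂ : ℝ}

private theorem X_core (h : Frame X Y u v) (q : E2) (τ : ℝ) : X (q + τ • v - q) = 0 := by
  rw [add_sub_cancel_left, map_smul, h.Xv, smul_zero]

private theorem Y_core (h : Frame X Y u v) (q : E2) (τ : ℝ) : Y (q + τ • v - q) = τ := by
  rw [add_sub_cancel_left, map_smul, h.Yv, smul_eq_mul, mul_one]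

private theorem core_deriv (B : SadBox t q a b X Y u v y₀ τ₁ τ₂) (τ : ℝ) :
    HasDerivAt (fun τ : ℝ => t (q + τ • v)) (fderiv ℝ t (q + τ • v) v) τ := by
  have h1 : HasFDerivAt t (fderiv ℝ t (q + τ • v)) (q + τ • v) :=
    ((B.smooth.differentiable (by simp)) _).hasFDerivAt
  have h2 : HasDerivAt (fun τ : ℝ => q + τ • v) v τ := by
    have := ((hasDerivAt_id τ).smul_const v).const_add q
    simpa using this
  exact h1.comp_hasDerivAt τ h2

private theorem core_pos (B : SadBox t q a b X Y u v y₀ τ₁ τ₂) {τ : ℝ} (h0 : τ ≠ 0)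
    (h1 : |τ| ≤ 2 * y₀) : 0 < τ * fderiv ℝ t (q + τ • v) v := by
  have hX := X_core B.frame q τ
  have hY := Y_core B.frame q τ
  have := B.vert (q + τ • v) (by rw [hX, abs_zero]; linarith [B.hy₀]) (by rw [hY]; exact h1)
    (fun h => h0 (by rw [h, sub_self, map_zero] at hY; exact hY.symm))
    (by rw [hX, abs_zero]; exact abs_nonneg _)
  rwa [hY] at this

/-- A box is compact. -/
theorem isCompact_box (h : Frame X Y u v) (q : E2) (r s : ℝ) :
    IsCompact {z : E2 | |X (z - q)| ≤ r ∧ |Y (z - q)| ≤ s} := by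
  have hXc : Continuous fun z => X (z - q) := X.continuous.comp (continuous_id.sub continuous_const)
  have hYc : Continuous fun z => Y (z - q) := Y.continuous.comp (continuous_id.sub continuous_const)
  refine Metric.isCompact_of_isClosed_isBounded
    ((isClosed_le hXc.abs continuous_const).inter (isClosed_le hYc.abs continuous_const)) ?_
  refine (isBounded_closedBall (x := q) (r := r * ‖u‖ + s * ‖v‖)).subset ?_
  rintro z ⟨h1, h2⟩
  rw [mem_closedBall, dist_eq_norm, ← h.repr (z - q)]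
  refine (norm_add_le _ _).trans ?_
  rw [norm_smul, norm_smul, Real.norm_eq_abs, Real.norm_eq_abs]
  have h3 := mul_le_mul_of_nonneg_right h1 (norm_nonneg u)
  have h4 := mul_le_mul_of_nonneg_right h2 (norm_nonneg v)
  linarith

theorem SadBox.strictMono (h : SadBox t q a b X Y u v y₀ τ₁ τ₂) :
    StrictMonoOn (fun τ : ℝ => t (q + τ • v)) (Icc 0 (2 * y₀)) := by
  refine strictMonoOn_of_deriv_pos (convex_Icc _ _)
    (fun τ _ => (core_deriv h τ).continuousAt.continuousWithinAt) fun τ hτ => ?_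
  rw [interior_Icc] at hτ
  rw [(core_deriv h τ).deriv]
  have := core_pos h hτ.1.ne' (by rw [abs_of_pos hτ.1]; exact hτ.2.le)
  exact (mul_pos_iff_of_pos_left hτ.1).1 this

theorem SadBox.strictAnti (h : SadBox t q a b X Y u v y₀ τ₁ τ₂) :
    StrictAntiOn (fun τ : ℝ => t (q + τ • v)) (Icc (-(2 * y₀)) 0) := by
  refine strictAntiOn_of_deriv_neg (convex_Icc _ _)
    (fun τ _ => (core_deriv h τ).continuousAt.continuousWithinAt) fun τ hτ => ?_
  rw [interior_Icc] at hτ
  rw [(core_deriv h τ).deriv]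
  have := core_pos h hτ.2.ne (by rw [abs_of_neg hτ.2]; linarith [hτ.1])
  by_contra hcon
  rw [not_lt] at hcon
  nlinarith [hτ.2]

theorem SadBox.le_core (h : SadBox t q a b X Y u v y₀ τ₁ τ₂) {τ : ℝ} (hτ : |τ| ≤ 2 * y₀) :
    t q ≤ t (q + τ • v) := by
  have e0 : t q = (fun τ : ℝ => t (q + τ • v)) 0 := by simp
  rw [e0]
  rcases le_total 0 τ with h0 | h0
  · rw [abs_of_nonneg h0] at hτ
    exact h.strictMono.monotoneOn ⟨le_rfl, by linarith⟩ ⟨h0, hτ⟩ h0
  · rw [abs_of_nonpos h0] at hτ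
    exact h.strictAnti.antitoneOn ⟨by linarith, h0⟩ ⟨by linarith, le_rfl⟩ h0

theorem SadBox.core_lt (h : SadBox t q a b X Y u v y₀ τ₁ τ₂) {τ : ℝ} (hτ : τ ∈ Ioo τ₁ τ₂) :
    t (q + τ • v) < b := by
  rcases le_total 0 τ with h0 | h0
  · rw [← h.end₂]
    exact h.strictMono ⟨h0, by linarith [h.h₂y, hτ.2, h.hy₀]⟩
      ⟨h.h₂.le, by linarith [h.h₂y, h.hy₀]⟩ hτ.2
  · rw [← h.end₁]
    exact h.strictAnti ⟨by linarith [h.h₁y, h.hy₀], h.h₁.le⟩
      ⟨by linarith [h.h₁y, hτ.1, h.hy₀], h0⟩ hτ.1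

theorem SadBox.lt_core (h : SadBox t q a b X Y u v y₀ τ₁ τ₂) {τ : ℝ} (hτ : |τ| ≤ 2 * y₀)
    (hτ' : τ ∉ Icc τ₁ τ₂) : b < t (q + τ • v) := by
  have hb1 := h.h₁
  have hb2 := h.h₂
  have hb3 := h.h₁y
  have hb4 := h.h₂y
  have hb5 := h.hy₀
  rw [abs_le] at hτ
  rw [mem_Icc, not_and_or, not_le, not_le] at hτ'
  rcases hτ' with h1 | h1
  · have := h.strictAnti (show τ ∈ Icc (-(2 * y₀)) 0 from ⟨hτ.1, by linarith⟩)
      (show τ₁ ∈ Icc (-(2 * y₀)) 0 from ⟨by linarith, hb1.le⟩) h1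
    simp only [h.end₁] at this
    exact this
  · have := h.strictMono (show τ₂ ∈ Icc 0 (2 * y₀) from ⟨hb2.le, by linarith⟩)
      (show τ ∈ Icc 0 (2 * y₀) from ⟨by linarith, hτ.2⟩) h1
    simp only [h.end₂] at this
    exact this

/-- The level `b` is regular at the end points of the core. -/
theorem SadBox.end_ne (h : SadBox t q a b X Y u v y₀ τ₁ τ₂) :
    fderiv ℝ t (q + τ₁ • v) ≠ 0 ∧ fderiv ℝ t (q + τ₂ • v) ≠ 0 := by
  have hb1 := h.h₁
  have hb2 := h.h₂
  have hb3 := h.h₁y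
  have hb4 := h.h₂y
  have hb5 := h.hy₀
  constructor
  · intro h0
    have := core_pos h (τ := τ₁) hb1.ne (by rw [abs_of_neg hb1]; linarith)
    rw [h0] at this
    simp at this
  · intro h0
    have := core_pos h (τ := τ₂) hb2.ne' (by rw [abs_of_pos hb2]; linarith)
    rw [h0] at this
    simp at this

/-- Thin strips around the core line. -/
theorem SadBox.exists_strip_subset (h : SadBox t q a b X Y u v y₀ τ₁ τ₂) {V : Set E2}
    (hV : IsOpen V) (hcore : ∀ τ ∈ Icc τ₁ τ₂, q + τ • v ∈ V) :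
    ∃ w₀ > 0, w₀ ≤ y₀ ∧ ∀ z, |X (z - q)| ≤ w₀ → |Y (z - q)| ≤ 2 * y₀ →
      a < t z ∧ (t z ≤ b → z ∈ V ∧ |Y (z - q)| < y₀) := by
  have hXc : Continuous fun z => X (z - q) := X.continuous.comp (continuous_id.sub continuous_const)
  have hYc : Continuous fun z => Y (z - q) := Y.continuous.comp (continuous_id.sub continuous_const)
  have htc : Continuous t := h.smooth.continuous
  have hb1 := h.h₁
  have hb2 := h.h₂
  have hb3 := h.h₁y
  have hb4 := h.h₂y
  have hb5 := h.hy₀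
  set O : Set E2 := {z | a < t z} ∩ ((V ∩ {z | |Y (z - q)| < y₀}) ∪ {z | b < t z}) with hO
  have hOo : IsOpen O := (isOpen_lt continuous_const htc).inter
    ((hV.inter (isOpen_lt hYc.abs continuous_const)).union (isOpen_lt continuous_const htc))
  have hK : IsCompact ({z : E2 | |X (z - q)| ≤ 1 ∧ |Y (z - q)| ≤ 2 * y₀} ∩ Oᶜ) :=
    (isCompact_box h.frame q 1 (2 * y₀)).inter_right hOo.isClosed_compl
  obtain ⟨w2, hw2, hK2⟩ := hK.exists_forall_le' (f := fun z => |X (z - q)|) (a := 0)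
    hXc.abs.continuousOn (by
      rintro z ⟨⟨-, h2⟩, h4⟩
      rw [abs_pos]
      intro h0
      have hz : z = q + Y (z - q) • v := by
        have := h.frame.repr (z - q)
        rw [h0, zero_smul, zero_add] at this
        rw [this]
        abel
      set τ := Y (z - q) with hτ
      apply h4
      rw [hz]
      refine ⟨?_, ?_⟩
      · exact lt_of_lt_of_le h.ha (h.le_core h2)
      · by_cases hm : τ ∈ Icc τ₁ τ₂
        · refine Or.inl ⟨hcore τ hm, ?_⟩
          show |Y (q + τ • v - q)| < y₀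
          rw [Y_core h.frame, abs_lt]
          constructor <;> linarith [hm.1, hm.2]
        · exact Or.inr (h.lt_core h2 hm))
  refine ⟨min (min (w2 / 2) 1) y₀, by positivity, min_le_right _ _, fun z h1 h2 => ?_⟩
  have h3 : |X (z - q)| ≤ w2 / 2 := h1.trans ((min_le_left _ _).trans (min_le_left _ _))
  have h4 : |X (z - q)| ≤ 1 := h1.trans ((min_le_left _ _).trans (min_le_right _ _))
  have hz : z ∈ O := by
    by_contra hcon
    have := hK2 z ⟨⟨h4, h2⟩, hcon⟩
    linarith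
  refine ⟨hz.1, fun hzb => ?_⟩
  rcases hz.2 with h5 | h5
  · exact h5
  · exact absurd hzb (not_le.2 h5)

end Pool.Agent.Lib_MP_752436_rc
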