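import Pool.Agent.Lib_MP_752436_rc.SaArcs
import Pool.Agent.Lib_MP_752436_rc.SaCore

/-!
PIECE SA-CROSS: the crossings of the surface `g | {b ≤ t}` with the core arc are finitely many, and
double pairs with one point near the core and below the level `b` are near the crossings.

`cross_near`: otherwise there are `x n`, `z n` with `b ≤ t (x n)`, `t (z n) < b`,
`g (x n) = g (z n)`, `dist (z n, core) < 1 / n`, `(x n, z n) ∉ 𝒩`; they subconverge to `x`,
`q + τ • v`, `τ ∈ Icc τ₁ τ₂`, `g x = g (q + τ • v)`. For `τ ∈ Ioo τ₁ τ₂` the limit is in the open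
set `𝒩`, contradiction. For `τ = τ₁`: `x = q + τ₁ • v` by `ends₁`, so `x n`, `z n ∈ U` for
large `n` and `x n = z n` (`near`), contradiction to `t (z n) < b ≤ t (x n)`.

`cross_finite`: the set `Cr` of crossings is contained in the compact set
`{b ≤ t} × Icc τ₁ τ₂`; if it is infinite it has an accumulation point `(x, τ)` (a sequence of
distinct points of `Cr`, different from `(x, τ)`, converging to it), `g x = g (q + τ • v)`. If
`τ = τ₁` or `τ₂` one gets a contradiction as above (with `z n = q + τ n • v`, `t (z n) < b`,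
`SadBox.core_lt`). If `τ ∈ Ioo τ₁ τ₂`, let `L` be the local arc at `(x, q + τ • v)`
(`exists_locArc`); for large `n` the pair `(x n, z n) ∈ N` and `X (z n - z₀) = 0`, so
`x n = Xc 0 = x`, `z n = Zc 0 = q + τ • v`, `τ n = τ` (`Y v = 1`), contradiction.
-/

open MeasureTheory Metric Set
open scoped ContDiff Topology

namespace Pool.Agent.Lib_MP_752436_rc

variable {f g : E2 → E3} {t : E2 → ℝ} {q : E2} {a b : ℝ} {X Y : E2 →L[ℝ] ℝ} {u v : E2}
  {y₀ τ₁ τ₂ : ℝ} {ι : Type} {α β : ι → ℝ → E2}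

/-- Near a diagonal point of the core both points of a double pair coincide. -/
private theorem cross_diag (S : StripMap f g t q b v τ₁ τ₂ α β) {c x₀ : E2} (hx : x₀ = c)
    (hc : ∃ τ ∈ Icc τ₁ τ₂, c = q + τ • v) :
    ∀ᶠ p : E2 × E2 in 𝓝 (c, x₀), g p.2 = g p.1 → p.2 = p.1 := by
  obtain ⟨U, hUo, hUc, -, hUi⟩ := S.near
  obtain ⟨τ, hτ, rfl⟩ := hc
  subst hx
  have h1 : ∀ᶠ z in 𝓝 (q + τ • v), z ∈ U := hUo.mem_nhds (hUc τ hτ)
  have h3 : ∀ᶠ p : E2 × E2 in 𝓝 (q + τ • v) ×ˢ 𝓝 (q + τ • v), p.1 ∈ U ∧ p.2 ∈ U :=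
    h1.prod_mk h1
  rw [← nhds_prod_eq] at h3
  filter_upwards [h3] with p hp hg
  exact hUi hp.2 hp.1 hg

/-- Different values stay different nearby. -/
private theorem cross_ne (hg : Continuous g) {c x₀ : E2} (hne : g x₀ ≠ g c) :
    ∀ᶠ p : E2 × E2 in 𝓝 (c, x₀), g p.2 ≠ g p.1 := by
  have ho : IsOpen {p : E2 × E2 | g p.2 ≠ g p.1} :=
    isOpen_ne_fun (hg.comp continuous_snd) (hg.comp continuous_fst)
  exact ho.mem_nhds hne

theorem cross_near (h : SadBox t q a b X Y u v y₀ τ₁ τ₂) (S : StripMap f g t q b v τ₁ τ₂ α β)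
    (hK : IsCompact {x | b ≤ t x}) {𝒩 : Set (E2 × E2)} (hN : IsOpen 𝒩)
    (hcr : ∀ x, b ≤ t x → ∀ τ ∈ Ioo τ₁ τ₂, g x = g (q + τ • v) → (x, q + τ • v) ∈ 𝒩) :
    ∃ V : Set E2, IsOpen V ∧ (∀ τ ∈ Icc τ₁ τ₂, q + τ • v ∈ V) ∧
      ∀ x z, b ≤ t x → z ∈ V → t z < b → g x = g z → (x, z) ∈ 𝒩 := by
  have hgc : Continuous g := S.data.smooth.continuous
  set W : Set E2 := {z | ∀ x ∈ {x | b ≤ t x}, b ≤ t x → t z < b → g x = g z → (x, z) ∈ 𝒩}
  refine ⟨interior W, isOpen_interior, ?_, ?_⟩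
  · intro τ hτ
    rw [mem_interior_iff_mem_nhds]
    change ∀ᶠ z in 𝓝 (q + τ • v), ∀ x ∈ {x | b ≤ t x}, b ≤ t x → t z < b → g x = g z →
      (x, z) ∈ 𝒩
    refine hK.eventually_forall_of_forall_eventually
      (P := fun z x => b ≤ t x → t z < b → g x = g z → (x, z) ∈ 𝒩) ?_
    intro x₀ hx₀
    by_cases hne : g x₀ = g (q + τ • v)
    · by_cases hin : τ ∈ Ioo τ₁ τ₂
      · have hmem : (x₀, q + τ • v) ∈ 𝒩 := hcr x₀ hx₀ τ hin hne
        have hsw : ContinuousAt (fun p : E2 × E2 => (p.2, p.1)) (q + τ • v, x₀) :=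
          continuous_swap.continuousAt
        have hev : ∀ᶠ p : E2 × E2 in 𝓝 (q + τ • v, x₀), (p.2, p.1) ∈ 𝒩 :=
          hsw.eventually (hN.mem_nhds hmem)
        filter_upwards [hev] with p hp _ _ _
        exact hp
      · have hend : x₀ = q + τ • v := by
          rcases eq_or_lt_of_le hτ.1 with h1 | h1
          · rw [← h1] at hne ⊢
            exact S.ends₁ x₀ hx₀ hne
          · rcases eq_or_lt_of_le hτ.2 with h2 | h2
            · rw [h2] at hne ⊢
              exact S.ends₂ x₀ hx₀ hne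
            · exact absurd ⟨h1, h2⟩ hin
        filter_upwards [cross_diag S hend ⟨τ, hτ, rfl⟩] with p hp hb ht hg
        have := hp hg
        rw [this] at hb
        exact absurd ht (not_lt.mpr hb)
    · filter_upwards [cross_ne hgc hne] with p hp _ _ hg
      exact absurd hg hp
  · intro x z hx hz htz hg
    exact interior_subset hz x hx hx htz hg

theorem cross_finite (h : SadBox t q a b X Y u v y₀ τ₁ τ₂) (S : StripMap f g t q b v τ₁ τ₂ α β)
    (hK : IsCompact {x | b ≤ t x}) :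
    {p : E2 × ℝ | b ≤ t p.1 ∧ p.2 ∈ Ioo τ₁ τ₂ ∧ g p.1 = g (q + p.2 • v)}.Finite := by
  have hgc : Continuous g := S.data.smooth.continuous
  by_contra hinf
  have hinf' : {p : E2 × ℝ | b ≤ t p.1 ∧ p.2 ∈ Ioo τ₁ τ₂ ∧ g p.1 = g (q + p.2 • v)}.Infinite :=
    hinf
  obtain ⟨⟨x₀, τ⟩, ⟨hx₀, hτ⟩, hacc⟩ := hinf'.exists_accPt_of_subset_isCompact
    (hK.prod isCompact_Icc) (K := {x | b ≤ t x} ×ˢ Icc τ₁ τ₂)
    (fun p hp => ⟨hp.1, Ioo_subset_Icc_self hp.2.1⟩)
  replace hx₀ : b ≤ t x₀ := hx₀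
  replace hτ : τ ∈ Icc τ₁ τ₂ := hτ
  rw [accPt_iff_frequently] at hacc
  apply hacc
  have hline : Continuous fun s : ℝ => q + s • v := by fun_prop
  have hmap : ContinuousAt (fun p : E2 × ℝ => (q + p.2 • v, p.1)) (x₀, τ) := by
    have : Continuous (fun p : E2 × ℝ => (q + p.2 • v, p.1)) := by fun_prop
    exact this.continuousAt
  by_cases hne : g x₀ = g (q + τ • v)
  · by_cases hin : τ ∈ Ioo τ₁ τ₂
    · obtain ⟨N, l₀, Xc, Zc, L⟩ := exists_locArc S.data.smooth h.frame hne (S.imm τ hτ)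
        (S.trans x₀ hx₀ τ hin hne)
      have hsw : ContinuousAt (fun p : E2 × ℝ => (p.1, q + p.2 • v)) (x₀, τ) := by
        have : Continuous (fun p : E2 × ℝ => (p.1, q + p.2 • v)) := by fun_prop
        exact this.continuousAt
      have hev : ∀ᶠ p : E2 × ℝ in 𝓝 (x₀, τ), (p.1, q + p.2 • v) ∈ N :=
        hsw.eventually (L.openN.mem_nhds L.memN)
      filter_upwards [hev] with p hp hcon
      obtain ⟨hpne, -, -, hpg⟩ := hcon
      obtain ⟨-, e1, e2⟩ := L.unique _ _ hp hpg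
      have hX0 : X (q + p.2 • v - (q + τ • v)) = 0 := by
        simp [h.frame.Xv]
      rw [hX0] at e1 e2
      rw [L.startX] at e1
      rw [L.startZ] at e2
      have hτe : p.2 = τ := by
        have := congrArg Y e2
        simpa [h.frame.Yv] using this
      exact hpne (Prod.ext e1 hτe)
    · have hend : x₀ = q + τ • v := by
        rcases eq_or_lt_of_le hτ.1 with h1 | h1
        · rw [← h1] at hne ⊢
          exact S.ends₁ x₀ hx₀ hne
        · rcases eq_or_lt_of_le hτ.2 with h2 | h2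
          · rw [h2] at hne ⊢
            exact S.ends₂ x₀ hx₀ hne
          · exact absurd ⟨h1, h2⟩ hin
      have hev := hmap.eventually (cross_diag S hend ⟨τ, hτ, rfl⟩)
      filter_upwards [hev] with p hp hcon
      obtain ⟨-, hpb, hpτ, hpg⟩ := hcon
      have e := hp hpg
      have e' : p.1 = q + p.2 • v := e
      have := h.core_lt hpτ
      rw [← e'] at this
      exact absurd this (not_lt.mpr hpb)
  · have hev := hmap.eventually (cross_ne hgc hne)
    filter_upwards [hev] with p hp hcon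
    exact hp hcon.2.2.2

end Pool.Agent.Lib_MP_752436_rc
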