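import Pool.Agent.Lib_MP_752436_rc.Basic

/-!
PIECE SA-GLUE: `g` on `{b ≤ t}` and `f` near the core.

`exists_glue`: choose `ρ > 0` with `g = f` on `ball (q + τ₁ • v) ρ` and `ball (q + τ₂ • v) ρ`. The
core segment `C` is compact, and so is `K = {b ≤ t} \ (the two balls)`; they are disjoint, because
`t < b` on the open core. Let `η` be smooth, `η = 1` near `C`, `η = 0` near `K`
(`exists_contDiff_one_nhds_of_interior`..., or `exists_smooth_cutoff` in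
`Lib_MP_752436_nb/LevelPush.lean`), and `g₁ = g + η • (f - g)`. If `b ≤ t x` then either `x ∈ K` and `η = 0`
near `x`, or `x` is in one of the open balls where `g = f`.

`exists_stripMap`: `RData` for `g₁` follows from `g₁ = g` near every point of `{b ≤ t}`
(same values on `{b ≤ t}`, same derivatives). `near`: `U = ball q r ∩ interior {g₁ = f}`, on which
`f` is injective. `imm`, `trans`: the derivatives of `g₁` and `f` agree at the points of the core.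
`bdry`: `hcore`. `free`, `ends`: from the hypotheses (`g₁ = g` on `{b ≤ t}`,
`g₁ (q + τ • v) = f (q + τ • v)`).
-/

open MeasureTheory Metric Set
open scoped ContDiff Topology Manifold

namespace Pool.Agent.Lib_MP_752436_rc

open Pool.Agent.Lib_MP_752436_gt Pool.Agent.Lib_MP_752436_rb

theorem exists_glue {f g : E2 → E3} {t : E2 → ℝ} {b : ℝ} (hf : ContDiff ℝ ∞ f)
    (hg : ContDiff ℝ ∞ g) (ht : ContDiff ℝ ∞ t) (hK : IsCompact {x | b ≤ t x}) {q v : E2}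
    {τ₁ τ₂ : ℝ} (hlt : ∀ τ ∈ Ioo τ₁ τ₂, t (q + τ • v) < b)
    (hn₁ : ∀ᶠ x in 𝓝 (q + τ₁ • v), g x = f x) (hn₂ : ∀ᶠ x in 𝓝 (q + τ₂ • v), g x = f x) :
    ∃ g₁ : E2 → E3, ContDiff ℝ ∞ g₁ ∧ (∀ x, b ≤ t x → ∀ᶠ y in 𝓝 x, g₁ y = g y) ∧
      ∀ τ ∈ Icc τ₁ τ₂, ∀ᶠ y in 𝓝 (q + τ • v), g₁ y = f y := by
  set U : Set E2 := {x | ∀ᶠ y in 𝓝 x, g y = f y} with hU
  have hUo : IsOpen U := isOpen_setOfPred_eventually_nhds
  set C : Set E2 := (fun τ : ℝ => q + τ • v) '' Icc τ₁ τ₂ with hC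
  have hCc : IsCompact C := isCompact_Icc.image (by fun_prop)
  have hZc : IsClosed ({x | b ≤ t x} \ U) := hK.isClosed.sdiff hUo
  have hdisj : Disjoint ({x | b ≤ t x} \ U) C := by
    rw [Set.disjoint_left]
    rintro x ⟨hx, hxU⟩ ⟨τ, hτ, rfl⟩
    rcases hτ.1.eq_or_lt with h1 | h1
    · subst h1
      exact hxU hn₁
    · rcases hτ.2.eq_or_lt with h2 | h2
      · subst h2
        exact hxU hn₂
      · exact absurd hx (not_le.2 (hlt τ ⟨h1, h2⟩))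
  obtain ⟨χ, h0, h1, -⟩ := exists_contMDiffMap_zero_one_nhds_of_isClosed (n := (⊤ : ℕ∞))
    𝓘(ℝ, E2) hZc hCc.isClosed hdisj
  have hχ : ContDiff ℝ ∞ (χ : E2 → ℝ) := χ.contMDiff.contDiff
  refine ⟨fun x => g x + χ x • (f x - g x), hg.add (hχ.smul (hf.sub hg)), ?_, ?_⟩
  · intro x hx
    by_cases hxU : x ∈ U
    · filter_upwards [hxU] with y hy
      rw [hy, sub_self, smul_zero, add_zero]
    · have hxZ : x ∈ {x | b ≤ t x} \ U := ⟨hx, hxU⟩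
      have h2 : ∀ᶠ y in 𝓝 x, χ y = 0 := h0.filter_mono (nhds_le_nhdsSet hxZ)
      filter_upwards [h2] with y hy
      rw [hy, zero_smul, add_zero]
  · intro τ hτ
    have hxC : q + τ • v ∈ C := ⟨τ, hτ, rfl⟩
    have h2 : ∀ᶠ y in 𝓝 (q + τ • v), χ y = 1 := h1.filter_mono (nhds_le_nhdsSet hxC)
    filter_upwards [h2] with y hy
    rw [hy, one_smul, add_sub_cancel]

theorem exists_stripMap {f g : E2 → E3} {t : E2 → ℝ} {b : ℝ} {ι : Type} {α β : ι → ℝ → E2}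
    (hf : ContDiff ℝ ∞ f) (ht : ContDiff ℝ ∞ t) (hg : RData g t b α β)
    (hK : IsCompact {x | b ≤ t x}) (hfg : ∀ x, t x = b → g x = f x) {q v : E2} {τ₁ τ₂ r : ℝ}
    (hτ : τ₁ < τ₂) (h₁ : t (q + τ₁ • v) = b) (h₂ : t (q + τ₂ • v) = b)
    (hlt : ∀ τ ∈ Ioo τ₁ τ₂, t (q + τ • v) < b)
    (hball : ∀ τ ∈ Icc τ₁ τ₂, q + τ • v ∈ ball q r)
    (hinj : ∀ x ∈ ball q r, ∀ y, (t y = b ∨ y ∈ ball q r) → f x = f y → x = y)
    (himm : ∀ x ∈ ball q r, Function.Injective (fderiv ℝ f x))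
    (hn₁ : ∀ᶠ x in 𝓝 (q + τ₁ • v), g x = f x) (hn₂ : ∀ᶠ x in 𝓝 (q + τ₂ • v), g x = f x)
    (he₁ : ∀ x, b ≤ t x → g x = g (q + τ₁ • v) → x = q + τ₁ • v)
    (he₂ : ∀ x, b ≤ t x → g x = g (q + τ₂ • v) → x = q + τ₂ • v)
    (htr : ∀ x, b ≤ t x → ∀ τ ∈ Ioo τ₁ τ₂, g x = f (q + τ • v) →
      (∀ (η : E2) (σ : ℝ), fderiv ℝ g x η = σ • fderiv ℝ f (q + τ • v) v → η = 0 ∧ σ = 0) ∧
      ∀ i, ∀ s ∈ Icc (0 : ℝ) 1, g x ≠ g (α i s)) :
    ∃ g₁ : E2 → E3, StripMap f g₁ t q b v τ₁ τ₂ α β := by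
  obtain ⟨g₁, hg₁, hgg, hgf⟩ := exists_glue (f := f) (g := g) hf hg.smooth ht hK hlt hn₁ hn₂
  have eqg : ∀ x, b ≤ t x → g₁ x = g x := fun x hx => (hgg x hx).self_of_nhds
  have eqf : ∀ τ ∈ Icc τ₁ τ₂, g₁ (q + τ • v) = f (q + τ • v) := fun τ hτ =>
    (hgf τ hτ).self_of_nhds
  have dg : ∀ x, b ≤ t x → fderiv ℝ g₁ x = fderiv ℝ g x := fun x hx =>
    Filter.EventuallyEq.fderiv_eq (hgg x hx)
  have df : ∀ τ ∈ Icc τ₁ τ₂, fderiv ℝ g₁ (q + τ • v) = fderiv ℝ f (q + τ • v) := fun τ hτ =>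
    Filter.EventuallyEq.fderiv_eq (hgf τ hτ)
  have hα : ∀ i, ∀ s ∈ Icc (0 : ℝ) 1, b ≤ t (α i s) := fun i s hs =>
    ((hg.pair i).inside s hs).le
  have hβ : ∀ i, ∀ s ∈ Icc (0 : ℝ) 1, b ≤ t (β i s) := by
    intro i s hs
    rcases hs.1.eq_or_lt with h1 | h1
    · rw [← h1]
      exact (hg.pair i).left.ge
    · rcases hs.2.eq_or_lt with h2 | h2
      · rw [h2]
        exact (hg.pair i).right.ge
      · exact ((hg.pair i).proper s ⟨h1, h2⟩).le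
  have him : ∀ i, g₁ ∘ α i '' Icc 0 1 = g ∘ α i '' Icc 0 1 := by
    intro i
    exact Set.image_congr fun s hs => eqg _ (hα i s hs)
  refine ⟨g₁, ⟨⟨hg₁, ?_, ?_, ?_, ?_⟩, ?_, ?_, ?_, ?_, ?_, ?_, ?_, ?_⟩⟩
  · intro x hx
    rw [dg x hx]
    exact hg.immersion x hx
  · intro i
    have h := hg.pair i
    refine ⟨h.arcα, h.arcβ, h.inside, h.proper, h.left, h.right, h.disjoint, ?_⟩
    intro s hs
    rw [eqg _ (hα i s hs), eqg _ (hβ i s hs)]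
    exact h.same s hs
  · intro i j hij
    rw [him i, him j]
    exact hg.disj i j hij
  · intro x y hx hy hxy hgxy
    rw [eqg x hx, eqg y hy] at hgxy
    exact hg.double x y hx hy hxy hgxy
  · intro x hx
    rw [eqg x hx.ge]
    exact hfg x hx
  · intro τ hτ'
    rw [df τ hτ']
    exact himm _ (hball τ hτ')
  · refine ⟨ball q r ∩ {x | ∀ᶠ y in 𝓝 x, g₁ y = f y},
      isOpen_ball.inter isOpen_setOfPred_eventually_nhds, ?_, ?_, ?_⟩
    · exact fun τ hτ' => ⟨hball τ hτ', hgf τ hτ'⟩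
    · intro x hx
      have h1 : ∀ᶠ y in 𝓝 x, g₁ y = f y := hx.2
      exact h1.self_of_nhds
    · intro x hx y hy hxy
      have h1' : ∀ᶠ y in 𝓝 x, g₁ y = f y := hx.2
      have h2' : ∀ᶠ z in 𝓝 y, g₁ z = f z := hy.2
      have h1 : g₁ x = f x := h1'.self_of_nhds
      have h2 : g₁ y = f y := h2'.self_of_nhds
      rw [h1, h2] at hxy
      exact hinj x hx.1 y (Or.inr hy.1) hxy
  · intro x hx hxg
    rw [eqg x hx, eqg _ h₁.ge] at hxg
    exact he₁ x hx hxg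
  · intro x hx hxg
    rw [eqg x hx, eqg _ h₂.ge] at hxg
    exact he₂ x hx hxg
  · intro x hx τ hτ' hxg
    have hτI : τ ∈ Icc τ₁ τ₂ := Ioo_subset_Icc_self hτ'
    rw [eqg x hx.ge, hfg x hx, eqf τ hτI] at hxg
    have h3 := hinj _ (hball τ hτI) x (Or.inl hx) hxg.symm
    have h4 := hlt τ hτ'
    rw [h3, hx] at h4
    exact lt_irrefl _ h4
  · intro x hx τ hτ' hxg
    have hτI : τ ∈ Icc τ₁ τ₂ := Ioo_subset_Icc_self hτ'
    rw [eqg x hx, eqf τ hτI] at hxg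
    rw [dg x hx, df τ hτI]
    exact (htr x hx τ hτ' hxg).1
  · intro x hx τ hτ' hxg i s hs
    have hτI : τ ∈ Icc τ₁ τ₂ := Ioo_subset_Icc_self hτ'
    rw [eqg x hx, eqf τ hτI] at hxg
    rw [eqg x hx, eqg _ (hα i s hs)]
    exact (htr x hx τ hτ' hxg).2 i s hs

end Pool.Agent.Lib_MP_752436_rc
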