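import Mathlib.MeasureTheory.Function.Jacobian
import Pool.Agent.Lib_MP_752436_rc.Defs

/-!
PIECE SA-SARD: almost every translation makes a curve transverse to an immersed surface and
disjoint from its double curves.

On the open set `O = {(x, τ) | B (γ τ) ≠ 0}` of `E2 × ℝ` let `Q (x, τ) = (B (γ τ))⁻¹ • (g x - γ τ)`
(smooth on `O`). If `B (γ τ) > 0` then `g x = γ τ + B (γ τ) • v` iff `Q (x, τ) = v`.
* Let `v` be a regular value: the derivative of `Q` at `(x, τ)` is injective. By differentiating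
  `B (γ τ) • Q (x, τ) = g x - γ τ` one gets
  `B (γ τ) • DQ (η, σ) = Dg η - σ • (γ' τ + (B ∘ γ)' τ • v)`, so
  `fderiv ℝ g x η = σ • deriv (fun τ => γ τ + B (γ τ) • v) τ` implies `DQ (η, σ) = 0`, `(η, σ) = 0`.
  The set of critical values is null: `E2 × ℝ` and `E3` have dimension 3, choose a linear
  equivalence and use `MeasureTheory.addHaar_image_eq_zero_of_det_fderivWithin_eq_zero` on
  `{p ∈ O | DQ p is not injective}`.
* For every `i` the set of all `(B (γ τ))⁻¹ • (g (α i s) - γ τ)`, `(s, τ) ∈ R^2`, is null: it is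
  the image of a null set of `ℝ × ℝ × ℝ` (`ι` is finite) under a map which is differentiable on
  it (`MeasureTheory.addHaar_image_eq_zero_of_differentiableOn_of_addHaar_eq_zero`; compose with a
  linear equivalence `ℝ × ℝ × ℝ ≃L E3`, the last variable does not occur).
-/

open MeasureTheory Metric Set
open scoped ContDiff Topology

namespace Pool.Agent.Lib_MP_752436_rc

private theorem saSard_null (Q : E2 × ℝ → E3) (Q' : E2 × ℝ → (E2 × ℝ →L[ℝ] E3))
    (O : Set (E2 × ℝ)) (hQ : ∀ p ∈ O, HasFDerivAt Q (Q' p) p) :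
    volume (Q '' {p | p ∈ O ∧ ¬ Function.Injective (Q' p)}) = 0 := by
  have hdim : Module.finrank ℝ E3 = Module.finrank ℝ (E2 × ℝ) := by
    rw [Module.finrank_prod]
    simp
  let L : E3 ≃L[ℝ] (E2 × ℝ) := ContinuousLinearEquiv.ofFinrankEq hdim
  set S : Set E3 := {p | L p ∈ O ∧ ¬ Function.Injective (Q' (L p))} with hS
  have himg : Q '' {p | p ∈ O ∧ ¬ Function.Injective (Q' p)} = (fun p => Q (L p)) '' S := by
    ext v
    constructor
    · rintro ⟨p, hp, rfl⟩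
      refine ⟨L.symm p, ?_, ?_⟩
      · show L (L.symm p) ∈ O ∧ ¬ Function.Injective (Q' (L (L.symm p)))
        rw [L.apply_symm_apply]
        exact hp
      · show Q (L (L.symm p)) = Q p
        rw [L.apply_symm_apply]
    · rintro ⟨p, hp, rfl⟩
      exact ⟨L p, hp, rfl⟩
  rw [himg]
  refine addHaar_image_eq_zero_of_det_fderivWithin_eq_zero volume
    (f' := fun p => (Q' (L p)).comp (L : E3 →L[ℝ] (E2 × ℝ))) ?_ ?_
  · intro p hp
    have h1 : HasFDerivAt (L : E3 → E2 × ℝ) (L : E3 →L[ℝ] (E2 × ℝ)) p := L.hasFDerivAt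
    exact ((hQ (L p) hp.1).comp p h1).hasFDerivWithinAt
  · intro p hp
    by_contra hdet
    apply hp.2
    have hker : LinearMap.ker (((Q' (L p)).comp (L : E3 →L[ℝ] (E2 × ℝ)) : E3 →L[ℝ] E3) :
        E3 →ₗ[ℝ] E3) = ⊥ := by
      by_contra hk
      exact hdet (LinearMap.det_eq_zero_iff_ker_ne_bot.2 hk)
    have hinj := LinearMap.ker_eq_bot.1 hker
    intro a b hab
    have h1 : L.symm a = L.symm b := by
      apply hinj
      show (Q' (L p)) (L (L.symm a)) = (Q' (L p)) (L (L.symm b))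
      rw [L.apply_symm_apply, L.apply_symm_apply]
      exact hab
    exact L.symm.injective h1

theorem ae_transverse {g : E2 → E3} (hg : ContDiff ℝ ∞ g) {γ : ℝ → E3} (hγ : ContDiff ℝ ∞ γ)
    {B : E3 → ℝ} (hB : ContDiff ℝ ∞ B) :
    ∀ᵐ v : E3, ∀ (x : E2) (τ : ℝ), 0 < B (γ τ) → g x = γ τ + B (γ τ) • v →
      ∀ (η : E2) (σ : ℝ), fderiv ℝ g x η = σ • deriv (fun τ => γ τ + B (γ τ) • v) τ →
        η = 0 ∧ σ = 0 := by
  set c : ℝ → ℝ := fun τ => B (γ τ) with hcdef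
  have hc : ContDiff ℝ ∞ c := hB.comp hγ
  have hcd : ∀ τ, HasDerivAt c (deriv c τ) τ := fun τ =>
    (hc.differentiable (by simp) τ).hasDerivAt
  have hγd : ∀ τ, HasDerivAt γ (deriv γ τ) τ := fun τ =>
    (hγ.differentiable (by simp) τ).hasDerivAt
  have hgd : ∀ x, HasFDerivAt g (fderiv ℝ g x) x := fun x =>
    (hg.differentiable (by simp) x).hasFDerivAt
  set Q : E2 × ℝ → E3 := fun p => (c p.2)⁻¹ • (g p.1 - γ p.2) with hQdef
  set Q' : E2 × ℝ → (E2 × ℝ →L[ℝ] E3) := fun p =>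
    (c p.2)⁻¹ • ((fderiv ℝ g p.1).comp (ContinuousLinearMap.fst ℝ E2 ℝ) -
      (ContinuousLinearMap.snd ℝ E2 ℝ).smulRight (deriv γ p.2)) +
    ((-(deriv c p.2) / (c p.2) ^ 2) • (ContinuousLinearMap.snd ℝ E2 ℝ)).smulRight
      (g p.1 - γ p.2) with hQ'def
  have hQ : ∀ p ∈ {p : E2 × ℝ | 0 < c p.2}, HasFDerivAt Q (Q' p) p := by
    intro p hp
    have hp' : c p.2 ≠ 0 := (show 0 < c p.2 from hp).ne'
    have h1 : HasFDerivAt (fun p : E2 × ℝ => g p.1)
        ((fderiv ℝ g p.1).comp (ContinuousLinearMap.fst ℝ E2 ℝ)) p :=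
      (hgd p.1).comp p hasFDerivAt_fst
    have h2 : HasFDerivAt (fun p : E2 × ℝ => γ p.2)
        ((ContinuousLinearMap.snd ℝ E2 ℝ).smulRight (deriv γ p.2)) p := by
      have := (hγd p.2).hasFDerivAt.comp p (hasFDerivAt_snd (𝕜 := ℝ) (E := E2) (F := ℝ))
      refine this.congr_fderiv ?_
      ext w <;> simp
    have h3 : HasFDerivAt (fun p : E2 × ℝ => (c p.2)⁻¹)
        ((-(deriv c p.2) / (c p.2) ^ 2) • (ContinuousLinearMap.snd ℝ E2 ℝ)) p := by
      have h4 : HasDerivAt (fun τ => (c τ)⁻¹) (-(deriv c p.2) / (c p.2) ^ 2) p.2 :=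
        (hcd p.2).inv hp'
      have := h4.hasFDerivAt.comp p (hasFDerivAt_snd (𝕜 := ℝ) (E := E2) (F := ℝ))
      refine this.congr_fderiv ?_
      ext w <;> simp
    exact h3.smul (h1.sub h2)
  have hnull := saSard_null Q Q' {p : E2 × ℝ | 0 < c p.2} hQ
  rw [ae_iff]
  refine measure_mono_null ?_ hnull
  intro v hv
  by_contra hcon
  apply hv
  intro x τ hpos heq η σ hησ
  have hpos' : 0 < c τ := hpos
  have hQv : Q (x, τ) = v := by
    show (c τ)⁻¹ • (g x - γ τ) = v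
    rw [heq, add_sub_cancel_left]
    show (c τ)⁻¹ • (c τ • v) = v
    rw [smul_smul, inv_mul_cancel₀ hpos'.ne', one_smul]
  have hinj : Function.Injective (Q' (x, τ)) := by
    by_contra hni
    exact hcon ⟨(x, τ), ⟨hpos', hni⟩, hQv⟩
  have hder : deriv (fun τ => γ τ + B (γ τ) • v) τ = deriv γ τ + deriv c τ • v := by
    have h1 : HasDerivAt (fun τ => γ τ + c τ • v) (deriv γ τ + deriv c τ • v) τ :=
      (hγd τ).add ((hcd τ).smul_const v)
    exact h1.deriv
  have hzero : Q' (x, τ) (η, σ) = Q' (x, τ) 0 := by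
    rw [map_zero]
    show (c τ)⁻¹ • ((fderiv ℝ g x) η - σ • deriv γ τ) +
      ((-(deriv c τ) / (c τ) ^ 2) • σ) • (g x - γ τ) = 0
    have h1 : g x - γ τ = c τ • v := by
      rw [heq, add_sub_cancel_left]
    rw [h1, hησ, hder, smul_add, add_sub_cancel_left, smul_smul, smul_smul, smul_smul, ← add_smul]
    have h2 : (c τ)⁻¹ * σ * deriv c τ + (-(deriv c τ) / (c τ) ^ 2) • σ * c τ = 0 := by
      rw [smul_eq_mul]
      have := hpos'.ne'
      field_simp
      ring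
    rw [h2, zero_smul]
  have hz := hinj hzero
  exact ⟨congrArg Prod.fst hz, congrArg Prod.snd hz⟩

theorem ae_avoid {g : E2 → E3} (hg : ContDiff ℝ ∞ g) {γ : ℝ → E3} (hγ : ContDiff ℝ ∞ γ)
    {B : E3 → ℝ} (hB : ContDiff ℝ ∞ B) {ι : Type} [Finite ι] {α : ι → ℝ → E2}
    (hα : ∀ i, ContDiff ℝ ∞ (α i)) :
    ∀ᵐ v : E3, ∀ (i : ι) (s τ : ℝ), 0 < B (γ τ) → g (α i s) ≠ γ τ + B (γ τ) • v := by
  rw [ae_all_iff]
  intro i
  set F : E3 → E3 := fun p => (B (γ (p 1)))⁻¹ • (g (α i (p 0)) - γ (p 1)) with hF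
  set S : Set E3 := {p | p 2 = 0 ∧ 0 < B (γ (p 1))} with hS
  have hcoord : ∀ j : Fin 3, ContDiff ℝ ∞ (fun p : E3 => p j) := fun j =>
    (EuclideanSpace.proj (𝕜 := ℝ) j : E3 →L[ℝ] ℝ).contDiff
  have hdiff : DifferentiableOn ℝ F S := by
    intro p hp
    have h1 : ContDiffAt ℝ ∞ F p := by
      have hb : ContDiffAt ℝ ∞ (fun p : E3 => B (γ (p 1))) p :=
        (hB.comp (hγ.comp (hcoord 1))).contDiffAt
      have ha : ContDiffAt ℝ ∞ (fun p : E3 => g (α i (p 0)) - γ (p 1)) p :=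
        ((hg.comp ((hα i).comp (hcoord 0))).sub (hγ.comp (hcoord 1))).contDiffAt
      exact (hb.inv hp.2.ne').smul ha
    exact (h1.differentiableAt (by simp)).differentiableWithinAt
  have hS0 : volume S = 0 := by
    let P : Submodule ℝ E3 := LinearMap.ker ((EuclideanSpace.proj (𝕜 := ℝ) (2 : Fin 3) :
      E3 →L[ℝ] ℝ) : E3 →ₗ[ℝ] ℝ)
    have hP : P ≠ ⊤ := by
      intro htop
      have h1 : EuclideanSpace.single (2 : Fin 3) (1 : ℝ) ∈ P := htop ▸ Submodule.mem_top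
      have h2 : (EuclideanSpace.single (2 : Fin 3) (1 : ℝ) : E3) 2 = 0 := h1
      simp at h2
    refine measure_mono_null ?_ (Measure.addHaar_submodule volume P hP)
    intro p hp
    exact hp.1
  have hnull := addHaar_image_eq_zero_of_differentiableOn_of_addHaar_eq_zero volume hdiff hS0
  rw [ae_iff]
  refine measure_mono_null ?_ hnull
  intro v hv
  by_contra hcon
  apply hv
  intro s τ hpos heq
  apply hcon
  refine ⟨!₂[s, τ, 0], ⟨by simp, by simpa using hpos⟩, ?_⟩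
  show (B (γ τ))⁻¹ • (g (α i s) - γ τ) = v
  rw [heq, add_sub_cancel_left, smul_smul, inv_mul_cancel₀ hpos.ne', one_smul]

end Pool.Agent.Lib_MP_752436_rc
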