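import Pool.Agent.Lib_MP_752436_rb.Ext
import Pool.Agent.Lib_MP_752436_rc.Defs

/-!
No crossing of the core arc near its end points.
-/

open MeasureTheory Metric Set
open scoped ContDiff Topology

namespace Pool.Agent.Lib_MP_752436_rc

open Pool.Agent.Lib_MP_752436_gt Pool.Agent.Lib_MP_752436_rb

theorem no_cross_near_end {f g : E2 → E3} (hf : ContDiff ℝ ∞ f) (hg : ContDiff ℝ ∞ g)
    {t : E2 → ℝ} (ht : Continuous t) {b : ℝ} (hK : IsCompact {x | b ≤ t x}) {c : ℝ → E2}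
    (hc : Continuous c) {τ₀ : ℝ} {J : Set ℝ} (hJ : ∀ τ ∈ J, t (c τ) < b) (hb : t (c τ₀) = b)
    (himm : Function.Injective (fderiv ℝ f (c τ₀))) (hn : ∀ᶠ x in 𝓝 (c τ₀), g x = f x)
    (he : ∀ x, b ≤ t x → g x = g (c τ₀) → x = c τ₀) :
    ∃ ε > 0, ∀ x, b ≤ t x → ∀ τ ∈ J, |τ - τ₀| < ε → g x ≠ f (c τ) := by
  obtain ⟨π, hπ, hπ2⟩ := exists_left_inverse hf himm
  obtain ⟨W, hW, hWo, hcW⟩ := _root_.eventually_nhds_iff.1 (hn.and hπ2)
  have hK' : IsCompact ({x | b ≤ t x} \ W) := hK.diff hWo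
  have hcl : IsClosed (g '' ({x | b ≤ t x} \ W)) := (hK'.image hg.continuous).isClosed
  have hnot : f (c τ₀) ∈ (g '' ({x | b ≤ t x} \ W))ᶜ := by
    rintro ⟨x, ⟨hx1, hx2⟩, hx3⟩
    have h1 : g x = g (c τ₀) := by rw [hx3, (hW _ hcW).1]
    exact hx2 (he x hx1 h1 ▸ hcW)
  have hcont : Continuous fun τ => f (c τ) := hf.continuous.comp hc
  have h2 : ∀ᶠ τ in 𝓝 τ₀, f (c τ) ∈ (g '' ({x | b ≤ t x} \ W))ᶜ ∧ c τ ∈ W :=
    (hcont.continuousAt.eventually_mem (hcl.isOpen_compl.mem_nhds hnot)).and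
      (hc.continuousAt.eventually_mem (hWo.mem_nhds hcW))
  obtain ⟨ε, hε, h3⟩ := Metric.eventually_nhds_iff.1 h2
  refine ⟨ε, hε, fun x hx τ hτ hτε hcon => ?_⟩
  obtain ⟨h4, h5⟩ := h3 (y := τ) (by rw [Real.dist_eq]; exact hτε)
  have hxW : x ∈ W := by
    by_contra hxW
    exact h4 ⟨x, ⟨hx, hxW⟩, hcon⟩
  have h6 : x = c τ := by
    have e1 := (hW x hxW).2
    have e2 := (hW _ h5).2
    rw [← e1, ← e2, ← (hW x hxW).1, hcon]
  have h7 := hJ τ hτ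
  rw [← h6] at h7
  exact absurd hx (not_le.2 h7)

end Pool.Agent.Lib_MP_752436_rc
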