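import Pool.Agent.Lib_MP_752436_rb.SmallDiffeo
import Pool.Agent.Lib_MP_752436_nb.LevelPush
import Pool.Agent.Lib_MP_752436_rc.Basic
import Pool.Agent.Lib_MP_752436_rc.SaSard
import Pool.Agent.Lib_MP_752436_rc.SaTransvEnd

/-!
An ambient diffeomorphism which fixes the boundary curve makes `g` transverse to
the core arc `f (q + τ v)`, and the core arc disjoint from the double curves of `g`.

Let `γ τ = f (q + τ • v)`, `ε` from `no_cross_near_end` at both ends,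
`C = γ '' Icc (τ₁ + ε) (τ₂ - ε)` compact. It does not meet the compact set `Z = f '' {t = b}`
(`hcore`). Take a smooth `B : E3 → [0, 1]` with compact support, `B = 1` on `C`, `B = 0` near `Z`.
By `ae_transverse` and `ae_avoid` there is an arbitrarily small `w` with
both properties, so that `‖fderiv ℝ (fun y => B y • w) y‖ ≤ 1/2` for all `y`;
`Θ y = y + B y • w` is a diffeomorphism (`exists_inverse_id_add`), `Φ` its inverse.
-/

open MeasureTheory Metric Set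
open scoped ContDiff Topology

namespace Pool.Agent.Lib_MP_752436_rc

open Pool.Agent.Lib_MP_752436_gt Pool.Agent.Lib_MP_752436_rb

theorem transv {f g : E2 → E3} {t : E2 → ℝ} {b : ℝ} {ι : Type} [Finite ι] {α β : ι → ℝ → E2}
    (hf : ContDiff ℝ ∞ f) (ht : ContDiff ℝ ∞ t) (hg : RData g t b α β)
    (hK : IsCompact {x | b ≤ t x}) (hfg : ∀ x, t x = b → g x = f x) {q v : E2} {τ₁ τ₂ : ℝ}
    (hτ : τ₁ < τ₂) (h₁ : t (q + τ₁ • v) = b) (h₂ : t (q + τ₂ • v) = b)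
    (hlt : ∀ τ ∈ Ioo τ₁ τ₂, t (q + τ • v) < b)
    (hcore : ∀ τ ∈ Icc τ₁ τ₂, ∀ x, (t x = b ∨ ∃ σ ∈ Icc τ₁ τ₂, x = q + σ • v) →
      f x = f (q + τ • v) → x = q + τ • v)
    (hv : v ≠ 0) (himm : ∀ τ ∈ Icc τ₁ τ₂, Function.Injective (fderiv ℝ f (q + τ • v)))
    (hn₁ : ∀ᶠ x in 𝓝 (q + τ₁ • v), g x = f x) (hn₂ : ∀ᶠ x in 𝓝 (q + τ₂ • v), g x = f x)
    (he₁ : ∀ x, b ≤ t x → g x = g (q + τ₁ • v) → x = q + τ₁ • v)
    (he₂ : ∀ x, b ≤ t x → g x = g (q + τ₂ • v) → x = q + τ₂ • v) :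
    ∃ Φ Φ' : E3 → E3, DiffeoPair Φ Φ' ∧ (∀ x, t x = b → Φ (g x) = f x) ∧
      (∀ᶠ x in 𝓝 (q + τ₁ • v), Φ (g x) = f x) ∧ (∀ᶠ x in 𝓝 (q + τ₂ • v), Φ (g x) = f x) ∧
      ∀ x, b ≤ t x → ∀ τ ∈ Ioo τ₁ τ₂, Φ (g x) = f (q + τ • v) →
        (∀ (η : E2) (σ : ℝ), fderiv ℝ (fun y => Φ (g y)) x η = σ • fderiv ℝ f (q + τ • v) v →
          η = 0 ∧ σ = 0) ∧
        ∀ i, ∀ s ∈ Icc (0 : ℝ) 1, g x ≠ g (α i s) := by
  have hcs : ContDiff ℝ ∞ fun τ : ℝ => q + τ • v := contDiff_const.add (contDiff_id.smul_const v)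
  have hγs : ContDiff ℝ ∞ fun τ : ℝ => f (q + τ • v) := hf.comp hcs
  have hcd : ∀ τ : ℝ, HasDerivAt (fun τ : ℝ => q + τ • v) v τ := fun τ => by
    have h1 : HasDerivAt (fun s : ℝ => s • v) ((1 : ℝ) • v) τ := (hasDerivAt_id τ).smul_const v
    rw [one_smul] at h1
    exact h1.const_add q
  have hγd : ∀ τ : ℝ, HasDerivAt (fun τ : ℝ => f (q + τ • v)) (fderiv ℝ f (q + τ • v) v) τ :=
    fun τ => ((hf.differentiable (by simp)) (q + τ • v)).hasFDerivAt.comp_hasDerivAt τ (hcd τ)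
  obtain ⟨ε₁, hε₁, hend₁⟩ := no_cross_near_end hf hg.smooth ht.continuous hK hcs.continuous
    (τ₀ := τ₁) (J := Ioo τ₁ τ₂) hlt h₁ (himm τ₁ (left_mem_Icc.2 hτ.le)) hn₁ he₁
  obtain ⟨ε₂, hε₂, hend₂⟩ := no_cross_near_end hf hg.smooth ht.continuous hK hcs.continuous
    (τ₀ := τ₂) (J := Ioo τ₁ τ₂) hlt h₂ (himm τ₂ (right_mem_Icc.2 hτ.le)) hn₂ he₂
  have hZc : IsCompact (f '' {x | t x = b}) := by
    refine IsCompact.image ?_ hf.continuous
    refine hK.of_isClosed_subset (isClosed_eq ht.continuous continuous_const) ?_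
    intro x hx
    exact le_of_eq (Eq.symm hx)
  have hC : IsCompact ((fun τ : ℝ => f (q + τ • v)) '' Icc (τ₁ + ε₁) (τ₂ - ε₂)) :=
    isCompact_Icc.image hγs.continuous
  have hCZ : (fun τ : ℝ => f (q + τ • v)) '' Icc (τ₁ + ε₁) (τ₂ - ε₂) ⊆ (f '' {x | t x = b})ᶜ := by
    rintro _ ⟨τ, hτm, rfl⟩ ⟨x, hx, hxe⟩
    have hmem : τ ∈ Ioo τ₁ τ₂ := ⟨by linarith [hτm.1], by linarith [hτm.2]⟩
    have h3 := hcore τ (Ioo_subset_Icc_self hmem) x (Or.inl hx) hxe
    have h4 := hlt τ hmem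
    rw [← h3] at h4
    exact h4.ne hx
  obtain ⟨B, hB, hBc, hBs, hB01, hB1⟩ := Lib_MP_752436_nb.exists_smooth_cutoff hC hZc.isClosed.isOpen_compl hCZ
  have hB0 : ∀ x, t x = b → f x ∉ tsupport B := fun x hx hmem => hBs hmem ⟨x, hx, rfl⟩
  obtain ⟨M, hM⟩ : ∃ M, ∀ y, ‖fderiv ℝ B y‖ ≤ M :=
    (hBc.fderiv ℝ).exists_bound_of_continuous (hB.continuous_fderiv (by simp))
  have hM0 : 0 ≤ M := (norm_nonneg _).trans (hM 0)
  have hall : Dense {w : E3 | (∀ (x : E2) (τ : ℝ), 0 < B (f (q + τ • v)) →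
      g x = f (q + τ • v) + B (f (q + τ • v)) • w →
      ∀ (η : E2) (σ : ℝ), fderiv ℝ g x η =
        σ • deriv (fun τ : ℝ => f (q + τ • v) + B (f (q + τ • v)) • w) τ → η = 0 ∧ σ = 0) ∧
      ∀ (i : ι) (s τ : ℝ), 0 < B (f (q + τ • v)) →
        g (α i s) ≠ f (q + τ • v) + B (f (q + τ • v)) • w} := by
    refine Measure.dense_of_ae (μ := volume) ?_
    exact (ae_transverse hg.smooth hγs hB).and
      (ae_avoid hg.smooth hγs hB fun i => (hg.pair i).arcα.smooth)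
  obtain ⟨w, ⟨hw1, hw2⟩, hw3⟩ := hall.exists_dist_lt 0 (ε := 1 / (2 * (M + 1))) (by positivity)
  rw [dist_zero_left] at hw3
  set U : E3 → E3 := fun y => B y • w with hUdef
  have hU : ContDiff ℝ ∞ U := hB.smul contDiff_const
  have hUd : ∀ y, ‖fderiv ℝ U y‖ ≤ 1 / 2 := by
    intro y
    have h1 : HasFDerivAt U ((fderiv ℝ B y).smulRight w) y :=
      ((hB.differentiable (by simp)) y).hasFDerivAt.smul_const w
    rw [h1.fderiv, ContinuousLinearMap.norm_smulRight_apply]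
    calc ‖fderiv ℝ B y‖ * ‖w‖ ≤ M * (1 / (2 * (M + 1))) :=
          mul_le_mul (hM y) hw3.le (norm_nonneg _) hM0
      _ ≤ 1 / 2 := by
          rw [mul_one_div, div_le_div_iff₀ (by positivity) (by norm_num)]
          linarith
  obtain ⟨Φ, hΦ, hΦ1, hΦ2⟩ := exists_inverse_id_add hU hUd
  have hfix : ∀ y, y ∉ tsupport B → Φ y = y := by
    intro y hy
    have h1 : U y = 0 := by
      show B y • w = 0
      rw [image_eq_zero_of_notMem_tsupport hy, zero_smul]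
    have h2 := hΦ1 y
    rwa [h1, add_zero] at h2
  have hΘ : ContDiff ℝ ∞ fun y => y + U y := contDiff_id.add hU
  have hnear : ∀ p : E2, t p = b → (∀ᶠ x in 𝓝 p, g x = f x) → ∀ᶠ x in 𝓝 p, Φ (g x) = f x := by
    intro p hp hpn
    have h1 : ∀ᶠ x in 𝓝 p, f x ∈ (tsupport B)ᶜ :=
      hf.continuous.continuousAt.eventually_mem
        ((isClosed_tsupport B).isOpen_compl.mem_nhds (hB0 p hp))
    filter_upwards [hpn, h1] with x hx1 hx2
    rw [hx1, hfix _ hx2]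
  refine ⟨Φ, fun y => y + U y, ⟨hΦ, hΘ, hΦ2, hΦ1⟩, fun x hx => ?_, hnear _ h₁ hn₁, hnear _ h₂ hn₂,
    fun x hx τ hτm hxτ => ?_⟩
  · rw [hfg x hx, hfix _ (hB0 x hx)]
  · have hgx : g x = f (q + τ • v) + B (f (q + τ • v)) • w := by
      have h1 := hΦ2 (g x)
      rw [hxτ] at h1
      exact h1.symm
    have hpos : 0 < B (f (q + τ • v)) := by
      by_contra hcon
      have h0 : B (f (q + τ • v)) = 0 := le_antisymm (not_lt.1 hcon) (hB01 _).1
      rw [h0, zero_smul, add_zero] at hgx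
      have h1 : ¬ |τ - τ₁| < ε₁ := fun h => hend₁ x hx τ hτm h hgx
      have h2 : ¬ |τ - τ₂| < ε₂ := fun h => hend₂ x hx τ hτm h hgx
      have h3 : τ ∈ Icc (τ₁ + ε₁) (τ₂ - ε₂) := by
        rw [abs_of_pos (by linarith [hτm.1]), not_lt] at h1
        rw [abs_of_neg (by linarith [hτm.2]), not_lt] at h2
        exact ⟨by linarith, by linarith⟩
      have h4 := hB1 _ (mem_image_of_mem (fun τ : ℝ => f (q + τ • v)) h3)
      rw [h0] at h4
      exact zero_ne_one h4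
    refine ⟨fun η σ hησ => ?_, fun i s _ hcon => ?_⟩
    · refine hw1 x τ hpos hgx η σ ?_
      have hΦg : HasFDerivAt (fun y => Φ (g y)) (fderiv ℝ (fun y => Φ (g y)) x) x :=
        (((hΦ.comp hg.smooth).differentiable (by simp)) x).hasFDerivAt
      have hΘd : HasFDerivAt (fun y => y + U y) (fderiv ℝ (fun y => y + U y) (f (q + τ • v)))
          (f (q + τ • v)) := ((hΘ.differentiable (by simp)) _).hasFDerivAt
      have hΘd' : HasFDerivAt (fun y => y + U y) (fderiv ℝ (fun y => y + U y) (f (q + τ • v)))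
          (Φ (g x)) := by rw [hxτ]; exact hΘd
      have h1 := hΘd'.comp x hΦg
      have h2 : (fun y => y + U y) ∘ (fun y => Φ (g y)) = g := by
        funext y
        exact hΦ2 (g y)
      rw [h2] at h1
      have h3 := hΘd.comp_hasDerivAt τ (hγd τ)
      have h4 : deriv (fun τ : ℝ => f (q + τ • v) + B (f (q + τ • v)) • w) τ =
          fderiv ℝ (fun y => y + U y) (f (q + τ • v)) (fderiv ℝ f (q + τ • v) v) := h3.deriv
      rw [h1.fderiv, h4, ContinuousLinearMap.comp_apply, hησ, map_smul]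
    · exact hw2 i s τ hpos (by rw [← hcon]; exact hgx)

end Pool.Agent.Lib_MP_752436_rc
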