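import Pool.Agent.Lib_MP_752436_rc.Chain
import Pool.Agent.Lib_MP_752436_rc.InjNear
import Pool.Agent.Lib_MP_752436_rc.SaBox
import Pool.Agent.Lib_MP_752436_rc.SaBump
import Pool.Agent.Lib_MP_752436_rc.SaCollar
import Pool.Agent.Lib_MP_752436_rc.SaGlue
import Pool.Agent.Lib_MP_752436_rc.SaThin
import Pool.Agent.Lib_MP_752436_rc.SaTransv

/-!
The step through a saddle (assembled from the pieces `Sa*`).
-/

open MeasureTheory Metric Set
open scoped ContDiff Topology

namespace Pool.Agent.Lib_MP_752436_rc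

open Pool.Agent.Lib_MP_752436_gt Pool.Agent.Lib_MP_752436_rb

theorem good_of_saddle' {f : E2 → E3} {t : E2 → ℝ} (S : Stg f t) {q : E2} (hq : 0 < t q)
    (hq' : fderiv ℝ t q = 0) (hs : SaddleAt t q) :
    ∃ δ > 0, ∀ a b, t q - δ < a → a < t q → t q < b → b < t q + δ → Good f t b → Good f t a := by
  obtain ⟨δ₂, hδ₂, hδ₂t, hslab⟩ := exists_slab S hq hq'
  obtain ⟨r, δ₁, hI, -, -⟩ := exists_inj_near S hq hq' (δ₀ := 1) one_pos
  obtain ⟨ψ, hψ⟩ := exists_bumpFn
  obtain ⟨y₀, hy₀, δ₃, hδ₃, hbox⟩ := exists_sadBox S.smootht hq' hs (half_pos hI.hr)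
  refine ⟨min δ₁ (min δ₂ δ₃), lt_min hI.hδ (lt_min hδ₂ hδ₃), ?_⟩
  intro a b ha haq hqb hb hgood
  have hm1 : min δ₁ (min δ₂ δ₃) ≤ δ₁ := min_le_left _ _
  have hm2 : min δ₁ (min δ₂ δ₃) ≤ δ₂ := (min_le_right _ _).trans (min_le_left _ _)
  have hm3 : min δ₁ (min δ₂ δ₃) ≤ δ₃ := (min_le_right _ _).trans (min_le_right _ _)
  obtain ⟨ι, hι, α, β, g, hg, hgf⟩ := hgood
  have hAf : (range (fun i => β i 0) ∪ range (fun i => β i 1)).Finite :=
    (finite_range _).union (finite_range _)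
  obtain ⟨X, Y, u, v, τ₁, τ₂, hB, hsub, hA1, hA2⟩ := hbox a b haq hqb (by linarith) _ hAf
  have ha0 : 0 < a := by linarith
  have hb0 : 0 < b := by linarith
  -- compactness
  obtain ⟨c, hc, hcK⟩ := S.compact
  have hK0 : IsCompact {x | 0 ≤ t x} := by
    refine hcK.of_isClosed_subset (isClosed_le continuous_const S.smootht.continuous) ?_
    intro x hx
    have h0 : (0 : ℝ) ≤ t x := hx
    exact hc.le.trans h0
  have hK : IsCompact {x | b ≤ t x} := by
    refine hK0.of_isClosed_subset (isClosed_le continuous_const S.smootht.continuous) ?_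
    intro x hx
    have h0 : b ≤ t x := hx
    exact hb0.le.trans h0
  have hKb : IsCompact {x | t x = b} := by
    refine hK.of_isClosed_subset (isClosed_eq S.smootht.continuous continuous_const) ?_
    intro x hx
    exact le_of_eq (Eq.symm hx)
  have hv : v ≠ 0 := by
    intro h0
    have := hB.frame.Yv
    rw [h0, map_zero] at this
    exact one_ne_zero this.symm
  have hτ : τ₁ < τ₂ := hB.h₁.trans hB.h₂
  -- the core is in the small ball
  have hXv : ∀ τ : ℝ, X (q + τ • v - q) = 0 := by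
    intro τ
    rw [add_sub_cancel_left, map_smul, hB.frame.Xv, smul_zero]
  have hYv : ∀ τ : ℝ, Y (q + τ • v - q) = τ := by
    intro τ
    rw [add_sub_cancel_left, map_smul, hB.frame.Yv, smul_eq_mul, mul_one]
  have hcball' : ∀ τ ∈ Icc τ₁ τ₂, q + τ • v ∈ ball q (r / 2) := by
    intro τ hτ'
    refine hsub _ ?_ ?_
    · rw [hXv, abs_zero]
      positivity
    · rw [hYv, abs_le]
      constructor
      · linarith [hB.h₁y, hτ'.1]
      · linarith [hB.h₂y, hτ'.2]
  have hcball : ∀ τ ∈ Icc τ₁ τ₂, q + τ • v ∈ ball q r := fun τ hτ' =>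
    ball_subset_ball (by linarith [hI.hr]) (hcball' τ hτ')
  have hlevel : ∀ x, t x = b → |t x - t q| ≤ δ₁ := by
    intro x hx
    rw [hx, abs_le]
    constructor <;> linarith
  have hlt : ∀ τ ∈ Ioo τ₁ τ₂, t (q + τ • v) < b := fun τ hτ' => hB.core_lt hτ'
  -- the end points of the core are not double points of `g`
  have hendaux : ∀ p, t p = b → p ∉ range (fun i => β i 0) ∪ range (fun i => β i 1) →
      ∀ x, b ≤ t x → g x = g p → x = p := by
    intro p hp hpA x hx hxp
    by_contra hne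
    obtain ⟨i, s, hs, h1 | h1⟩ := hg.double x p hx hp.ge hne hxp
    · -- p = β i s
      rcases eq_or_lt_of_le hs.1 with h0 | h0
      · exact hpA (Or.inl ⟨i, by simp only [h1.2, ← h0]⟩)
      · rcases eq_or_lt_of_le hs.2 with h2 | h2
        · exact hpA (Or.inr ⟨i, by simp only [h1.2, h2]⟩)
        · have := (hg.pair i).proper s ⟨h0, h2⟩
          rw [← h1.2, hp] at this
          exact lt_irrefl _ this
    · have := (hg.pair i).inside s hs
      rw [← h1.2, hp] at this
      exact lt_irrefl _ this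
  have he₁ := hendaux _ hB.end₁ hA1
  have he₂ := hendaux _ hB.end₂ hA2
  -- `g` is injective on the level curve
  have hfinj : ∀ x y, t x = b → t y = b → f x = f y → x = y := by
    intro x y hx hy hxy
    exact S.inj x y (by rw [hx]; exact hb0.le) (by rw [hy]; exact hb0.le) hxy (hx.trans hy.symm)
  have hginj : InjOn g {x | t x = b} := by
    intro x hx y hy hxy
    have hx' : t x = b := hx
    have hy' : t y = b := hy
    rw [hgf x hx', hgf y hy'] at hxy
    exact hfinj x y hx' hy' hxy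
  have hends : q + τ₁ • v ≠ q + τ₂ • v := by
    intro h0
    have h1 := congrArg (fun z => Y (z - q)) h0
    simp only [hYv] at h1
    exact hτ.ne h1
  -- collar
  obtain ⟨Φ₁, Φ₁', hΦ₁, hb1, hn11, hn12⟩ := collar S.smoothf hg.smooth S.smootht hKb hgf hginj
    (fun x hx => hg.immersion x (le_of_eq (Eq.symm hx))) hB.end₁ hB.end₂ hends hB.end_ne.1
    hB.end_ne.2 (hI.imm _ (hcball τ₁ (left_mem_Icc.2 hτ.le)))
    (hI.imm _ (hcball τ₂ (right_mem_Icc.2 hτ.le)))
  have hg₁ : RData (fun x => Φ₁ (g x)) t b α β := hg.comp_left hΦ₁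
  have hΦ₁inj : ∀ x y, Φ₁ x = Φ₁ y → x = y := fun x y hxy => by
    rw [← hΦ₁.left x, hxy, hΦ₁.left]
  have he₁' : ∀ x, b ≤ t x → Φ₁ (g x) = Φ₁ (g (q + τ₁ • v)) → x = q + τ₁ • v :=
    fun x hx hxy => he₁ x hx (hΦ₁inj _ _ hxy)
  have he₂' : ∀ x, b ≤ t x → Φ₁ (g x) = Φ₁ (g (q + τ₂ • v)) → x = q + τ₂ • v :=
    fun x hx hxy => he₂ x hx (hΦ₁inj _ _ hxy)
  have hcore : ∀ τ ∈ Icc τ₁ τ₂, ∀ x, (t x = b ∨ ∃ σ ∈ Icc τ₁ τ₂, x = q + σ • v) →
      f x = f (q + τ • v) → x = q + τ • v := by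
    intro τ hτ' x hx hxy
    refine (hI.inj _ (hcball τ hτ') x ?_ hxy.symm).symm
    rcases hx with hx | ⟨σ, hσ, rfl⟩
    · exact hlevel x hx
    · exact hI.near _ (hcball σ hσ)
  -- transversality
  obtain ⟨Φ₂, Φ₂', hΦ₂, hb2, hn21, hn22, htr⟩ := transv S.smoothf S.smootht hg₁ hK hb1 hτ
    hB.end₁ hB.end₂ hlt hcore hv (fun τ hτ' => hI.imm _ (hcball τ hτ')) hn11 hn12 he₁' he₂'
  have hg₂ : RData (fun x => Φ₂ (Φ₁ (g x))) t b α β := hg₁.comp_left hΦ₂
  have hΦ₂inj : ∀ x y, Φ₂ x = Φ₂ y → x = y := fun x y hxy => by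
    rw [← hΦ₂.left x, hxy, hΦ₂.left]
  -- glueing
  obtain ⟨g₃, hS⟩ := exists_stripMap (r := r) S.smoothf S.smootht hg₂ hK hb2 hτ
    hB.end₁ hB.end₂ hlt hcball
    (fun x hx y hy hxy => hI.inj x hx y (by
      rcases hy with hy | hy
      · exact hlevel y hy
      · exact hI.near y hy) hxy) hI.imm hn21 hn22
    (fun x hx hxy => he₁' x hx (hΦ₂inj _ _ hxy)) (fun x hx hxy => he₂' x hx (hΦ₂inj _ _ hxy))
    (fun x hx τ hτ' hxy => ⟨(htr x hx τ hτ' hxy).1, fun i s hs' h0 =>
      (htr x hx τ hτ' hxy).2 i s hs' (hΦ₂inj _ _ h0)⟩)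
  -- the strip
  have hM : b < t q + (b - t q + 1) := by linarith
  obtain ⟨w₀, hw₀, hw⟩ := good_ew hB hS hK hψ hM
  obtain ⟨w₁, hw₁, hw₁y, hw₁'⟩ := hB.exists_ew hψ hM
  have hw0 : 0 < min w₀ w₁ / 2 := by
    have := lt_min hw₀ hw₁
    linarith
  have hwlt : min w₀ w₁ / 2 < min w₀ w₁ := by linarith
  generalize hwd : min w₀ w₁ / 2 = w at hw0 hwlt
  have hgood' := hw w hw0 (hwlt.trans_le (min_le_left _ _))
  obtain ⟨hsupp, hregbox⟩ := hw₁' w hw0 (hwlt.trans_le (min_le_right _ _))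
  have hwy : w < y₀ := (hwlt.trans_le (min_le_right _ _)).trans_le hw₁y
  have hle : ∀ z, t z ≤ ew t ψ X Y q (b - t q + 1) y₀ w z :=
    le_ew hψ (by linarith) w
  have hsup : ∀ z, ew t ψ X Y q (b - t q + 1) y₀ w z ≠ t z →
      |X (z - q)| < w ∧ |Y (z - q)| < 2 * y₀ := fun z hz => ew_support hψ hy₀ hw0 hz
  have hsm : ContDiff ℝ ∞ (ew t ψ X Y q (b - t q + 1) y₀ w) := contDiff_ew S.smootht hψ _ _
  generalize ew t ψ X Y q (b - t q + 1) y₀ w = e at hgood' hsupp hregbox hle hsup hsm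
  have hout : ∀ z ∉ ball q (r / 2), e z = t z := by
    intro z hz
    by_contra hne
    obtain ⟨h1, h2⟩ := hsup z hne
    exact hz (hsub z (by linarith) h2.le)
  have hcomp : IsCompact {x | (0 : ℝ) ≤ e x} := by
    refine (hK0.union (isCompact_box hB.frame q (2 * y₀) (2 * y₀))).of_isClosed_subset
      (isClosed_le continuous_const hsm.continuous) ?_
    intro x hx
    have h0 : (0 : ℝ) ≤ e x := hx
    by_cases hne : e x = t x
    · exact Or.inl (h0.trans_eq hne)
    · obtain ⟨h1, h2⟩ := hsup x hne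
      exact Or.inr ⟨by linarith, h2.le⟩
  have hG : Good f e a := by
    refine good_of_regular S.smoothf hsm (haq.trans hqb).le ha0 hcomp ?_ ?_ ?_ hgood'
    · intro x hx1 hx2
      by_cases hbx : |X (x - q)| ≤ 2 * y₀ ∧ |Y (x - q)| ≤ 2 * y₀
      · exact hregbox x hbx.1 hbx.2 hx2
      · have hcl : IsClosed {z : E2 | |X (z - q)| ≤ 2 * y₀ ∧ |Y (z - q)| ≤ 2 * y₀} :=
          (isCompact_box hB.frame q (2 * y₀) (2 * y₀)).isClosed
        have hev : e =ᶠ[𝓝 x] t := by
          filter_upwards [hcl.isOpen_compl.mem_nhds hbx] with z hz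
          by_contra hne
          obtain ⟨h1, h2⟩ := hsup z hne
          exact hz ⟨by linarith, h2.le⟩
        rw [hev.fderiv_eq]
        have hex : e x = t x := hev.eq_of_nhds
        refine hslab x ?_ ?_
        · rw [hex] at hx1 hx2
          rw [abs_le]
          constructor <;> linarith
        · intro h0
          apply hbx
          rw [h0, sub_self, map_zero, map_zero, abs_zero]
          exact ⟨by positivity, by positivity⟩
    · exact level_inj S hI (fun z hz => hout z (fun h0 => hz (ball_subset_ball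
        (by linarith [hI.hr]) h0))) (by linarith) (by linarith)
    · intro x hx1 _
      exact level_imm S hI (r' := r / 2) (by linarith [hI.hr])
        (fun z hz => hout z (fun h0 => hz (ball_subset_closedBall h0))) (by linarith) x hx1
  refine hG.congr ?_ ?_
  · intro x
    by_cases hne : e x = t x
    · rw [hne]
    · exact ⟨fun _ => (hsupp x hne).trans_le (hle x), fun _ => hsupp x hne⟩
  · intro x
    by_cases hne : e x = t x
    · rw [hne]
    · have h1 := hsupp x hne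
      constructor
      · intro h0
        exact absurd h0 h1.ne'
      · intro h0
        exact absurd h0 (h1.trans_le (hle x)).ne'

end Pool.Agent.Lib_MP_752436_rc
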